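import Pool.Agent.DC76.SepDefs

/-!
# Separations: connected sets
-/

set_option autoImplicit false

open Finset

namespace Pool.Agent.DC76

variable {V : Type} [Fintype V] {G : SimpleGraph V} {P Q S A B : Set V}

private theorem conn_union_aux {G : SimpleGraph V} {S B : Set V} (hB : Conn G B)
    (hS : ∀ s ∈ S, ∃ b ∈ B, G.Adj s b) : Conn G (S ∪ B) := by
  have key : ∀ x ∈ S ∪ B, ∃ c ∈ B, Relation.ReflTransGen (fun a b => b ∈ S ∪ B ∧ G.Adj a b) x c ∧
      Relation.ReflTransGen (fun a b => b ∈ S ∪ B ∧ G.Adj a b) c x := by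
    rintro x (hx | hx)
    · obtain ⟨b, hb, hxb⟩ := hS x hx
      exact ⟨b, hb, Relation.ReflTransGen.single ⟨Or.inr hb, hxb⟩,
        Relation.ReflTransGen.single ⟨Or.inl hx, hxb.symm⟩⟩
    · exact ⟨x, hx, Relation.ReflTransGen.refl, Relation.ReflTransGen.refl⟩
  intro x hx y hy
  obtain ⟨c, hc, h1, _⟩ := key x hx
  obtain ⟨d, hd, _, h4⟩ := key y hy
  have h5 : Relation.ReflTransGen (fun a b => b ∈ S ∪ B ∧ G.Adj a b) c d :=
    Relation.ReflTransGen.mono (fun a b hab => ⟨Or.inr hab.1, hab.2⟩) c d (hB c hc d hd)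
  exact (h1.trans h5).trans h4

/-- Proof. `B` is connected and every `s ∈ S` has a neighbour in `B`. -/
theorem Sepn.conn_SB (h : Sepn G P Q S A B) : Conn G (S ∪ B) :=
  conn_union_aux h.cB h.sB

/-- Proof. Let `O = (A ∪ B ∪ S)ᶜ`, so `Bᶜ = A ∪ S ∪ O`. `A ∪ S` is connected (`sA`). It remains to
join every `r ∈ O` inside `Bᶜ` to `A ∪ S` (both directions; adjacency is symmetric). Take a walk in
`G` from `r` to some `p ∈ P` (`hG`), and its first vertex `y` outside `O`, `o ∈ O` the vertex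
before. `y ∈ A` is impossible by `outA` for `y, o` (it gives `o ∈ Q ⊆ B`), `y ∈ B` by `outB` for
`y, o` (it gives `o ∈ P ⊆ A`). So `y ∈ S`. -/
theorem Sepn.conn_Bc (h : Sepn G P Q S A B) (hG : Conn G Set.univ) (hP : P.Nonempty) :
    Conn G Bᶜ := by
  have hSA : Conn G (S ∪ A) := conn_union_aux h.cA h.sA
  have hsub : S ∪ A ⊆ Bᶜ := by
    rintro x (hx | hx) hxB
    · exact (Set.disjoint_left.mp h.BS) hxB hx
    · exact (Set.disjoint_left.mp h.AB) hx hxB
  obtain ⟨p, hp⟩ := hP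
  have key : ∀ x, Relation.ReflTransGen (fun a b => b ∈ (Set.univ : Set V) ∧ G.Adj a b) x p →
      x ∉ B → ∃ c ∈ S ∪ A, Relation.ReflTransGen (fun a b => b ∈ Bᶜ ∧ G.Adj a b) x c ∧
        Relation.ReflTransGen (fun a b => b ∈ Bᶜ ∧ G.Adj a b) c x := by
    intro x hx
    induction hx using Relation.ReflTransGen.head_induction_on with
    | refl =>
      intro _
      exact ⟨p, Or.inr (h.PA hp), Relation.ReflTransGen.refl, Relation.ReflTransGen.refl⟩
    | @head a b hab _ ih =>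
      intro haB
      by_cases hSAa : a ∈ S ∪ A
      · exact ⟨a, hSAa, Relation.ReflTransGen.refl, Relation.ReflTransGen.refl⟩
      · have hbB : b ∉ B := by
          intro hbB
          have := (h.outB b hbB a haB (fun hs => hSAa (Or.inl hs)) hab.2.symm).2
          exact hSAa (Or.inr (h.PA this))
        obtain ⟨c, hc, h1, h2⟩ := ih hbB
        exact ⟨c, hc, Relation.ReflTransGen.head ⟨hbB, hab.2⟩ h1,
          Relation.ReflTransGen.tail h2 ⟨haB, hab.2.symm⟩⟩
  intro x hx y hy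
  obtain ⟨c, hc, h1, _⟩ := key x (hG x (Set.mem_univ _) p (Set.mem_univ _)) hx
  obtain ⟨d, hd, _, h4⟩ := key y (hG y (Set.mem_univ _) p (Set.mem_univ _)) hy
  have h5 : Relation.ReflTransGen (fun a b => b ∈ Bᶜ ∧ G.Adj a b) c d :=
    Relation.ReflTransGen.mono (fun a b hab => ⟨hsub hab.1, hab.2⟩) c d (hSA c hc d hd)
  exact (h1.trans h5).trans h4

end Pool.Agent.DC76
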