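import Pool.Agent.DC76.SepDefs

/-!
# Separations: the empty separator
-/

set_option autoImplicit false

open Finset

namespace Pool.Agent.DC76

variable {V : Type} [Fintype V] {G : SimpleGraph V} {P Q S A B : Set V}

private theorem SepEmpty_cross {W U : Set V} {x y : V}
    (h : Relation.ReflTransGen (fun a b => b ∈ W ∧ G.Adj a b) x y) (hx : x ∈ U) (hy : y ∉ U) :
    ∃ a ∈ U, ∃ r, r ∉ U ∧ G.Adj a r := by
  induction h with
  | refl => exact absurd hx hy
  | @tail b c _ hbc ih =>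
    by_cases hb : b ∈ U
    · exact ⟨b, hb, c, hy, hbc.2⟩
    · exact ih hb

private theorem SepEmpty_mono {X Y : Set V} (hXY : X ⊆ Y) {x y : V}
    (h : Relation.ReflTransGen (fun a b => b ∈ X ∧ G.Adj a b) x y) :
    Relation.ReflTransGen (fun a b => b ∈ Y ∧ G.Adj a b) x y := by
  induction h with
  | refl => exact Relation.ReflTransGen.refl
  | tail _ hab ih => exact ih.tail ⟨hXY hab.1, hab.2⟩

private theorem SepEmpty_union {X Y : Set V} (hX : Conn G X) (hY : Conn G Y) {x₀ y₀ : V}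
    (hx₀ : x₀ ∈ X) (hy₀ : y₀ ∈ Y) (hxy : G.Adj x₀ y₀) : Conn G (X ∪ Y) := by
  have h1 : ∀ {x y : V}, x ∈ X → y ∈ Y →
      Relation.ReflTransGen (fun a b => b ∈ X ∪ Y ∧ G.Adj a b) x y := by
    intro x y hx hy
    refine ((SepEmpty_mono Set.subset_union_left (hX x hx x₀ hx₀)).tail
      ⟨Set.mem_union_right _ hy₀, hxy⟩).trans ?_
    exact SepEmpty_mono Set.subset_union_right (hY y₀ hy₀ y hy)
  have h2 : ∀ {x y : V}, x ∈ Y → y ∈ X →
      Relation.ReflTransGen (fun a b => b ∈ X ∪ Y ∧ G.Adj a b) x y := by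
    intro x y hx hy
    refine ((SepEmpty_mono Set.subset_union_right (hY x hx y₀ hy₀)).tail
      ⟨Set.mem_union_left _ hx₀, hxy.symm⟩).trans ?_
    exact SepEmpty_mono Set.subset_union_left (hX x₀ hx₀ y hy)
  rintro x (hx | hx) y (hy | hy)
  · exact SepEmpty_mono Set.subset_union_left (hX x hx y hy)
  · exact h1 hx hy
  · exact h2 hx hy
  · exact SepEmpty_mono Set.subset_union_right (hY x hx y hy)

/-- The case of an empty separator.

Proof. `A ∪ B = univ`: if `r` is in neither, a walk from `r` to `P ⊆ A` has a first vertex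
`y ∈ A ∪ B`, with predecessor `o ∉ A ∪ B`; `outA` for `y, o` or `outB` for `y, o` gives `o ∈ Q` or
`o ∈ P`, contradiction. A walk from `P ⊆ A` to `Q ⊆ B` has a step from `a ∈ A` to `r ∉ A`, so by
`outA` `a ∈ P`, `r ∈ Q` are adjacent. Hence `P ∪ B` (`P`, `B` connected, `r ∈ Q ⊆ B`) and `Q ∪ A`
are connected. -/
theorem Sepn.empty (h : Sepn G P Q ∅ A B) (hG : Conn G Set.univ) (hcP : Conn G P)
    (hcQ : Conn G Q) (hP : P.Nonempty) (hQ : Q.Nonempty) :
    A ∪ B = Set.univ ∧ (∃ p ∈ P, ∃ q ∈ Q, G.Adj p q) ∧ Conn G (P ∪ B) ∧ Conn G (Q ∪ A) := by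
  obtain ⟨p, hp⟩ := hP
  obtain ⟨q, hq⟩ := hQ
  have hAB : ∀ z, z ∈ A → z ∉ B := fun z hz hz' => Set.disjoint_left.1 h.AB hz hz'
  have h1 : A ∪ B = Set.univ := by
    refine Set.eq_univ_of_forall fun r => ?_
    by_contra hr
    obtain ⟨a, ha, r', hr', har⟩ := SepEmpty_cross (U := A ∪ B)
      (hG p (Set.mem_univ _) r (Set.mem_univ _)) (Set.mem_union_left _ (h.PA hp)) hr
    rcases ha with ha | ha
    · exact hr' (Set.mem_union_right _ (h.QB (h.outA a ha r' (fun h2 => hr'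
        (Set.mem_union_left _ h2)) (Set.notMem_empty _) har).2))
    · exact hr' (Set.mem_union_left _ (h.PA (h.outB a ha r' (fun h2 => hr'
        (Set.mem_union_right _ h2)) (Set.notMem_empty _) har).2))
  obtain ⟨a, ha, r, hr, har⟩ := SepEmpty_cross (U := A)
    (hG p (Set.mem_univ _) q (Set.mem_univ _)) (h.PA hp) fun h2 => hAB q h2 (h.QB hq)
  obtain ⟨haP, hrQ⟩ := h.outA a ha r hr (Set.notMem_empty _) har
  exact ⟨h1, ⟨a, haP, r, hrQ, har⟩, SepEmpty_union hcP h.cB haP (h.QB hrQ) har,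
    SepEmpty_union hcQ h.cA hrQ (h.PA haP) har.symm⟩

end Pool.Agent.DC76
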