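import Pool.Agent.DC76.SepDefs

/-!
# The induction step
-/

set_option autoImplicit false

open Finset

namespace Pool.Agent.DC76

variable {V : Type} [Fintype V] {G : SimpleGraph V} {P Q S A B : Set V}

/-- A vertex of the separator has at most two neighbours in the separator. Proof. Otherwise there
are different `a 0, a 1, a 2 ∈ S` adjacent to `x`, and `A`, `B`, `x`, `a` contradict `NoK`
(`Sepn.sA`, `Sepn.sB`; `K1`, `K2` are contained in `P ⊆ A` or in `Q ⊆ B`). -/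
theorem Sepn.deg (h : Sepn G P Q S A B) {K1 K2 : Set V} (hN : NoK G K1 K2)
    (h1 : K1 ⊆ P ∨ K1 ⊆ Q) (h2 : K2 ⊆ P ∨ K2 ⊆ Q) :
    ∀ x ∈ S, {w | w ∈ S ∧ G.Adj x w}.ncard ≤ 2 := by
  intro x hx
  by_contra hcon
  rw [not_le, Set.two_lt_ncard_iff] at hcon
  obtain ⟨p, q, r, hp, hq, hr, hpq, hpr, hqr⟩ := hcon
  have hSA : ∀ s ∈ S, s ∉ A := fun s hs hA => Set.disjoint_left.1 h.AS hA hs
  have hSB : ∀ s ∈ S, s ∉ B := fun s hs hB => Set.disjoint_left.1 h.BS hB hs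
  have hK : ∀ K : Set V, (K ⊆ P ∨ K ⊆ Q) → (K ⊆ A ∨ K ⊆ B) := fun K hK =>
    hK.imp (fun hP => hP.trans h.PA) fun hQ => hQ.trans h.QB
  have ha : ∀ j, (![p, q, r] : Fin 3 → V) j ∈ S ∧ G.Adj x ((![p, q, r] : Fin 3 → V) j) := by
    intro j
    fin_cases j
    · exact hp
    · exact hq
    · exact hr
  refine hN A B h.cA h.cB h.AB (hK K1 h1) (hK K2 h2) x ![p, q, r] ?_ (hSA x hx) (hSB x hx) ?_
  · intro i j hij
    fin_cases i <;> fin_cases j
    · rfl
    · exact absurd hij hpq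
    · exact absurd hij hpr
    · exact absurd hij.symm hpq
    · rfl
    · exact absurd hij hqr
    · exact absurd hij.symm hpr
    · exact absurd hij.symm hqr
    · rfl
  · intro j
    refine ⟨hSA _ (ha j).1, hSB _ (ha j).1, (ha j).2, ?_, ?_⟩
    · obtain ⟨a, haA, hadj⟩ := h.sA _ (ha j).1
      exact ⟨a, haA, hadj.symm⟩
    · obtain ⟨b, hbB, hadj⟩ := h.sB _ (ha j).1
      exact ⟨b, hbB, hadj.symm⟩

open Classical in
/-- The case of a nonempty separator (`α = β` is allowed).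

Proof. `c v = γ` for `v ∈ S`, `c2 v` for `v ∈ B`, `c1 v` otherwise. Let `v ∉ P`, `v ∉ Q`.
(i) `v ∈ S`: `c v = γ ≠ α, β`; a neighbour `w ∉ P ∪ Q` with `c w = γ` is in `S`: if `w ∈ B` then
`w ∉ Q` and `w` is adjacent to `v ∈ Bᶜ`, so `c2 w ≠ γ`; if `w ∉ S ∪ B` then `w` is adjacent to
`v ∈ S ∪ B`, so `c1 w ≠ γ`. So `hd` applies. (ii) `v ∈ B \ Q`: a neighbour `r ∉ B ∪ S` is
impossible (`outB` gives `v ∈ Q`), in particular there is none in `P ⊆ A`. A neighbour in `S ⊆ Bᶜ`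
means `c2 v ≠ γ`, so it has another colour; the remaining conditions are those of `h2` at `v`.
(iii) `v ∉ S ∪ B`: a neighbour in `B` is in `Q` and `v ∈ P` (`outB`), impossible, so there are no
neighbours in `B ⊇ Q`; a neighbour in `S` means `c1 v ≠ γ`; the remaining conditions are those of
`h1` at `v`. (`Set.ncard_le_ncard` for the inclusions of the sets of neighbours.) -/
theorem Sepn.step (h : Sepn G P Q S A B) (hd : ∀ x ∈ S, {w | w ∈ S ∧ G.Adj x w}.ncard ≤ 2)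
    {α β γ : Fin 3} (hα : γ ≠ α) (hβ : γ ≠ β) {c1 c2 : V → Fin 3}
    (h1 : Good G P (S ∪ B) α γ c1) (h2 : Good G Q Bᶜ β γ c2) : ∃ c, Good G P Q α β c := by
  have hSB : ∀ s ∈ S, s ∉ B := fun s hs hB => Set.disjoint_left.1 h.BS hB hs
  have hPB : ∀ p ∈ P, p ∉ B := fun p hp hB => Set.disjoint_left.1 h.AB (h.PA hp) hB
  have hPS : ∀ p ∈ P, p ∉ S := fun p hp hS => Set.disjoint_left.1 h.AS (h.PA hp) hS
  obtain ⟨c, hc⟩ : ∃ c : V → Fin 3, ∀ v, c v = if v ∈ S then γ else if v ∈ B then c2 v else c1 v :=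
    ⟨_, fun _ => rfl⟩
  have cS : ∀ v, v ∈ S → c v = γ := fun v hv => by rw [hc, if_pos hv]
  have cB : ∀ v, v ∉ S → v ∈ B → c v = c2 v := fun v hv hv' => by
    rw [hc, if_neg hv, if_pos hv']
  have cA : ∀ v, v ∉ S → v ∉ B → c v = c1 v := fun v hv hv' => by
    rw [hc, if_neg hv, if_neg hv']
  refine ⟨c, fun v hvP hvQ => ?_⟩
  by_cases hvS : v ∈ S
  · rw [cS v hvS]
    refine ⟨fun _ => hα, fun _ => hβ, ?_⟩
    refine (Set.ncard_le_ncard ?_ (Set.toFinite _)).trans (hd v hvS)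
    rintro w ⟨hwP, hwQ, hadj, hcw⟩
    refine ⟨?_, hadj⟩
    by_contra hwS
    by_cases hwB : w ∈ B
    · rw [cB w hwS hwB] at hcw
      exact (h2 w hwQ (fun hn => hn hwB)).2.1 ⟨v, hSB v hvS, hadj.symm⟩ hcw
    · rw [cA w hwS hwB] at hcw
      have hw : w ∉ S ∪ B := fun hn => hn.elim hwS hwB
      exact (h1 w hwP hw).2.1 ⟨v, Or.inl hvS, hadj.symm⟩ hcw
  · by_cases hvB : v ∈ B
    · rw [cB v hvS hvB]
      obtain ⟨g1, g2, g3⟩ := h2 v hvQ (fun hn => hn hvB)
      refine ⟨?_, g1, ?_⟩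
      · rintro ⟨p, hp, hadj⟩
        exact absurd (h.outB v hvB p (hPB p hp) (hPS p hp) hadj).1 hvQ
      · refine (Set.ncard_le_ncard ?_ (Set.toFinite _)).trans g3
        rintro w ⟨hwP, hwQ, hadj, hcw⟩
        have hwS : w ∉ S := by
          intro hwS
          rw [cS w hwS] at hcw
          exact g2 ⟨w, hSB w hwS, hadj⟩ hcw.symm
        have hwB : w ∈ B := by
          by_contra hwB
          exact hvQ (h.outB v hvB w hwB hwS hadj).1
        rw [cB w hwS hwB] at hcw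
        exact ⟨hwQ, fun hn => hn hwB, hadj, hcw⟩
    · rw [cA v hvS hvB]
      have hv : v ∉ S ∪ B := fun hn => hn.elim hvS hvB
      obtain ⟨g1, g2, g3⟩ := h1 v hvP hv
      refine ⟨g1, ?_, ?_⟩
      · rintro ⟨q, hq, hadj⟩
        exact absurd (h.outB q (h.QB hq) v hvB hvS hadj.symm).2 hvP
      · refine (Set.ncard_le_ncard ?_ (Set.toFinite _)).trans g3
        rintro w ⟨hwP, hwQ, hadj, hcw⟩
        have hwS : w ∉ S := by
          intro hwS
          rw [cS w hwS] at hcw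
          exact g2 ⟨w, Or.inl hwS, hadj⟩ hcw.symm
        have hwB : w ∉ B := by
          intro hwB
          exact hvP (h.outB w hwB v hvB hvS hadj.symm).2
        rw [cA w hwS hwB] at hcw
        exact ⟨hwP, fun hn => hn.elim hwS hwB, hadj, hcw⟩

end Pool.Agent.DC76
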