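import Pool.Agent.DC76.SepDefs

/-!
# The induction step for an empty separator
-/

set_option autoImplicit false

open Finset

namespace Pool.Agent.DC76

variable {V : Type} [Fintype V] {G : SimpleGraph V} {P Q S A B : Set V}

open Classical in
private theorem step0_half {G : SimpleGraph V} {P A B : Set V} (hdis : Disjoint A B)
    {α β : Fin 3} (hαβ : α ≠ β)
    (h1 : A = P ∨ ∃ v ∈ A \ P, ∃ c1, Good G (P ∪ B) {v} α β c1) :
    ∃ c : V → Fin 3, ∀ v ∈ A, v ∉ P → ((∃ p ∈ P, G.Adj v p) → c v ≠ α) ∧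
      {w | w ∉ P ∧ w ∈ A ∧ G.Adj v w ∧ c w = c v}.ncard ≤ 2 := by
  rcases h1 with rfl | ⟨v1, hv1, c1, hc1⟩
  · exact ⟨fun _ => 0, fun v hv hv' => absurd hv hv'⟩
  have hB : ∀ w ∈ A, w ∉ B := fun w hw hw' => Set.disjoint_left.1 hdis hw hw'
  refine ⟨fun v => if v = v1 then β else c1 v, fun v hv hvP => ?_⟩
  beta_reduce
  by_cases hvv : v = v1
  · subst hvv
    refine ⟨fun _ => by rw [if_pos rfl]; exact hαβ.symm, ?_⟩
    have h2 : {w | w ∉ P ∧ w ∈ A ∧ G.Adj v w ∧
        (if w = v then β else c1 w) = if v = v then β else c1 v} = ∅ := by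
      rw [Set.eq_empty_iff_forall_notMem]
      rintro w ⟨h3, h4, h5, h6⟩
      have h7 : w ≠ v := h5.ne'
      rw [if_neg h7, if_pos rfl] at h6
      exact (hc1 w (fun h => h.elim h3 (hB w h4)) h7).2.1 ⟨v, rfl, h5.symm⟩ h6
    rw [h2, Set.ncard_empty]
    exact Nat.zero_le 2
  · obtain ⟨h2, h3, h4⟩ := hc1 v (fun h => h.elim hvP (hB v hv)) hvv
    refine ⟨?_, ?_⟩
    · rintro ⟨p, hp, hvp⟩
      rw [if_neg hvv]
      exact h2 ⟨p, Or.inl hp, hvp⟩
    · refine (Set.ncard_le_ncard ?_ (Set.toFinite _)).trans h4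
      rintro w ⟨h5, h6, h7, h8⟩
      rw [if_neg hvv] at h8
      have hw : w ≠ v1 := by
        rintro rfl
        rw [if_pos rfl] at h8
        exact h3 ⟨w, rfl, h7⟩ h8.symm
      rw [if_neg hw] at h8
      exact ⟨fun h => h.elim h5 (hB w h6), hw, h7, h8⟩

open Classical in
/-- The case of an empty separator.

Proof. Let `c v = c1 v` on `A`, but `β` at the vertex `v1` of `h1`, and `c v = c2 v` on `B`, but
`α` at the vertex `v2` of `h2` (`A`, `B` are disjoint, `A ∪ B` is everything; if `A = P` the values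
on `A` are arbitrary). Let `v ∈ A`, `v ∉ P`. By `outA` all the neighbours of `v` are in `A` (a
neighbour `r ∉ A` would give `v ∈ P`), so there is no neighbour in `Q`. If `v = v1`: `c v = β ≠ α`,
and a neighbour `w ∈ A \ P` is not `v1`, `w ∉ P ∪ B`, so `c1 w ≠ β` by `h1`. If `v ≠ v1`: `h1` at
`v` (`v ∉ P ∪ B`, `v ∉ {v1}`) gives `c1 v ≠ α` if there is a neighbour in `P`, `c1 v ≠ β` if `v`
is adjacent to `v1`, and at most two neighbours `w ∉ P ∪ B`, `w ≠ v1` with the same colour. The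
case `v ∈ B \ Q` is symmetric. -/
theorem Sepn.step0 (h : Sepn G P Q ∅ A B) (hAB : A ∪ B = Set.univ) {α β : Fin 3} (hαβ : α ≠ β)
    (h1 : A = P ∨ ∃ v ∈ A \ P, ∃ c1, Good G (P ∪ B) {v} α β c1)
    (h2 : B = Q ∨ ∃ v ∈ B \ Q, ∃ c2, Good G (Q ∪ A) {v} β α c2) :
    ∃ c, Good G P Q α β c := by
  obtain ⟨cA, hA⟩ := step0_half h.AB hαβ h1
  obtain ⟨cB, hB⟩ := step0_half h.AB.symm hαβ.symm h2
  refine ⟨fun v => if v ∈ A then cA v else cB v, fun v hvP hvQ => ?_⟩
  beta_reduce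
  by_cases hv : v ∈ A
  · have hout : ∀ w, G.Adj v w → w ∈ A := by
      intro w hw
      by_contra hwA
      exact hvP (h.outA v hv w hwA (fun h => h) hw).1
    obtain ⟨h3, h4⟩ := hA v hv hvP
    refine ⟨fun hp => by rw [if_pos hv]; exact h3 hp, ?_, ?_⟩
    · rintro ⟨q, hq, hvq⟩
      exact absurd (hout q hvq) fun hqA => Set.disjoint_left.1 h.AB hqA (h.QB hq)
    · refine (Set.ncard_le_ncard ?_ (Set.toFinite _)).trans h4
      rintro w ⟨h5, h6, h7, h8⟩
      rw [if_pos (hout w h7), if_pos hv] at h8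
      exact ⟨h5, hout w h7, h7, h8⟩
  · have hvB : v ∈ B := by
      have h3 : v ∈ A ∪ B := by rw [hAB]; exact Set.mem_univ v
      exact h3.resolve_left hv
    have hout : ∀ w, G.Adj v w → w ∈ B := by
      intro w hw
      by_contra hwB
      exact hvQ (h.outB v hvB w hwB (fun h => h) hw).1
    have hA' : ∀ w ∈ B, w ∉ A := fun w hw hw' => Set.disjoint_left.1 h.AB hw' hw
    obtain ⟨h3, h4⟩ := hB v hvB hvQ
    refine ⟨?_, fun hp => by rw [if_neg hv]; exact h3 hp, ?_⟩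
    · rintro ⟨p, hp, hvp⟩
      exact absurd (h.PA hp) (hA' p (hout p hvp))
    · refine (Set.ncard_le_ncard ?_ (Set.toFinite _)).trans h4
      rintro w ⟨h5, h6, h7, h8⟩
      rw [if_neg (hA' w (hout w h7)), if_neg hv] at h8
      exact ⟨h6, hout w h7, h7, h8⟩

end Pool.Agent.DC76
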