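import Pool.Agent.DC76.Sep
import Pool.Agent.DC76.SepConn
import Pool.Agent.DC76.SepEmpty
import Pool.Agent.DC76.Step
import Pool.Agent.DC76.Step0

/-!
# The colouring theorem
-/

set_option autoImplicit false

open Finset

namespace Pool.Agent.DC76

variable {V : Type} [Fintype V]

private lemma col_ncard_lt {s t : Set V} (hst : s ⊆ t) {x : V} (hx : x ∈ t) (hx' : x ∉ s) :
    s.ncard < t.ncard :=
  Set.ncard_lt_ncard ⟨hst, fun h => hx' (h hx)⟩ (Set.toFinite _)

private lemma col_third (α β : Fin 3) : ∃ γ : Fin 3, γ ≠ α ∧ γ ≠ β := by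
  revert α β
  decide

/-- The colouring theorem.

Proof. Induction on `n` (all `P`, `Q`, `α`, `β`). `n = 0`: there is no vertex outside `P ∪ Q`,
every `c` works. Step: take a separation (`exists_sepn`). If `S ≠ ∅` let `γ` be the third colour.
Apply the induction hypothesis to `(P, S ∪ B, α, γ)` (connected by `conn_SB`; the rest is
`(P ∪ S ∪ B)ᶜ`, smaller since `S ⊆ (P ∪ Q)ᶜ` is nonempty) and to `(Q, Bᶜ, β, γ)` (connected by
`conn_Bc`; the rest is `B \ Q`, smaller for the same reason), and `Sepn.step` with `Sepn.deg`.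
`K1 ⊆ P ∨ K1 ⊆ Q` is inherited: `Q ⊆ B ⊆ S ∪ B`, `P ⊆ A ⊆ Bᶜ`. If `S = ∅` use `Sepn.empty`. If
`A ≠ P` pick `v ∈ A \ P` and apply the induction hypothesis to `(P ∪ B, {v}, α, β)` (the rest does
not contain `v`; `v ∉ P ∪ B`; `Q ⊆ B`); if `B ≠ Q` pick `v ∈ B \ Q` and apply it to
`(Q ∪ A, {v}, β, α)`. Then `Sepn.step0`. -/
theorem colour {G : SimpleGraph V} (hG : Conn G Set.univ) {K1 K2 : Set V} (hN : NoK G K1 K2) :
    ∀ (n : ℕ) (P Q : Set V) (α β : Fin 3), α ≠ β → P.Nonempty → Q.Nonempty → Disjoint P Q →
      Conn G P → Conn G Q → (K1 ⊆ P ∨ K1 ⊆ Q) → (K2 ⊆ P ∨ K2 ⊆ Q) → (P ∪ Q)ᶜ.ncard ≤ n →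
      ∃ c, Good G P Q α β c := by
  intro n
  induction n with
  | zero =>
    intro P Q α β _ _ _ _ _ _ _ _ hn
    refine ⟨fun _ => 0, fun v hvP hvQ => ?_⟩
    have h0 : (P ∪ Q)ᶜ = ∅ := (Set.ncard_eq_zero (Set.toFinite _)).1 (Nat.le_zero.1 hn)
    have hv : v ∈ (P ∪ Q)ᶜ := by
      rintro (h | h)
      · exact hvP h
      · exact hvQ h
    rw [h0] at hv
    exact absurd hv (Set.notMem_empty v)
  | succ n ih =>
    intro P Q α β hαβ hPn hQn hPQ hcP hcQ h1 h2 hn
    obtain ⟨S, A, B, h⟩ := exists_sepn hcP hcQ hPn hQn hPQ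
    have hPB : ∀ x ∈ P, x ∉ B := fun x hx hx' => Set.disjoint_left.1 h.AB (h.PA hx) hx'
    have hQA : ∀ x ∈ Q, x ∉ A := fun x hx hx' => Set.disjoint_left.1 h.AB hx' (h.QB hx)
    rcases Set.eq_empty_or_nonempty S with hS | ⟨s, hs⟩
    · subst hS
      obtain ⟨hAB, -, hPBc, hQAc⟩ := h.empty hG hcP hcQ hPn hQn
      refine h.step0 hAB hαβ ?_ ?_
      · by_cases hAP : A = P
        · exact Or.inl hAP
        · right
          obtain ⟨v, hvA, hvP⟩ : ∃ v ∈ A, v ∉ P := by
            by_contra hcon
            push Not at hcon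
            exact hAP (Set.Subset.antisymm hcon h.PA)
          have hvB : v ∉ B := fun hvB => Set.disjoint_left.1 h.AB hvA hvB
          have hvQ : v ∉ Q := fun hvQ => hvB (h.QB hvQ)
          have hv : v ∉ P ∪ B := by
            rintro (h' | h')
            · exact hvP h'
            · exact hvB h'
          obtain ⟨c1, hc1⟩ := ih (P ∪ B) {v} α β hαβ (hPn.mono Set.subset_union_left) ⟨v, rfl⟩
            (Set.disjoint_singleton_right.2 hv) hPBc
            (by rintro x rfl y rfl; exact Relation.ReflTransGen.refl)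
            (Or.inl (h1.elim (fun h' => h'.trans Set.subset_union_left)
              fun h' => (h'.trans h.QB).trans Set.subset_union_right))
            (Or.inl (h2.elim (fun h' => h'.trans Set.subset_union_left)
              fun h' => (h'.trans h.QB).trans Set.subset_union_right))
            (by
              have : (P ∪ B ∪ {v})ᶜ.ncard < (P ∪ Q)ᶜ.ncard := by
                refine col_ncard_lt (x := v) ?_ ?_ ?_
                · refine Set.compl_subset_compl.2 ?_
                  rintro x (hx | hx)
                  · exact Or.inl (Or.inl hx)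
                  · exact Or.inl (Or.inr (h.QB hx))
                · rintro (h' | h')
                  · exact hvP h'
                  · exact hvQ h'
                · intro h'
                  exact h' (Or.inr rfl)
              omega)
          exact ⟨v, ⟨hvA, hvP⟩, c1, hc1⟩
      · by_cases hBQ : B = Q
        · exact Or.inl hBQ
        · right
          obtain ⟨v, hvB, hvQ⟩ : ∃ v ∈ B, v ∉ Q := by
            by_contra hcon
            push Not at hcon
            exact hBQ (Set.Subset.antisymm hcon h.QB)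
          have hvA : v ∉ A := fun hvA => Set.disjoint_left.1 h.AB hvA hvB
          have hvP : v ∉ P := fun hvP => hvA (h.PA hvP)
          have hv : v ∉ Q ∪ A := by
            rintro (h' | h')
            · exact hvQ h'
            · exact hvA h'
          obtain ⟨c2, hc2⟩ := ih (Q ∪ A) {v} β α hαβ.symm (hQn.mono Set.subset_union_left) ⟨v, rfl⟩
            (Set.disjoint_singleton_right.2 hv) hQAc
            (by rintro x rfl y rfl; exact Relation.ReflTransGen.refl)
            (Or.inl (h1.elim (fun h' => (h'.trans h.PA).trans Set.subset_union_right)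
              fun h' => h'.trans Set.subset_union_left))
            (Or.inl (h2.elim (fun h' => (h'.trans h.PA).trans Set.subset_union_right)
              fun h' => h'.trans Set.subset_union_left))
            (by
              have : (Q ∪ A ∪ {v})ᶜ.ncard < (P ∪ Q)ᶜ.ncard := by
                refine col_ncard_lt (x := v) ?_ ?_ ?_
                · refine Set.compl_subset_compl.2 ?_
                  rintro x (hx | hx)
                  · exact Or.inl (Or.inr (h.PA hx))
                  · exact Or.inl (Or.inl hx)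
                · rintro (h' | h')
                  · exact hvP h'
                  · exact hvQ h'
                · intro h'
                  exact h' (Or.inr rfl)
              omega)
          exact ⟨v, ⟨hvB, hvQ⟩, c2, hc2⟩
    · obtain ⟨γ, hγα, hγβ⟩ := col_third α β
      have hsA : s ∉ A := fun h' => Set.disjoint_left.1 h.AS h' hs
      have hsB : s ∉ B := fun h' => Set.disjoint_left.1 h.BS h' hs
      have hsP : s ∉ P := fun h' => hsA (h.PA h')
      have hsQ : s ∉ Q := fun h' => hsB (h.QB h')
      have hsPQ : s ∈ (P ∪ Q)ᶜ := by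
        rintro (h' | h')
        · exact hsP h'
        · exact hsQ h'
      obtain ⟨c1, hc1⟩ := ih P (S ∪ B) α γ hγα.symm hPn ⟨s, Or.inl hs⟩
        (by
          rw [Set.disjoint_left]
          rintro x hx (hx' | hx')
          · exact Set.disjoint_left.1 h.AS (h.PA hx) hx'
          · exact hPB x hx hx') hcP h.conn_SB
        (h1.imp id fun h' => (h'.trans h.QB).trans Set.subset_union_right)
        (h2.imp id fun h' => (h'.trans h.QB).trans Set.subset_union_right)
        (by
          have : (P ∪ (S ∪ B))ᶜ.ncard < (P ∪ Q)ᶜ.ncard := by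
            refine col_ncard_lt (x := s) ?_ hsPQ ?_
            · refine Set.compl_subset_compl.2 ?_
              rintro x (hx | hx)
              · exact Or.inl hx
              · exact Or.inr (Or.inr (h.QB hx))
            · intro h'
              exact h' (Or.inr (Or.inl hs))
          omega)
      obtain ⟨c2, hc2⟩ := ih Q Bᶜ β γ hγβ.symm hQn ⟨s, hsB⟩
        (by
          rw [Set.disjoint_left]
          intro x hx hx'
          exact hx' (h.QB hx)) hcQ (h.conn_Bc hG hPn)
        (h1.symm.imp id fun h' x hx => hPB x (h' hx))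
        (h2.symm.imp id fun h' x hx => hPB x (h' hx))
        (by
          have : (Q ∪ Bᶜ)ᶜ.ncard < (P ∪ Q)ᶜ.ncard := by
            refine col_ncard_lt (x := s) ?_ hsPQ ?_
            · refine Set.compl_subset_compl.2 ?_
              rintro x (hx | hx)
              · exact Or.inr (hPB x hx)
              · exact Or.inl hx
            · intro h'
              exact h' (Or.inr hsB)
          omega)
      exact h.step (h.deg hN h1 h2) hγα hγβ hc1 hc2

/-- The same with one forbidden colour at both sets, if no edge joins them.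

Proof. `exists_sepn`; `S ≠ ∅` by `Sepn.empty` and `hno`. Let `γ ≠ α`. `colour` for
`(P, S ∪ B, α, γ)` and `(Q, Bᶜ, α, γ)`, and `Sepn.step` with `β = α`. -/
theorem colour_same {G : SimpleGraph V} (hG : Conn G Set.univ) {K1 K2 : Set V}
    (hN : NoK G K1 K2) {P Q : Set V} (α : Fin 3) (hP : P.Nonempty) (hQ : Q.Nonempty)
    (hPQ : Disjoint P Q) (hcP : Conn G P) (hcQ : Conn G Q) (h1 : K1 ⊆ P ∨ K1 ⊆ Q)
    (h2 : K2 ⊆ P ∨ K2 ⊆ Q) (hno : ∀ p ∈ P, ∀ q ∈ Q, ¬ G.Adj p q) : ∃ c, Good G P Q α α c := by
  obtain ⟨S, A, B, h⟩ := exists_sepn hcP hcQ hP hQ hPQ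
  have hPB : ∀ x ∈ P, x ∉ B := fun x hx hx' => Set.disjoint_left.1 h.AB (h.PA hx) hx'
  rcases Set.eq_empty_or_nonempty S with hS | ⟨s, hs⟩
  · subst hS
    obtain ⟨-, ⟨p, hp, q, hq, hpq⟩, -⟩ := h.empty hG hcP hcQ hP hQ
    exact absurd hpq (hno p hp q hq)
  · obtain ⟨γ, hγα, -⟩ := col_third α α
    have hsB : s ∉ B := fun h' => Set.disjoint_left.1 h.BS h' hs
    obtain ⟨c1, hc1⟩ := colour hG hN _ P (S ∪ B) α γ hγα.symm hP ⟨s, Or.inl hs⟩
      (by
        rw [Set.disjoint_left]
        rintro x hx (hx' | hx')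
        · exact Set.disjoint_left.1 h.AS (h.PA hx) hx'
        · exact hPB x hx hx') hcP h.conn_SB
      (h1.imp id fun h' => (h'.trans h.QB).trans Set.subset_union_right)
      (h2.imp id fun h' => (h'.trans h.QB).trans Set.subset_union_right) le_rfl
    obtain ⟨c2, hc2⟩ := colour hG hN _ Q Bᶜ α γ hγα.symm hQ ⟨s, hsB⟩
      (by
        rw [Set.disjoint_left]
        intro x hx hx'
        exact hx' (h.QB hx)) hcQ (h.conn_Bc hG hP)
      (h1.symm.imp id fun h' x hx => hPB x (h' hx))
      (h2.symm.imp id fun h' x hx => hPB x (h' hx)) le_rfl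
    exact h.step (h.deg hN h1 h2) hγα hγα hc1 hc2

end Pool.Agent.DC76
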