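import Pool.Agent.DC76.Min2

/-!
# Cycles with minimal support, part 4: the degrees are two
-/

set_option autoImplicit false

open Finset

namespace Pool.Agent.DC76

variable {V : Type} [Fintype V] [DecidableEq V]

open Classical in
/-- the restriction of `z` to `C` -/
private noncomputable def res_Min4 (z : V → V → ZMod 2) (C : Set V) : V → V → ZMod 2 :=
  fun v w => if v ∈ C ∧ w ∈ C then z v w else 0

private theorem two_Min4 (a b : ZMod 2) : a + b + (a + b) = 0 := by
  revert a b
  decide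

omit [Fintype V] in
/-- the edges of `z + ed v w1 + ed v w2` are edges of `z` -/
private theorem sub_Min4 {z : V → V → ZMod 2} (hs : ∀ a b, z a b = z b a) {v w1 w2 : V}
    (h1 : z v w1 ≠ 0) (h2 : z v w2 ≠ 0) {a b : V} (h : z a b + ed v w1 a b + ed v w2 a b ≠ 0) :
    z a b ≠ 0 := by
  intro h0
  by_cases e1 : ed v w1 a b = 0
  · by_cases e2 : ed v w2 a b = 0
    · rw [h0, e1, e2] at h
      exact h (by decide)
    · rcases ed_eq e2 with ⟨rfl, rfl⟩ | ⟨rfl, rfl⟩
      · exact h2 h0
      · exact h2 ((hs _ _).trans h0)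
  · rcases ed_eq e1 with ⟨rfl, rfl⟩ | ⟨rfl, rfl⟩
    · exact h1 h0
    · exact h1 ((hs _ _).trans h0)

omit [Fintype V] in
private theorem ed_Min4 {v w w' : V} (h1 : v ≠ w') (h : w ≠ w') : ed v w v w' = 0 := by
  by_contra h2
  rcases ed_eq h2 with ⟨_, h3⟩ | ⟨_, h3⟩
  · exact h h3.symm
  · exact h1 h3.symm

omit [Fintype V] in
private theorem val_Min4 {z : V → V → ZMod 2} {v w1 w2 : V} (h1 : z v w1 ≠ 0) (hv : v ≠ w1)
    (h : w2 ≠ w1) : z v w1 + ed v w1 v w1 + ed v w2 v w1 = 0 := by
  rw [ed_left, ed_Min4 hv h, add_zero]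
  revert h1
  generalize z v w1 = a
  revert a
  decide

/-- there is no path from `v` to `w1` -/
private theorem path_Min4 {G : SimpleGraph V} {L : Submodule (ZMod 2) (V → V → ZMod 2)}
    {X : Set V} {z : V → V → ZMod 2} (hz : IsMin G L X z) {v w1 w2 : V} (h1 : z v w1 ≠ 0)
    (h2 : z v w2 ≠ 0) (h12 : w1 ≠ w2)
    (h : Relation.ReflTransGen
      (fun a b => z a b + ed v w1 a b + ed v w2 a b ≠ 0) v w1) : False := by
  obtain ⟨hs, hsup, _⟩ := hz.1
  have hv1 : v ≠ w1 := (hsup v w1 h1).1.ne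
  have hv2 : v ≠ w2 := (hsup v w2 h2).1.ne
  obtain ⟨J, J1, J2, J3⟩ := join_path (H := fun a b => z a b + ed v w1 a b + ed v w2 a b ≠ 0)
    (fun a b hab => by rwa [hs b a, ed_symm v w1 b a, ed_symm v w2 b a])
    (fun a ha => (hsup a a (sub_Min4 hs h1 h2 ha)).1.ne rfl) h
  have Jw1 : J v w1 = 0 := by
    by_contra h3
    exact J2 v w1 h3 (val_Min4 h1 hv1 h12.symm)
  have Jw2 : J v w2 = 0 := by
    by_contra h3
    refine J2 v w2 h3 ?_
    rw [add_right_comm]
    exact val_Min4 h2 hv2 h12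
  have hy : (fun a b => J a b + ed v w1 a b) ∈ Z G Xᶜ := by
    refine ⟨fun a b => ?_, fun a b hab => ?_, fun a => ?_⟩
    · change J a b + ed v w1 a b = J b a + ed v w1 b a
      rw [J1, ed_symm]
    · by_cases h3 : J a b = 0
      · have h4 : ed v w1 a b ≠ 0 := by
          intro h4
          apply hab
          change J a b + ed v w1 a b = 0
          rw [h3, h4, add_zero]
        rcases ed_eq h4 with ⟨rfl, rfl⟩ | ⟨rfl, rfl⟩
        · exact hsup _ _ h1
        · exact hsup _ _ (by rwa [hs])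
      · exact hsup _ _ (sub_Min4 hs h1 h2 (J2 a b h3))
    · change ∑ w, (J a w + ed v w1 a w) = 0
      rw [sum_add_distrib, J3, ed_bd hv1]
      exact two_Min4 _ _
  have hsy : ∀ a b, (fun a b => J a b + ed v w1 a b) a b ≠ 0 → z a b ≠ 0 := by
    intro a b hab
    by_cases h3 : J a b = 0
    · have h4 : ed v w1 a b ≠ 0 := by
        intro h4
        apply hab
        change J a b + ed v w1 a b = 0
        rw [h3, h4, add_zero]
      rcases ed_eq h4 with ⟨rfl, rfl⟩ | ⟨rfl, rfl⟩
      · exact h1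
      · rwa [hs]
    · exact sub_Min4 hs h1 h2 (J2 a b h3)
  rcases hz.sub hy hsy with h3 | h3
  · have h4 := congrFun (congrFun h3 v) w1
    change J v w1 + ed v w1 v w1 = 0 at h4
    rw [Jw1, ed_left] at h4
    exact absurd h4 (by decide)
  · have h4 := congrFun (congrFun h3 v) w2
    change J v w2 + ed v w1 v w2 = z v w2 at h4
    rw [Jw2, ed_Min4 hv2 h12, add_zero] at h4
    exact h2 h4.symm

/-- Every vertex has degree at most two in a minimal cycle.

Proof. Suppose `w1, w2, w3` are different with `z v wi ≠ 0`. Let `z' = z + ed v w1 + ed v w2`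
(symmetric, its edges are edges of `z`, `z' v w1 = z' v w2 = 0`, `z' v w3 ≠ 0`; boundary
`[u = w1] + [u = w2]` by `ed_bd`), and `C` the set of the vertices reachable from `w1` by edges of
`z'`. Case `v ∈ C`: `join_path` for the edges of `z'` gives `J` with boundary `{v, w1}`; then
`y = J + ed v w1 ∈ Z G Xᶜ`, its edges are edges of `z`, `y v w1 = 1`, `y v w2 = 0`, so `y ≠ 0` and
`y ≠ z`, contradicting `IsMin.sub`. Case `v ∉ C`: `w2 ∈ C`, because otherwise the boundary of the
restriction `z''` of `z'` to `C` (`bd_restrict`) is `[u = w1]` with sum `1` over all `u`, but the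
sum over all ordered pairs of a symmetric function with zero diagonal is `0` in `ZMod 2`. So `z''`
has boundary `[u = w1] + [u = w2]` and `y = z'' + ed v w1 + ed v w2 ∈ Z G Xᶜ`; its edges are edges
of `z`, `y v w1 = 1`, and `y v w3 = 0` as `v ∉ C`; so `y ≠ 0` and `y ≠ z`, contradiction. -/
theorem IsMin.deg {G : SimpleGraph V} {L : Submodule (ZMod 2) (V → V → ZMod 2)} {X : Set V}
    {z : V → V → ZMod 2} (hz : IsMin G L X z) (v : V) : {w | z v w ≠ 0}.ncard ≤ 2 := by
  by_contra hcon
  push Not at hcon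
  rw [Set.two_lt_ncard_iff] at hcon
  obtain ⟨w1, w2, w3, h1, h2, h3, h12, h13, h23⟩ := hcon
  change z v w1 ≠ 0 at h1
  change z v w2 ≠ 0 at h2
  change z v w3 ≠ 0 at h3
  obtain ⟨hs, hsup, hbd⟩ := hz.1
  have hv1 : v ≠ w1 := (hsup v w1 h1).1.ne
  have hv2 : v ≠ w2 := (hsup v w2 h2).1.ne
  have hv3 : v ≠ w3 := (hsup v w3 h3).1.ne
  obtain ⟨z', hz'⟩ : ∃ z' : V → V → ZMod 2,
      ∀ a b, z' a b = z a b + ed v w1 a b + ed v w2 a b := ⟨_, fun _ _ => rfl⟩
  have hn1 : ¬ Relation.ReflTransGen (fun a b => z' a b ≠ 0) v w1 := by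
    intro h
    simp only [hz'] at h
    exact path_Min4 hz h1 h2 h12 h
  have hn2 : ¬ Relation.ReflTransGen (fun a b => z' a b ≠ 0) v w2 := by
    intro h
    have h4 : (fun a b => z' a b ≠ 0) = fun a b => z a b + ed v w2 a b + ed v w1 a b ≠ 0 := by
      funext a b
      rw [hz', add_right_comm]
    rw [h4] at h
    exact path_Min4 hz h2 h1 h12.symm h
  obtain ⟨C, hC⟩ : ∃ C : Set V, ∀ u, u ∈ C ↔ Relation.ReflTransGen (fun a b => z' a b ≠ 0) v u :=
    ⟨{u | Relation.ReflTransGen (fun a b => z' a b ≠ 0) v u}, fun _ => Iff.rfl⟩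
  have hcl : ∀ u ∈ C, ∀ x, z' u x ≠ 0 → x ∈ C := fun u hu x hx =>
    (hC x).2 (((hC u).1 hu).tail hx)
  have hr := bd_restrict hcl
  have hvC : v ∈ C := (hC v).2 Relation.ReflTransGen.refl
  have hz3 : z' v w3 = z v w3 := by
    rw [hz', ed_Min4 hv3 h13, ed_Min4 hv3 h23, add_zero, add_zero]
  have hw3 : w3 ∈ C := hcl v hvC w3 (by rwa [hz3])
  have hy : res_Min4 z' C ∈ Z G Xᶜ := by
    refine ⟨fun a b => ?_, fun a b hab => ?_, fun a => ?_⟩
    · unfold res_Min4
      by_cases h4 : a ∈ C ∧ b ∈ C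
      · rw [if_pos h4, if_pos h4.symm, hz', hz', hs a b, ed_symm v w1 a b, ed_symm v w2 a b]
      · rw [if_neg h4, if_neg fun h5 => h4 h5.symm]
    · unfold res_Min4 at hab
      split_ifs at hab with h4
      · rw [hz'] at hab
        exact hsup _ _ (sub_Min4 hs h1 h2 hab)
      · exact absurd rfl hab
    · have h4 := hr a
      change ∑ w, res_Min4 z' C a w = _ at h4
      rw [h4]
      split_ifs with h5
      · simp only [hz', sum_add_distrib]
        rw [hbd, ed_bd hv1, ed_bd hv2]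
        have h6 : a ≠ w1 := by
          rintro rfl
          exact hn1 ((hC _).1 h5)
        have h7 : a ≠ w2 := by
          rintro rfl
          exact hn2 ((hC _).1 h5)
        rw [if_neg h6, if_neg h7]
        simp only [add_zero, zero_add]
        split_ifs <;> decide
      · rfl
  have hsy : ∀ a b, res_Min4 z' C a b ≠ 0 → z a b ≠ 0 := by
    intro a b hab
    unfold res_Min4 at hab
    split_ifs at hab with h4
    · rw [hz'] at hab
      exact sub_Min4 hs h1 h2 hab
    · exact absurd rfl hab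
  rcases hz.sub hy hsy with h4 | h4
  · have h5 := congrFun (congrFun h4 v) w3
    unfold res_Min4 at h5
    rw [if_pos ⟨hvC, hw3⟩, hz3] at h5
    exact h3 h5
  · have h5 := congrFun (congrFun h4 v) w1
    unfold res_Min4 at h5
    rw [if_neg fun h6 => hn1 ((hC _).1 h6.2)] at h5
    exact h1 h5.symm

end Pool.Agent.DC76
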