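import Pool.Agent.DC76.Min3
import Pool.Agent.DC76.Min4

/-!
# Cycles with minimal support: conclusion
-/

set_option autoImplicit false

open Finset

namespace Pool.Agent.DC76

variable {V : Type} [Fintype V] [DecidableEq V]

/-- Proof. `z` from `exists_isMin`, `K = {v | ∃ w, z v w ≠ 0}`. Nonempty: `z ∉ L` is not `0`.
Disjoint from `X`: support in `Xᶜ`. Connected: `IsMin.conn`; the edges of `z` are edges of `G` and
stay in `K`. Degrees: a neighbour `w ∈ K` of `v ∈ K` satisfies `z v w ≠ 0` by `IsMin.chord`, and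
`IsMin.deg`. Finally `z ∈ Z G K`. -/
theorem min_cycle (G : SimpleGraph V) (L : Submodule (ZMod 2) (V → V → ZMod 2)) (X : Set V)
    (h : ∃ z ∈ Z G Xᶜ, z ∉ L) :
    ∃ K : Set V, K.Nonempty ∧ Disjoint K X ∧ Conn G K ∧
      (∀ v ∈ K, {w | w ∈ K ∧ G.Adj v w}.ncard ≤ 2) ∧ ∃ z ∈ Z G K, z ∉ L := by
  obtain ⟨z, hz⟩ := exists_isMin h
  obtain ⟨⟨hsym, hsupp, hbd⟩, hzL, -⟩ := id hz
  have hright : ∀ u v, z u v ≠ 0 → ∃ w, z v w ≠ 0 := fun u v huv =>
    ⟨u, by rw [← hsym]; exact huv⟩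
  refine ⟨{v | ∃ w, z v w ≠ 0}, ?_, ?_, ?_, ?_, z, ⟨hsym, ?_, hbd⟩, hzL⟩
  · by_contra hne
    rw [Set.not_nonempty_iff_eq_empty] at hne
    apply hzL
    have h0 : z = 0 := by
      funext u v
      by_contra huv
      have : u ∈ ({v | ∃ w, z v w ≠ 0} : Set V) := ⟨v, huv⟩
      rw [hne] at this
      exact this
    rw [h0]; exact L.zero_mem
  · rw [Set.disjoint_left]
    rintro v ⟨w, hw⟩ hvX
    exact (hsupp v w hw).2.1 hvX
  · intro x hx y hy
    have hc := hz.conn hx hy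
    exact Relation.ReflTransGen.mono
      (fun u v huv => ⟨hright u v huv, (hsupp u v huv).1⟩) x y hc
  · intro v hv
    refine le_trans (Set.ncard_le_ncard ?_ (Set.toFinite _)) (hz.deg v)
    rintro w ⟨hw, hvw⟩
    exact hz.chord hv hw hvw
  · intro u v huv
    exact ⟨(hsupp u v huv).1, ⟨v, huv⟩, hright u v huv⟩

end Pool.Agent.DC76
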