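import Pool.Agent.DC76.Model

/-!
# Every matrix comes from a cycle
-/

set_option autoImplicit false

open Finset

namespace Pool.Agent.DC76

variable {V : Type} [Fintype V] [DecidableEq V]

private theorem three_LiftK (i : Fin 3) : i = 0 ∨ i = 1 ∨ i = 2 := by
  revert i
  decide

omit [Fintype V] [DecidableEq V] in
private theorem row_LiftK {G : SimpleGraph V} {A B : Set V} {x : V} {a : Fin 3 → V}
    {c : Fin 3 → Fin 3 → V} (hM : Model G A B x a c) {i i' j j' : Fin 3}
    (h : c i j = c i' j') : i = i' := by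
  have hd : ∀ v, v ∈ A → v ∈ B → False := fun v h1 h2 => Set.disjoint_left.1 hM.disj h1 h2
  rcases three_LiftK i with rfl | rfl | rfl <;> rcases three_LiftK i' with rfl | rfl | rfl
  · rfl
  · exact (hd _ (hM.cA j) (h ▸ hM.cB j')).elim
  · rw [hM.cx j'] at h
    exact absurd (h ▸ hM.cA j) hM.xA
  · exact (hd _ (hM.cA j') (h ▸ hM.cB j)).elim
  · rfl
  · rw [hM.cx j'] at h
    exact absurd (h ▸ hM.cB j) hM.xB
  · rw [hM.cx j] at h
    exact absurd (h.symm ▸ hM.cA j') hM.xA
  · rw [hM.cx j] at h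
    exact absurd (h.symm ▸ hM.cB j') hM.xB
  · rfl

omit [Fintype V] [DecidableEq V] in
private theorem ne_LiftK {G : SimpleGraph V} {A B : Set V} {x : V} {a : Fin 3 → V}
    {c : Fin 3 → Fin 3 → V} (hM : Model G A B x a c) {i j j' : Fin 3} : a j ≠ c i j' := by
  intro h
  rcases three_LiftK i with rfl | rfl | rfl
  · exact hM.aA j (h ▸ hM.cA j')
  · exact hM.aB j (h ▸ hM.cB j')
  · have h1 := hM.adj 2 j
    rw [hM.cx j] at h1
    rw [hM.cx j'] at h
    exact h1.ne h.symm

/-- Every matrix with zero row and column sums is the matrix of a cycle which vanishes on `Off`.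

Proof. `z = ∑ i, ∑ j, M i j • ed (c i j) (a j) + JA + JB`, where `JA` is the set of `join` for the
connected set `A` and `t v = ∑ j, if v = c 0 j then M 0 j else 0` (the sum over `v` is the row sum
`0`; `t v ≠ 0` implies `v ∈ A`), and `JB` the same for `B` and the row 1. Boundary at `v` (`ed_bd`):
the edges contribute `∑ i, ∑ j, M i j * ([v = c i j] + [v = a j])`; the part with `[v = a j]` is
`∑ j, [v = a j] * (column sum) = 0`; the part `i = 2` is `[v = x] * (row sum) = 0`; the parts
`i = 0`, `i = 1` are cancelled by `JA`, `JB`. Support: edges of `G`. On a pair `e ∈ Off` all the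
summands vanish (`ed_eq`; `JA` is inside `A`, `JB` inside `B`). At the pair `(c i j, a j)`: `JA`,
`JB` vanish since `a j ∉ A, B`, and `ed (c i' j') (a j')` is nonzero there only for
`(i', j') = (i, j)`: `a j ≠ c i' j'` (`a j ∉ A, B`, and `a j ≠ x` as they are adjacent), so
`a j = a j'`, `j = j'`, and `c i j = c i' j` only for `i = i'` (`A`, `B` disjoint, `x ∉ A, B`). -/
theorem Model.lift {G : SimpleGraph V} {A B : Set V} {x : V} {a : Fin 3 → V}
    {c : Fin 3 → Fin 3 → V} (hM : Model G A B x a c) (hA : Conn G A) (hB : Conn G B)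
    {M : Fin 3 → Fin 3 → ZMod 2} (h : Mz M) :
    ∃ z ∈ Z G Set.univ, (∀ e ∈ Off A B a c, z e.1 e.2 = 0) ∧
      ∀ i j, z (c i j) (a j) = M i j := by
  obtain ⟨hrow, hcol⟩ := h
  have h2 : (2 : ZMod 2) = 0 := by decide
  have hr : ∀ i, M i 0 + M i 1 + M i 2 = 0 := fun i => by
    rw [← Fin.sum_univ_three (fun j => M i j)]
    exact hrow i
  have hc : ∀ j, M 0 j + M 1 j + M 2 j = 0 := fun j => by
    rw [← Fin.sum_univ_three (fun i => M i j)]
    exact hcol j
  have hjoin : ∀ (i : Fin 3) (S : Set V), Conn G S → (∀ j, c i j ∈ S) →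
      ∃ J : V → V → ZMod 2, (∀ u v, J u v = J v u) ∧
      (∀ u v, J u v ≠ 0 → G.Adj u v ∧ u ∈ S ∧ v ∈ S) ∧
      ∀ v, ∑ w, J v w = ∑ j, M i j * (if v = c i j then 1 else 0) := by
    intro i S hS hcS
    refine join hS (fun v => ∑ j, M i j * (if v = c i j then 1 else 0)) ?_ ?_
    · intro v hv
      obtain ⟨j, -, hj⟩ := exists_ne_zero_of_sum_ne_zero hv
      by_cases hvj : v = c i j
      · rw [hvj]
        exact hcS j
      · rw [if_neg hvj, mul_zero] at hj
        exact absurd rfl hj
    · rw [sum_comm]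
      have h3 : ∀ j ∈ (univ : Finset (Fin 3)),
          ∑ v, M i j * (if v = c i j then (1 : ZMod 2) else 0) = M i j := by
        intro j _
        rw [← mul_sum, sum_ite_eq' univ (c i j), if_pos (mem_univ _), mul_one]
      rw [sum_congr rfl h3]
      exact hrow i
  obtain ⟨JA, a1, a2, a3⟩ := hjoin 0 A hA hM.cA
  obtain ⟨JB, b1, b2, b3⟩ := hjoin 1 B hB hM.cB
  have hJA : ∀ u v, (u ∉ A ∨ v ∉ A) → JA u v = 0 := by
    intro u v huv
    by_contra hne
    obtain ⟨-, h3, h4⟩ := a2 u v hne
    rcases huv with h5 | h5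
    · exact h5 h3
    · exact h5 h4
  have hJB : ∀ u v, (u ∉ B ∨ v ∉ B) → JB u v = 0 := by
    intro u v huv
    by_contra hne
    obtain ⟨-, h3, h4⟩ := b2 u v hne
    rcases huv with h5 | h5
    · exact h5 h3
    · exact h5 h4
  refine ⟨fun u v => (∑ i, ∑ j, M i j * ed (c i j) (a j) u v) + JA u v + JB u v,
    ⟨?_, ?_, ?_⟩, ?_, ?_⟩
  · intro u v
    have h3 : ∀ i j, M i j * ed (c i j) (a j) u v = M i j * ed (c i j) (a j) v u := fun i j => by
      rw [ed_symm]
    simp only [h3, a1 u v, b1 u v]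
  · intro u v huv
    refine ⟨?_, Set.mem_univ _, Set.mem_univ _⟩
    by_cases h3 : JA u v = 0
    · by_cases h4 : JB u v = 0
      · simp only [h3, h4, add_zero] at huv
        obtain ⟨i, -, hi⟩ := exists_ne_zero_of_sum_ne_zero huv
        obtain ⟨j, -, hj⟩ := exists_ne_zero_of_sum_ne_zero hi
        rcases ed_eq (right_ne_zero_of_mul hj) with ⟨rfl, rfl⟩ | ⟨rfl, rfl⟩
        · exact hM.adj i j
        · exact (hM.adj i j).symm
      · exact (b2 u v h4).1
    · exact (a2 u v h3).1
  · intro v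
    have h3 : ∀ i j, ∑ w, M i j * ed (c i j) (a j) v w =
        M i j * ((if v = c i j then 1 else 0) + (if v = a j then 1 else 0)) := by
      intro i j
      rw [← mul_sum, ed_bd (hM.adj i j).ne]
    have h4 : ∑ w, ∑ i, ∑ j, M i j * ed (c i j) (a j) v w = ∑ i, ∑ j,
        M i j * ((if v = c i j then 1 else 0) + (if v = a j then 1 else 0)) := by
      rw [sum_comm]
      refine sum_congr rfl fun i _ => ?_
      rw [sum_comm]
      exact sum_congr rfl fun j _ => h3 i j
    rw [sum_add_distrib, sum_add_distrib, h4, a3, b3]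
    simp only [Fin.sum_univ_three]
    rw [hM.cx 0, hM.cx 1, hM.cx 2]
    generalize (if v = c 0 0 then (1 : ZMod 2) else 0) = p00
    generalize (if v = c 0 1 then (1 : ZMod 2) else 0) = p01
    generalize (if v = c 0 2 then (1 : ZMod 2) else 0) = p02
    generalize (if v = c 1 0 then (1 : ZMod 2) else 0) = p10
    generalize (if v = c 1 1 then (1 : ZMod 2) else 0) = p11
    generalize (if v = c 1 2 then (1 : ZMod 2) else 0) = p12
    generalize (if v = x then (1 : ZMod 2) else 0) = s
    generalize (if v = a 0 then (1 : ZMod 2) else 0) = q0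
    generalize (if v = a 1 then (1 : ZMod 2) else 0) = q1
    generalize (if v = a 2 then (1 : ZMod 2) else 0) = q2
    linear_combination s * hr 2 + q0 * hc 0 + q1 * hc 1 + q2 * hc 2 +
      (M 0 0 * p00 + M 0 1 * p01 + M 0 2 * p02 + M 1 0 * p10 + M 1 1 * p11 + M 1 2 * p12) * h2
  · rintro ⟨u, v⟩ ⟨h3, h4, h5⟩
    have h6 : ∑ i, ∑ j, M i j * ed (c i j) (a j) u v = 0 := by
      refine sum_eq_zero fun i _ => sum_eq_zero fun j _ => ?_
      have h7 : ed (c i j) (a j) u v = 0 := by
        by_contra hne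
        rcases ed_eq hne with ⟨rfl, rfl⟩ | ⟨rfl, rfl⟩
        · exact (h5 i j).1 rfl
        · exact (h5 i j).2 rfl
      rw [h7, mul_zero]
    have h7 : JA u v = 0 := by
      by_contra hne
      exact h3 (a2 u v hne).2
    have h8 : JB u v = 0 := by
      by_contra hne
      exact h4 (b2 u v hne).2
    change (∑ i, ∑ j, M i j * ed (c i j) (a j) u v) + JA u v + JB u v = 0
    rw [h6, h7, h8, add_zero, add_zero]
  · intro i j
    change (∑ i', ∑ j', M i' j' * ed (c i' j') (a j') (c i j) (a j)) + JA (c i j) (a j) +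
      JB (c i j) (a j) = M i j
    rw [hJA _ _ (Or.inr (hM.aA j)), hJB _ _ (Or.inr (hM.aB j)), add_zero, add_zero]
    have h3 : ∀ i' j', (i', j') ≠ (i, j) → ed (c i' j') (a j') (c i j) (a j) = 0 := by
      intro i' j' hne
      by_contra h4
      rcases ed_eq h4 with ⟨h5, h6⟩ | ⟨h5, -⟩
      · exact hne (Prod.ext (row_LiftK hM h5).symm (hM.inj h6).symm)
      · exact ne_LiftK hM h5.symm
    rw [sum_eq_single i, sum_eq_single j, ed_left, mul_one]
    · intro j' _ hj
      rw [h3 i j' (fun h => hj (congrArg Prod.snd h)), mul_zero]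
    · intro h
      exact absurd (mem_univ _) h
    · intro i' _ hi
      refine sum_eq_zero fun j' _ => ?_
      rw [h3 i' j' (fun h => hi (congrArg Prod.fst h)), mul_zero]
    · intro h
      exact absurd (mem_univ _) h

end Pool.Agent.DC76
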