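import Pool.Agent.DC76.Model

/-!
# The matrix of a cycle
-/

set_option autoImplicit false

open Finset

namespace Pool.Agent.DC76

variable {V : Type} [Fintype V] [DecidableEq V]

omit [Fintype V] in
private theorem inner_RowCol {y : V → V → ZMod 2} (hs : ∀ u v, y u v = y v u)
    (hd : ∀ v, y v v = 0) (S : Finset V) : ∑ v ∈ S, ∑ w ∈ S, y v w = 0 := by
  induction S using Finset.induction_on with
  | empty => simp
  | insert b S hb ih =>
    rw [sum_insert hb, sum_insert hb, hd, zero_add]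
    have h1 : ∀ v ∈ S, ∑ w ∈ insert b S, y v w = y b v + ∑ w ∈ S, y v w := fun v _ => by
      rw [sum_insert hb, hs v b]
    rw [sum_congr rfl h1, sum_add_distrib, ih, add_zero]
    exact CharTwo.add_self_eq_zero _

private theorem cut_RowCol {y : V → V → ZMod 2} (hs : ∀ u v, y u v = y v u)
    (hd : ∀ v, y v v = 0) (hy : ∀ v, ∑ w, y v w = 0) (S : Finset V) {p q : Fin 3 → V}
    (hq : Function.Injective q) (hp : ∀ i, p i ∈ S) (hqS : ∀ i, q i ∉ S)
    (h : ∀ v ∈ S, ∀ w ∉ S, y v w ≠ 0 → ∃ i, v = p i ∧ w = q i) :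
    ∑ i, y (p i) (q i) = 0 := by
  have h1 : ∑ v ∈ S, ∑ w, y v w = 0 := sum_eq_zero fun v _ => hy v
  have h2 : ∀ v ∈ S, ∑ w, y v w = ∑ w ∈ S, y v w + ∑ w ∈ Sᶜ, y v w := fun v _ =>
    (sum_add_sum_compl S _).symm
  rw [sum_congr rfl h2, sum_add_distrib, inner_RowCol hs hd, zero_add, ← sum_product'] at h1
  rw [← h1]
  refine sum_of_injOn (fun i => (p i, q i)) ?_ ?_ ?_ fun _ _ => rfl
  · intro i _ j _ hij
    exact hq (congrArg Prod.snd hij)
  · intro i _
    rw [mem_coe, mem_product]
    exact ⟨hp i, mem_compl.2 (hqS i)⟩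
  · rintro ⟨v, w⟩ hvw hn
    rw [mem_product, mem_compl] at hvw
    by_contra hc
    obtain ⟨i, hi1, hi2⟩ := h v hvw.1 w hvw.2 hc
    exact hn ⟨i, mem_coe.2 (mem_univ i), by rw [hi1, hi2]⟩

/-- The matrix of a cycle which vanishes on `Off` has zero row and column sums.

Proof. The three vertices `c 0 j ∈ A`, `c 1 j ∈ B`, `c 2 j = x` are different. Column `j`: the pairs
`(a j, w)` with `w ∉ {c 0 j, c 1 j, c 2 j}` are in `Off` (`a j ∉ A, B`; `a` is injective;
`a j ≠ x` as `x`, `a j` are adjacent, and `a j ≠ c i j'` for the same reason or because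
`a j ∉ A ∪ B`), so `0 = ∑ w, y (a j) w = ∑ i, y (a j) (c i j) = ∑ i, y (c i j) (a j)`. Row 2:
the pairs `(x, w)` with `w ∉ {a 0, a 1, a 2}` are in `Off`, so `0 = ∑ w, y x w = ∑ j, y x (a j)`.
Row 0: `0 = ∑ v ∈ A, ∑ w, y v w`; the sum over `v, w ∈ A` is `0` by symmetry (`y v v = 0`, as `G`
has no loops, and `y v w + y w v = 0`: `Finset.sum_involution` for the swap, or
`Finset.sum_comm`-type arguments), and the pairs `(v, w)` with `v ∈ A`, `w ∉ A` are in `Off`, except
the three different pairs `(c 0 j, a j)`. Row 1 is the same with `B`. -/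
theorem Model.mz {G : SimpleGraph V} {A B : Set V} {x : V} {a : Fin 3 → V}
    {c : Fin 3 → Fin 3 → V} (hM : Model G A B x a c) {y : V → V → ZMod 2}
    (hy : y ∈ Z G Set.univ) (h0 : ∀ e ∈ Off A B a c, y e.1 e.2 = 0) :
    Mz (fun i j => y (c i j) (a j)) := by
  classical
  obtain ⟨hs, hadj, hsum⟩ := hy
  have hd : ∀ v, y v v = 0 := fun v => by
    by_contra hc
    exact G.loopless.irrefl v (hadj v v hc).1
  have hcut := fun (S : Finset V) (p q : Fin 3 → V) =>
    cut_RowCol (p := p) (q := q) hs hd hsum S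
  have hxa : ∀ j, x ≠ a j := fun j h => by
    have h1 := hM.adj 2 j
    rw [hM.cx, h] at h1
    exact G.loopless.irrefl _ h1
  have hca : ∀ i j j', a j' ≠ c i j := by
    intro i j j' h
    fin_cases i
    · exact hM.aA j' (h ▸ hM.cA j)
    · exact hM.aB j' (h ▸ hM.cB j)
    · exact hxa j' (by rw [h]; exact (hM.cx j).symm)
  have hAB : ∀ v, v ∈ A → v ∉ B := fun v h1 h2 => Set.disjoint_left.1 hM.disj h1 h2
  have hci : ∀ j, Function.Injective fun i => c i j := by
    intro j i i' hii
    have h1 : c i j = c i' j := hii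
    have hA := hM.cA j
    have hB := hM.cB j
    have hx := hM.cx j
    fin_cases i <;> fin_cases i'
    · rfl
    · exact absurd hB (hAB _ (h1 ▸ hA))
    · exact absurd (show x ∈ A by rw [← hx]; exact h1 ▸ hA) hM.xA
    · exact absurd (show c 1 j ∈ B from hB) (hAB _ (show c 1 j ∈ A from h1.symm ▸ hA))
    · rfl
    · exact absurd (show x ∈ B by rw [← hx]; exact h1 ▸ hB) hM.xB
    · exact absurd (show x ∈ A by rw [← hx]; exact h1.symm ▸ hA) hM.xA
    · exact absurd (show x ∈ B by rw [← hx]; exact h1.symm ▸ hB) hM.xB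
    · rfl
  have hoff : ∀ v w, y v w ≠ 0 → (v ∈ A ∧ w ∈ A) ∨ (v ∈ B ∧ w ∈ B) ∨
      ∃ i j, (v = c i j ∧ w = a j) ∨ (v = a j ∧ w = c i j) := by
    intro v w hvw
    by_contra hc
    push Not at hc
    obtain ⟨h1, h2, h3⟩ := hc
    refine hvw (h0 (v, w) ⟨fun h => h1 h.1 h.2, fun h => h2 h.1 h.2, fun i j => ⟨?_, ?_⟩⟩)
    · intro h
      exact (h3 i j).1 (congrArg Prod.fst h) (congrArg Prod.snd h)
    · intro h
      exact (h3 i j).2 (congrArg Prod.fst h) (congrArg Prod.snd h)
  constructor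
  · intro i
    fin_cases i
    · refine hcut (univ.filter (· ∈ A)) (c 0) a hM.inj (fun j => ?_) (fun j => ?_)
        fun v hv w hw hvw => ?_
      · exact mem_filter.2 ⟨mem_univ _, hM.cA j⟩
      · exact fun h => hM.aA j (mem_filter.1 h).2
      · have hv' : v ∈ A := (mem_filter.1 hv).2
        have hw' : w ∉ A := fun h => hw (mem_filter.2 ⟨mem_univ _, h⟩)
        rcases hoff v w hvw with h | h | ⟨i, j, h | h⟩
        · exact absurd h.2 hw'
        · exact absurd h.1 (hAB v hv')
        · refine ⟨j, ?_, h.2⟩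
          fin_cases i
          · exact h.1
          · exact absurd (show v ∈ B by rw [h.1]; exact hM.cB j) (hAB v hv')
          · exact absurd (show x ∈ A by rw [← hM.cx j]; exact h.1 ▸ hv') hM.xA
        · exact absurd (show a j ∈ A from h.1 ▸ hv') (hM.aA j)
    · refine hcut (univ.filter (· ∈ B)) (c 1) a hM.inj (fun j => ?_) (fun j => ?_)
        fun v hv w hw hvw => ?_
      · exact mem_filter.2 ⟨mem_univ _, hM.cB j⟩
      · exact fun h => hM.aB j (mem_filter.1 h).2
      · have hv' : v ∈ B := (mem_filter.1 hv).2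
        have hw' : w ∉ B := fun h => hw (mem_filter.2 ⟨mem_univ _, h⟩)
        rcases hoff v w hvw with h | h | ⟨i, j, h | h⟩
        · exact absurd hv' (hAB v h.1)
        · exact absurd h.2 hw'
        · refine ⟨j, ?_, h.2⟩
          fin_cases i
          · exact absurd hv' (hAB v (show v ∈ A by rw [h.1]; exact hM.cA j))
          · exact h.1
          · exact absurd (show x ∈ B by rw [← hM.cx j]; exact h.1 ▸ hv') hM.xB
        · exact absurd (show a j ∈ B from h.1 ▸ hv') (hM.aB j)
    · refine hcut {x} (c 2) a hM.inj (fun j => ?_) (fun j => ?_) fun v hv w hw hvw => ?_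
      · exact mem_singleton.2 (hM.cx j)
      · exact fun h => hxa j (mem_singleton.1 h).symm
      · have hv' : v = x := mem_singleton.1 hv
        rcases hoff v w hvw with h | h | ⟨i, j, h | h⟩
        · exact absurd (show x ∈ A from hv' ▸ h.1) hM.xA
        · exact absurd (show x ∈ B from hv' ▸ h.1) hM.xB
        · exact ⟨j, hv'.trans (hM.cx j).symm, h.2⟩
        · exact absurd (hv'.symm.trans h.1) (hxa j)
  · intro j
    have h1 := hcut {a j} (fun _ => a j) (fun i => c i j) (hci j)
      (fun i => mem_singleton.2 rfl) (fun i h => hca i j j (mem_singleton.1 h).symm)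
      fun v hv w hw hvw => ?_
    · rw [← h1]
      exact sum_congr rfl fun i _ => hs _ _
    · have hv' : v = a j := mem_singleton.1 hv
      rcases hoff v w hvw with h | h | ⟨i, j', h | h⟩
      · exact absurd (show a j ∈ A from hv' ▸ h.1) (hM.aA j)
      · exact absurd (show a j ∈ B from hv' ▸ h.1) (hM.aB j)
      · exact absurd (hv'.symm.trans h.1) (hca i j' j)
      · refine ⟨i, hv', ?_⟩
        rw [hM.inj (hv'.symm.trans h.1)]
        exact h.2

end Pool.Agent.DC76
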