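import Pool.Agent.DC76.Merge
import Pool.Agent.DC76.RowCol
import Pool.Agent.DC76.LiftK

/-!
# A frame excludes `K_{3,3}`
-/

set_option autoImplicit false

open Finset

namespace Pool.Agent.DC76

variable {V : Type} [Fintype V] [DecidableEq V]

/-- A frame excludes models of `K_{3,3}`.

Proof. Let `A`, `B`, `x`, `a` be such a model; choose `c` with `Model G A B x a c`. Take
`E = V × V`, `b' i e = b i e.1 e.2`, `D = Off A B a c`. A pair of `D` is not inside `P` and not
inside `Q` (`P ⊆ A` or `P ⊆ B`, the same for `Q`), so it is covered at most twice (`Frame.cov`);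
the pairs `(c i j, a j)` are also covered at most twice (`a j ∉ A, B`). `merge` gives `U`. For
`s ∈ U` let `β s i j = ∑ l ∈ s, b l (c i j) (a j)`: `Mz (β s)` by `Model.mz` for
`y = ∑ l ∈ s, b l ∈ Z G univ`, which vanishes on `D`; each entry is covered at most twice
(`merge_cov`). `mat` gives `M` with `Mz M` which is not a subset sum. `Model.lift`: a cycle `z`
with matrix `M`, zero on `D`. `Frame.gen`: `z = ∑ i ∈ s, b i + p + q`; `p` (inside `P`) and `q`
(inside `Q`) vanish on `D` and on the pairs `(c i j, a j)`, so `∑ i ∈ s, b i` is zero on `D` and has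
the matrix `M`; by `merge` it is a sum over `T ⊆ U`, contradiction. -/
theorem Frame.noK {G : SimpleGraph V} {P Q : Set V} {ι : Type} [Fintype ι]
    {b : ι → V → V → ZMod 2} (h : Frame G P Q b) : NoK G P Q := by
  classical
  intro A B hA hB hAB hP hQ x a ha hxA hxB hall
  choose haA haB hxa hp hq using hall
  choose p hpA hpa using hp
  choose q hqB hqa using hq
  set c : Fin 3 → Fin 3 → V := fun i j => ![p j, q j, x] i with hc
  have hM : Model G A B x a c := by
    refine ⟨hAB, ha, hxA, hxB, haA, haB, hpA, hqB, fun j => rfl, fun i j => ?_⟩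
    fin_cases i
    · exact hpa j
    · exact hqa j
    · exact hxa j
  have hZ0 : ∀ {S : Set V} {y : V → V → ZMod 2}, y ∈ Z G S → ∀ {u v : V},
      ¬ (u ∈ S ∧ v ∈ S) → y u v = 0 := by
    intro S y hy u v huv
    by_contra h0
    exact huv (hy.2.1 u v h0).2
  have hOff : ∀ {S : Set V}, (S ⊆ A ∨ S ⊆ B) → ∀ e ∈ Off A B a c, ¬ (e.1 ∈ S ∧ e.2 ∈ S) := by
    rintro S (hS | hS) e he ⟨h1, h2⟩
    · exact he.1 ⟨hS h1, hS h2⟩
    · exact he.2.1 ⟨hS h1, hS h2⟩
  have hNine : ∀ {S : Set V}, (S ⊆ A ∨ S ⊆ B) → ∀ i j, ¬ (c i j ∈ S ∧ a j ∈ S) := by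
    rintro S (hS | hS) i j ⟨-, h2⟩
    · exact haA j (hS h2)
    · exact haB j (hS h2)
  have hcovD : ∀ e ∈ Off A B a c, {i | b i e.1 e.2 ≠ 0}.ncard ≤ 2 := fun e he =>
    h.cov e.1 e.2 (hOff hP e he) (hOff hQ e he)
  have hcovN : ∀ i j, {l | b l (c i j) (a j) ≠ 0}.ncard ≤ 2 := fun i j =>
    h.cov _ _ (hNine hP i j) (hNine hQ i j)
  obtain ⟨U, hU1, hU2, hU3⟩ := merge (fun i (e : V × V) => b i e.1 e.2) (Off A B a c) hcovD
  obtain ⟨M, hM1, hM2⟩ := mat U (fun s i j => ∑ l ∈ s, b l (c i j) (a j)) (by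
    intro s hs
    have h1 : (∑ l ∈ s, b l) ∈ Z G Set.univ := Submodule.sum_mem _ fun l _ => h.cyc l
    have h2 := hM.mz h1 (by
      intro e he
      rw [Finset.sum_apply, Finset.sum_apply]
      exact hU2 s hs e he)
    simpa only [Finset.sum_apply] using h2) (fun i j =>
      merge_cov (fun i (e : V × V) => b i e.1 e.2) U hU1 (c i j, a j) (hcovN i j))
  obtain ⟨z, hz, hz0, hzM⟩ := hM.lift hA hB hM1
  obtain ⟨s, y, hy, w, hw, hzs⟩ := h.gen z hz
  have hval : ∀ u v, ¬ (u ∈ P ∧ v ∈ P) → ¬ (u ∈ Q ∧ v ∈ Q) → ∑ i ∈ s, b i u v = z u v := by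
    intro u v h1 h2
    have h3 := congrFun (congrFun hzs u) v
    simp only [Pi.add_apply, Finset.sum_apply] at h3
    rw [h3, hZ0 hy h1, hZ0 hw h2, add_zero, add_zero]
  obtain ⟨T, hTU, hT⟩ := hU3 s (by
    intro e he
    exact (hval e.1 e.2 (hOff hP e he) (hOff hQ e he)).trans (hz0 e he))
  obtain ⟨i, j, hij⟩ := hM2 T hTU
  apply hij
  rw [← hzM i j, ← hval _ _ (hNine hP i j) (hNine hQ i j)]
  exact hT (c i j, a j)

end Pool.Agent.DC76
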