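import Pool.Agent.DC76.SplitFrame
import Pool.Agent.DC76.NoKp
import Pool.Agent.DC76.Col

/-!
# The split case
-/

set_option autoImplicit false

open Finset

namespace Pool.Agent.DC76

variable {V : Type} [Fintype V] [DecidableEq V] {G : SimpleGraph V} {K : Finset V}
  {ψ : V → V → ZMod 2}

/-- A colouring of the split graph gives a colouring of `G`.

Proof. `c v = 0` for `v ∈ K`, `c v = c' (inl v)` otherwise. Let `v ∉ K`. If `v` is adjacent to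
`u ∈ K` then `inl v` is adjacent to `inl u ∈ cop1 K` or to `inr u ∈ cop2 K`, so `c v ≠ 0`: the
neighbours of `v` with the colour of `v` are outside `K` (or `v` has no neighbour in `K`), and they
are at most two by `Good` at `inl v` (`inl` is injective). Let `v ∈ K`: its neighbours outside `K`
have colours `≠ 0`, so `hdeg` applies. -/
theorem split_pull {c' : V ⊕ K → Fin 3}
    (hdeg : ∀ v ∈ K, {w | w ∈ K ∧ G.Adj v w}.ncard ≤ 2)
    (hc : Good (Gs G K ψ) (cop1 K) (cop2 K) 0 0 c') : ∃ c : V → Fin 3, Defective G 2 c := by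
  classical
  have h1 : ∀ v : V, v ∉ K → (Sum.inl v : V ⊕ K) ∉ cop1 K := by
    rintro v hv ⟨w, hw, hwv⟩
    rw [Sum.inl_injective hwv] at hw
    exact hv (Finset.mem_coe.1 hw)
  have h2 : ∀ v : V, (Sum.inl v : V ⊕ K) ∉ cop2 K := by
    rintro v ⟨w, hw⟩
    exact Sum.inr_ne_inl hw
  have hne : ∀ v u : V, v ∉ K → u ∈ K → G.Adj v u → c' (Sum.inl v) ≠ 0 := by
    intro v u hv hu hvu
    obtain ⟨g1, g2, -⟩ := hc (Sum.inl v) (h1 v hv) (h2 v)
    by_cases hψ : ψ u v = 0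
    · exact g1 ⟨Sum.inl u, ⟨u, Finset.mem_coe.2 hu, rfl⟩, hvu, fun h => absurd h hv,
        fun _ _ => hψ⟩
    · exact g2 ⟨Sum.inr ⟨u, hu⟩, ⟨⟨u, hu⟩, rfl⟩, hvu, hv, hψ⟩
  refine ⟨fun v => if v ∈ K then 0 else c' (Sum.inl v), fun v => ?_⟩
  by_cases hv : v ∈ K
  · refine (Set.ncard_le_ncard ?_ (Set.toFinite _)).trans (hdeg v hv)
    rintro u ⟨hvu, hcu⟩
    refine ⟨?_, hvu⟩
    by_contra hu
    simp only [if_pos hv, if_neg hu] at hcu
    exact hne u v hu hv hvu.symm hcu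
  · obtain ⟨-, -, g3⟩ := hc (Sum.inl v) (h1 v hv) (h2 v)
    rw [← Set.ncard_image_of_injective _ (Sum.inl_injective (α := V) (β := K))]
    refine (Set.ncard_le_ncard ?_ (Set.toFinite _)).trans g3
    rintro _ ⟨u, ⟨hvu, hcu⟩, rfl⟩
    have hu : u ∉ K := by
      intro hu
      simp only [if_pos hu, if_neg hv] at hcu
      exact hne v u hv hu hvu hcu.symm
    simp only [if_neg hu, if_neg hv] at hcu
    exact ⟨h1 u hu, h2 u, ⟨hvu, fun h => absurd h hv, fun h => absurd h hu⟩, hcu⟩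

theorem split_colour (hG : Conn G Set.univ) (hK : Conn G (K : Set V)) (hKn : K.Nonempty)
    (hdeg : ∀ v ∈ K, {w | w ∈ K ∧ G.Adj v w}.ncard ≤ 2) {ι : Type} [Fintype ι]
    {b : ι → V → V → ZMod 2} (hcyc : ∀ i, b i ∈ Z G Set.univ)
    (hcov : ∀ u v, {i | b i u v ≠ 0}.ncard ≤ 2) (hlab : ∀ i, lab K ψ (b i) = 0)
    (hgen : ∀ z ∈ Z G Set.univ, lab K ψ z = 0 →
      ∃ s : Finset ι, ∃ p ∈ Z G (K : Set V), z = ∑ i ∈ s, b i + p)
    (hex : ∃ z ∈ Z G Set.univ, lab K ψ z ≠ 0) : ∃ c : V → Fin 3, Defective G 2 c := by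
  obtain ⟨b', hb'⟩ := split_frame (ψ := ψ) hK hcyc hcov hlab hgen
  obtain ⟨u, hu⟩ := hKn
  obtain ⟨c', hc'⟩ := colour_same (conn_split hG hK ⟨u, hu⟩ hex) hb'.noK (P := cop1 K)
    (Q := cop2 K) 0 ⟨Sum.inl u, u, hu, rfl⟩ ⟨Sum.inr ⟨u, hu⟩, ⟨u, hu⟩, rfl⟩ cop_disj
    (conn_cop1 hK) (conn_cop2 hK) (Or.inl subset_rfl) (Or.inr subset_rfl) cop_no
  exact split_pull hdeg hc'

end Pool.Agent.DC76
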