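import Pool.Agent.DC76.Finish
import Pool.Agent.DC76.Min
import Pool.Agent.DC76.SplitCol

/-!
# The algebraic form of the theorem
-/

set_option autoImplicit false

open Finset

namespace Pool.Agent.DC76

variable {V : Type} [Fintype V] [DecidableEq V] {G : SimpleGraph V}

omit [Fintype V] [DecidableEq V] in
theorem span_sum {ι : Type} [Fintype ι] {b : ι → V → V → ZMod 2} {y : V → V → ZMod 2}
    (hy : y ∈ Submodule.span (ZMod 2) (Set.range b)) : ∃ s : Finset ι, y = ∑ i ∈ s, b i := by
  classical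
  obtain ⟨c, hc⟩ := (Submodule.mem_span_range_iff_exists_fun (ZMod 2)).1 hy
  refine ⟨univ.filter fun i => c i ≠ 0, ?_⟩
  rw [← hc, sum_filter]
  refine sum_congr rfl fun i _ => ?_
  by_cases h : c i = 0
  · simp [h]
  · have h1 : c i = 1 := by
      have : ∀ a : ZMod 2, a ≠ 0 → a = 1 := by decide
      exact this _ h
    simp [h1]

/-- The algebraic form: a graph whose cycle space over `ZMod 2` has a family of members which
covers every edge at most twice and spans a subspace of codimension at most `2` has a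
`(3, 2)`-colouring. -/
theorem core (hG : Conn G Set.univ) {ι : Type} [Fintype ι] {b : ι → V → V → ZMod 2}
    (hcyc : ∀ i, b i ∈ Z G Set.univ) (hcov : ∀ u v, {i | b i u v ≠ 0}.ncard ≤ 2)
    (hfin : Module.finrank (ZMod 2) (Z G Set.univ) ≤
      Module.finrank (ZMod 2) (Submodule.span (ZMod 2) (Set.range b)) + 2) :
    ∃ c : V → Fin 3, Defective G 2 c := by
  classical
  rcases isEmpty_or_nonempty V with hV | ⟨⟨v0⟩⟩
  · exact ⟨fun v => hV.elim v, fun v => hV.elim v⟩
  set W := Z G Set.univ with hW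
  set L0 := Submodule.span (ZMod 2) (Set.range b) with hL0
  have hL0W : L0 ≤ W := Submodule.span_le.2 (by rintro _ ⟨i, rfl⟩; exact hcyc i)
  have hZW : ∀ S : Set V, Z G S ≤ W := fun S z hz =>
    ⟨hz.1, fun u v h => ⟨(hz.2.1 u v h).1, trivial, trivial⟩, hz.2.2⟩
  have hcov' : ∀ (P Q : Set V) (u v : V), ¬ (u ∈ P ∧ v ∈ P) → ¬ (u ∈ Q ∧ v ∈ Q) →
      {i | b i u v ≠ 0}.ncard ≤ 2 := fun P Q u v _ _ => hcov u v
  by_cases h0 : W ≤ L0
  · -- the family generates everything
    have hfr : Frame G ∅ ∅ b := by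
      refine ⟨hcyc, hcov' ∅ ∅, fun z hz => ?_⟩
      obtain ⟨s, hs⟩ := span_sum (h0 hz)
      exact ⟨s, 0, Submodule.zero_mem _, 0, Submodule.zero_mem _, by simp [hs]⟩
    refine finish_one hG hfr.noK (P := {v0}) ⟨v0, rfl⟩ ?_ ?_ (Set.empty_subset _)
      (Set.empty_subset _)
    · rintro x rfl y rfl
      exact Relation.ReflTransGen.refl
    · rintro v rfl
      have : {w | w ∈ ({v} : Set V) ∧ G.Adj v w} = ∅ := by
        ext w
        simp only [Set.mem_singleton_iff, Set.mem_setOf_eq, Set.mem_empty_iff_false, iff_false,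
          not_and]
        rintro rfl
        exact G.loopless.irrefl w
      rw [this]
      simp
  · have h0' : ∃ z ∈ Z G (∅ : Set V)ᶜ, z ∉ L0 := by
      obtain ⟨z, hz, hz'⟩ := Set.not_subset.1 h0
      refine ⟨z, ?_, hz'⟩
      rw [Set.compl_empty]
      exact hz
    obtain ⟨K1, hK1n, -, hK1c, hK1d, z1, hz1, hz1'⟩ := min_cycle G L0 ∅ h0'
    set L1 := L0 ⊔ Z G K1 with hL1
    have hL1W : L1 ≤ W := sup_le hL0W (hZW K1)
    have hlt1 : L0 < L1 := by
      refine lt_of_le_of_ne le_sup_left fun h => hz1' ?_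
      rw [h]
      exact (le_sup_right : Z G K1 ≤ L1) hz1
    have hf1 : Module.finrank (ZMod 2) L0 < Module.finrank (ZMod 2) L1 :=
      Submodule.finrank_lt_finrank_of_lt hlt1
    have hsup1 : ∀ z ∈ L1, ∃ s : Finset ι, ∃ p ∈ Z G K1, z = ∑ i ∈ s, b i + p := by
      intro z hz
      obtain ⟨y, hy, p, hp, rfl⟩ := Submodule.mem_sup.1 hz
      obtain ⟨s, hs⟩ := span_sum hy
      exact ⟨s, p, hp, by rw [hs]⟩
    by_cases h1 : W ≤ L1
    · have hfr : Frame G K1 ∅ b := by
        refine ⟨hcyc, hcov' K1 ∅, fun z hz => ?_⟩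
        obtain ⟨s, p, hp, hs⟩ := hsup1 z (h1 hz)
        exact ⟨s, p, hp, 0, Submodule.zero_mem _, by rw [add_zero, hs]⟩
      exact finish_one hG hfr.noK hK1n hK1c hK1d subset_rfl (Set.empty_subset _)
    · by_cases h2 : ∃ z ∈ Z G K1ᶜ, z ∉ L1
      · -- a second cycle outside `K1`
        obtain ⟨K2, hK2n, hK2X, hK2c, hK2d, z2, hz2, hz2'⟩ := min_cycle G L1 K1 h2
        set L2 := L1 ⊔ Z G K2 with hL2
        have hL2W : L2 ≤ W := sup_le hL1W (hZW K2)
        have hlt2 : L1 < L2 := by
          refine lt_of_le_of_ne le_sup_left fun h => hz2' ?_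
          rw [h]
          exact (le_sup_right : Z G K2 ≤ L2) hz2
        have hf2 : Module.finrank (ZMod 2) L1 < Module.finrank (ZMod 2) L2 :=
          Submodule.finrank_lt_finrank_of_lt hlt2
        have hWL2 : L2 = W := Submodule.eq_of_le_of_finrank_le hL2W (by omega)
        have hfr : Frame G K1 K2 b := by
          refine ⟨hcyc, hcov' K1 K2, fun z hz => ?_⟩
          have hz' : z ∈ L2 := by
            rw [hWL2]
            exact hz
          obtain ⟨y, hy, q, hq, rfl⟩ := Submodule.mem_sup.1 hz'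
          obtain ⟨s, p, hp, hs⟩ := hsup1 y hy
          exact ⟨s, p, hp, q, hq, by rw [hs]⟩
        obtain ⟨c, hc⟩ := colour hG hfr.noK _ K1 K2 0 1 (by decide) hK1n hK2n hK2X.symm hK1c hK2c
          (Or.inl subset_rfl) (Or.inr subset_rfl) le_rfl
        exact final hK2X.symm hK1d hK2d (by decide) hc
      · -- the split case
        have h2' : Z G K1ᶜ ≤ L1 := by
          intro z hz
          by_contra h
          exact h2 ⟨z, hz, h⟩
        obtain ⟨K, hK⟩ : ∃ K : Finset V, (K : Set V) = K1 := ⟨K1.toFinset, by simp⟩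
        subst hK
        obtain ⟨ψ, hex, hψ1, hψ2⟩ := label (K := K) hL1W le_sup_right h2' h1
          (by change Module.finrank (ZMod 2) W ≤ _; omega)
        refine split_colour (ψ := ψ) hG hK1c (by simpa using hK1n) (fun v hv => hK1d v hv) hcyc
          hcov (fun i => hψ1 _ ?_) (fun z hz hz0 => hsup1 z (hψ2 z hz hz0)) hex
        exact (le_sup_left : L0 ≤ L1) (Submodule.subset_span ⟨i, rfl⟩)

end Pool.Agent.DC76
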