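import Mathlib

/-!
# Defective colourings of graphs on surfaces: definitions
-/

set_option autoImplicit false

open Finset

namespace Pool.Agent.DC76

/-- `c` is a `(k, d)`-colouring of `G`: every vertex has at most `d` neighbours of its own
colour. -/
def Defective {V : Type} (G : SimpleGraph V) {k : ℕ} (d : ℕ) (c : V → Fin k) : Prop :=
  ∀ v, {u | G.Adj v u ∧ c u = c v}.ncard ≤ d

section walks

variable {V : Type} [DecidableEq V]

/-- How often the closed walk `w 0, w 1, ..., w n` traverses the edge `uv`. -/
def trav (n : ℕ) (w : ℕ → V) (u v : V) : ℕ :=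
  ((range n).filter fun t => (w t = u ∧ w (t + 1) = v) ∨ (w t = v ∧ w (t + 1) = u)).card

/-- Facial walks of `G` (one for every face `f : F`): closed walks which together traverse every
edge exactly twice, such that the faces cannot be divided into two classes without a common edge.
For every cellular embedding of a connected graph in a closed surface the boundary walks of the
faces have these properties. -/
structure FacialWalks (G : SimpleGraph V) (F : Type) [Fintype F] where
  /-- the length of the walk -/
  len : F → ℕ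
  /-- the vertices of the walk -/
  walk : F → ℕ → V
  /-- the walk is closed -/
  closed : ∀ f, walk f (len f) = walk f 0
  /-- consecutive vertices are adjacent -/
  adj : ∀ f t, t < len f → G.Adj (walk f t) (walk f (t + 1))
  /-- every edge is traversed exactly twice -/
  twice : ∀ u v, G.Adj u v → ∑ f, trav (len f) (walk f) u v = 2
  /-- the faces are connected through edges -/
  dual : ∀ I : Finset F, I.Nonempty → I ≠ univ →
    ∃ u v, ∑ f ∈ I, trav (len f) (walk f) u v = 1

end walks

/-- `H` is a subgraph of a connected graph with facial walks of Euler characteristic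
`V - E + F = χ`. Every graph embedded in a closed connected surface of Euler characteristic `χ` is
a subgraph of a simple graph which triangulates the surface, and so has this property. -/
def OnSurface (χ : ℤ) {U : Type} (H : SimpleGraph U) : Prop :=
  ∃ (V F : Type) (_ : Fintype V) (_ : DecidableEq V) (_ : Fintype F) (G : SimpleGraph V)
    (f : U → V), Function.Injective f ∧ (∀ x y, H.Adj x y → G.Adj (f x) (f y)) ∧ G.Connected ∧
      Nonempty (FacialWalks G F) ∧
      (Fintype.card V : ℤ) - G.edgeSet.ncard + Fintype.card F = χ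

section cycles

variable {V : Type} [Fintype V]

/-- The cycle space over `ZMod 2` of the graph induced on `S`: symmetric functions, supported on
the edges with both ends in `S`, with an even number of edges at every vertex. -/
def Z (G : SimpleGraph V) (S : Set V) : Submodule (ZMod 2) (V → V → ZMod 2) where
  carrier := {z | (∀ u v, z u v = z v u) ∧ (∀ u v, z u v ≠ 0 → G.Adj u v ∧ u ∈ S ∧ v ∈ S) ∧
    ∀ v, ∑ w, z v w = 0}
  zero_mem' := by
    refine ⟨fun _ _ => rfl, fun u v h => absurd rfl h, fun v => ?_⟩
    simp
  add_mem' := by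
    rintro y z ⟨hy1, hy2, hy3⟩ ⟨hz1, hz2, hz3⟩
    refine ⟨fun u v => ?_, fun u v h => ?_, fun v => ?_⟩
    · simp only [Pi.add_apply]
      rw [hy1, hz1]
    · by_cases h1 : y u v = 0
      · have h2 : z u v ≠ 0 := by
          intro h2
          apply h
          simp [h1, h2]
        exact hz2 u v h2
      · exact hy2 u v h1
    · simp only [Pi.add_apply]
      rw [sum_add_distrib, hy3, hz3, add_zero]
  smul_mem' := by
    rintro c z ⟨hz1, hz2, hz3⟩
    refine ⟨fun u v => ?_, fun u v h => ?_, fun v => ?_⟩
    · simp only [Pi.smul_apply]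
      rw [hz1]
    · refine hz2 u v fun h2 => h ?_
      simp [h2]
    · simp only [Pi.smul_apply, smul_eq_mul]
      rw [← mul_sum, hz3, mul_zero]

/-- The set `S` is connected in `G` (or empty). -/
def Conn (G : SimpleGraph V) (S : Set V) : Prop :=
  ∀ x ∈ S, ∀ y ∈ S, Relation.ReflTransGen (fun a b => b ∈ S ∧ G.Adj a b) x y

/-- There is no model of `K_{3,3}` with branch sets `A, B, {x}` and `{a 0}, {a 1}, {a 2}` such that
each of the sets `P`, `Q` is contained in `A` or in `B`. -/
def NoK (G : SimpleGraph V) (P Q : Set V) : Prop :=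
  ∀ A B : Set V, Conn G A → Conn G B → Disjoint A B → (P ⊆ A ∨ P ⊆ B) → (Q ⊆ A ∨ Q ⊆ B) →
    ∀ (x : V) (a : Fin 3 → V), Function.Injective a → x ∉ A → x ∉ B →
      ¬ ∀ j, a j ∉ A ∧ a j ∉ B ∧ G.Adj x (a j) ∧ (∃ p ∈ A, G.Adj p (a j)) ∧
        ∃ q ∈ B, G.Adj q (a j)

/-- The family `b` of cycles covers every edge which is not inside `P` or inside `Q` at most twice
and generates all the cycles modulo the cycles inside `P` and the cycles inside `Q`. -/
structure Frame (G : SimpleGraph V) (P Q : Set V) {ι : Type} [Fintype ι]
    (b : ι → V → V → ZMod 2) : Prop where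
  /-- the members are cycles -/
  cyc : ∀ i, b i ∈ Z G Set.univ
  /-- every edge is covered at most twice -/
  cov : ∀ u v, ¬ (u ∈ P ∧ v ∈ P) → ¬ (u ∈ Q ∧ v ∈ Q) → {i | b i u v ≠ 0}.ncard ≤ 2
  /-- all the cycles are generated -/
  gen : ∀ z ∈ Z G Set.univ, ∃ s : Finset ι, ∃ p ∈ Z G P, ∃ q ∈ Z G Q, z = ∑ i ∈ s, b i + p + q

/-- `c` colours the vertices outside `P ∪ Q` with defect at most `2`, the neighbours of `P` avoid
the colour `α` and the neighbours of `Q` avoid the colour `β`. -/
def Good (G : SimpleGraph V) (P Q : Set V) (α β : Fin 3) (c : V → Fin 3) : Prop :=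
  ∀ v, v ∉ P → v ∉ Q → ((∃ p ∈ P, G.Adj v p) → c v ≠ α) ∧ ((∃ q ∈ Q, G.Adj v q) → c v ≠ β) ∧
    {w | w ∉ P ∧ w ∉ Q ∧ G.Adj v w ∧ c w = c v}.ncard ≤ 2

end cycles

end Pool.Agent.DC76
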