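import Pool.Agent.DC76.Join

/-!
# The dimension of the cycle space
-/

set_option autoImplicit false

open Finset

namespace Pool.Agent.DC76

variable {V : Type} [Fintype V] [DecidableEq V]

open Classical in
/-- The boundary of a set of edges. -/
noncomputable def bdE (G : SimpleGraph V) : (G.edgeSet → ZMod 2) →ₗ[ZMod 2] (V → ZMod 2) where
  toFun c v := ∑ w, if h : G.Adj v w then c ⟨s(v, w), (G.mem_edgeSet).2 h⟩ else 0
  map_add' := by
    intro a b
    funext v
    simp only [Pi.add_apply]
    rw [← Finset.sum_add_distrib]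
    refine Finset.sum_congr rfl fun w _ => ?_
    by_cases h : G.Adj v w
    · simp [h]
    · simp [h]
  map_smul' := by
    intro a b
    funext v
    simp only [Pi.smul_apply, RingHom.id_apply, smul_eq_mul]
    rw [Finset.mul_sum]
    refine Finset.sum_congr rfl fun w _ => ?_
    by_cases h : G.Adj v w
    · simp [h]
    · simp [h]

/-- A symmetric function as a function of the edges. -/
noncomputable def onE (G : SimpleGraph V) (J : V → V → ZMod 2) (hJ : ∀ u v, J u v = J v u) : G.edgeSet → ZMod 2 :=
  fun e => Sym2.lift ⟨J, hJ⟩ e.1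

theorem bdE_onE (G : SimpleGraph V) (J : V → V → ZMod 2) (hJ : ∀ u v, J u v = J v u)
    (hs : ∀ u v, J u v ≠ 0 → G.Adj u v) (v : V) : bdE G (onE G J hJ) v = ∑ w, J v w := by
  classical
  unfold bdE onE
  change (∑ w, if h : G.Adj v w then Sym2.lift ⟨J, hJ⟩ s(v, w) else 0) = ∑ w, J v w
  refine Finset.sum_congr rfl fun w _ => ?_
  by_cases h : G.Adj v w
  · rw [dif_pos h]
    rfl
  · rw [dif_neg h]
    by_contra h'
    exact h (hs v w (fun h0 => h' h0.symm))

/-- The dimension of the cycle space of a connected graph is at most `E - V + 1`. -/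
theorem finrank_Z {G : SimpleGraph V} (hG : Conn G Set.univ) (hV : Nonempty V) :
    Module.finrank (ZMod 2) (Z G Set.univ) + Fintype.card V ≤ G.edgeSet.ncard + 1 := by
  classical
  obtain ⟨r⟩ := hV
  have h1 := LinearMap.finrank_range_add_finrank_ker (bdE G)
  rw [Module.finrank_fintype_fun_eq_card] at h1
  have hE : Fintype.card G.edgeSet = G.edgeSet.ncard := by
    rw [Set.ncard_eq_toFinset_card', Set.toFinset_card]
  -- the cycle space
  let Φ : (Z G Set.univ) →ₗ[ZMod 2] LinearMap.ker (bdE G) :=
    { toFun := fun z => ⟨onE G z.1 z.2.1, by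
        rw [LinearMap.mem_ker]
        funext v
        rw [bdE_onE G z.1 z.2.1 (fun u v h => (z.2.2.1 u v h).1)]
        exact z.2.2.2 v⟩
      map_add' := by
        intro y z
        apply Subtype.ext
        funext e
        obtain ⟨e, he⟩ := e
        induction e using Sym2.ind with
        | _ u v => rfl
      map_smul' := by
        intro c z
        apply Subtype.ext
        funext e
        obtain ⟨e, he⟩ := e
        induction e using Sym2.ind with
        | _ u v => rfl }
  have hΦ : Function.Injective Φ := by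
    rw [← LinearMap.ker_eq_bot, LinearMap.ker_eq_bot']
    intro z hz
    apply Subtype.ext
    funext u v
    by_contra h
    have hadj : G.Adj u v := (z.2.2.1 u v h).1
    have h2 := congrFun (congrArg Subtype.val hz) ⟨s(u, v), (G.mem_edgeSet).2 hadj⟩
    exact h h2
  have h2 := LinearMap.finrank_le_finrank_of_injective hΦ
  -- the range
  have h3 : (⊤ : Submodule (ZMod 2) (V → ZMod 2)) ≤
      LinearMap.range (bdE G) ⊔ Submodule.span (ZMod 2) {(Pi.single r 1 : V → ZMod 2)} := by
    intro x _
    have hx : x = ∑ v, x v • (Pi.single v 1 : V → ZMod 2) := pi_eq_sum_univ' x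
    rw [hx]
    refine Submodule.sum_mem _ fun v _ => Submodule.smul_mem _ _ ?_
    have hpath : Relation.ReflTransGen G.Adj r v :=
      Relation.ReflTransGen.mono (p := G.Adj) (r := fun a b => b ∈ Set.univ ∧ G.Adj a b) (fun a b h => h.2) _ _ (hG r (Set.mem_univ r) v (Set.mem_univ v))
    obtain ⟨J, hJ1, hJ2, hJ3⟩ := join_path (H := G.Adj) (fun u v h => h.symm) (fun u h => G.irrefl h) hpath
    have h4 : bdE G (onE G J hJ1) = Pi.single r 1 + Pi.single v 1 := by
      funext w
      rw [bdE_onE G J hJ1 hJ2, hJ3 w, Pi.add_apply, Pi.single_apply, Pi.single_apply]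
    have h5 : (Pi.single v 1 : V → ZMod 2) = bdE G (onE G J hJ1) + Pi.single r 1 := by
      rw [h4]
      funext w
      simp only [Pi.add_apply]
      have : ∀ a b : ZMod 2, b = a + b + a := by decide
      exact this _ _
    rw [h5]
    exact Submodule.add_mem_sup ⟨_, rfl⟩ (Submodule.mem_span_singleton_self _)
  have h4 := Submodule.finrank_mono h3
  rw [finrank_top, Module.finrank_fintype_fun_eq_card] at h4
  have h5 := Submodule.finrank_add_le_finrank_add_finrank (LinearMap.range (bdE G))
    (Submodule.span (ZMod 2) {(Pi.single r 1 : V → ZMod 2)})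
  have h6 : Module.finrank (ZMod 2) (Submodule.span (ZMod 2) {(Pi.single r 1 : V → ZMod 2)}) ≤ 1 := by
    refine le_trans (finrank_span_le_card _) ?_
    simp
  omega

end Pool.Agent.DC76
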