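import Pool.Agent.DC76.Walk

/-!
# The rank of the faces
-/

set_option autoImplicit false

open Finset

namespace Pool.Agent.DC76

variable {V : Type} [Fintype V] [DecidableEq V] {G : SimpleGraph V} {F : Type} [Fintype F]

/-- The faces span a space of dimension at least `F - 1`. -/
theorem face_rank (M : FacialWalks G F) :
    Fintype.card F ≤
      Module.finrank (ZMod 2) (Submodule.span (ZMod 2) (Set.range (face M))) + 1 := by
  classical
  have h1 := LinearMap.finrank_range_add_finrank_ker (Fintype.linearCombination (ZMod 2) (face M))
  rw [Fintype.range_linearCombination, Module.finrank_fintype_fun_eq_card] at h1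
  have h2 : LinearMap.ker (Fintype.linearCombination (ZMod 2) (face M)) ≤
      Submodule.span (ZMod 2) {(fun _ => 1 : F → ZMod 2)} := by
    intro c hc
    rw [LinearMap.mem_ker, Fintype.linearCombination_apply] at hc
    have h01 : ∀ x : ZMod 2, x ≠ 0 → x = 1 := by decide
    by_cases h0 : (univ.filter fun f => c f ≠ 0).Nonempty
    · by_cases h3 : (univ.filter fun f => c f ≠ 0) = univ
      · have : c = fun _ => 1 := by
          funext f
          have : f ∈ univ.filter fun f => c f ≠ 0 := by rw [h3]; exact mem_univ f
          exact h01 _ (mem_filter.1 this).2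
        rw [this]
        exact Submodule.mem_span_singleton_self _
      · exfalso
        obtain ⟨u, v, huv⟩ := M.dual _ h0 h3
        have h4 := congrFun (congrFun hc u) v
        have h5 : (∑ f, c f • face M f) u v = ∑ f ∈ univ.filter (fun f => c f ≠ 0), face M f u v := by
          rw [Finset.sum_apply, Finset.sum_apply, Finset.sum_filter]
          refine Finset.sum_congr rfl fun f _ => ?_
          by_cases hf : c f = 0
          · simp [hf]
          · simp [h01 _ hf]
        rw [h5] at h4
        have h6 : (∑ f ∈ univ.filter (fun f => c f ≠ 0), face M f u v) = ((1 : ℕ) : ZMod 2) := by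
          rw [← huv, Nat.cast_sum]
          rfl
        rw [h6] at h4
        exact absurd h4 (by simp)
    · have : c = 0 := by
        funext f
        by_contra hf
        exact h0 ⟨f, mem_filter.2 ⟨mem_univ f, hf⟩⟩
      rw [this]
      exact Submodule.zero_mem _
  have h3 := Submodule.finrank_mono h2
  have h4 : Module.finrank (ZMod 2) (Submodule.span (ZMod 2) {(fun _ => 1 : F → ZMod 2)}) ≤ 1 := by
    refine le_trans (finrank_span_le_card _) ?_
    simp
  omega

end Pool.Agent.DC76
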