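import Pool.Agent.DC76.NoKp
import Pool.Agent.DC76.Col

/-!
# From `Good` to defective colourings
-/

set_option autoImplicit false

open Finset

namespace Pool.Agent.DC76

variable {V : Type} [Fintype V] [DecidableEq V] {G : SimpleGraph V}

open Classical in
/-- Proof. `c' v = α` on `P`, `β` on `Q`, `c v` otherwise. For `v ∈ P`: neighbours outside `P ∪ Q`
avoid `α`, those in `Q` have the colour `β ≠ α`; so the neighbours of the same colour are in `P`
and `hP` applies; the same for `Q`. For `v ∉ P ∪ Q`: if `v` has a neighbour in `P` then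
`c v ≠ α`, if it has a neighbour in `Q` then `c v ≠ β`, so the neighbours of the same colour are
outside `P ∪ Q`. -/
theorem final {P Q : Set V} (hPQ : Disjoint P Q)
    (hP : ∀ v ∈ P, {w | w ∈ P ∧ G.Adj v w}.ncard ≤ 2)
    (hQ : ∀ v ∈ Q, {w | w ∈ Q ∧ G.Adj v w}.ncard ≤ 2) {α β : Fin 3} (hαβ : α ≠ β) {c : V → Fin 3}
    (hc : Good G P Q α β c) : ∃ c' : V → Fin 3, Defective G 2 c' := by
  let c' : V → Fin 3 := fun v => if v ∈ P then α else if v ∈ Q then β else c v
  have hcP : ∀ v ∈ P, c' v = α := fun v hv => if_pos hv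
  have hcQ : ∀ v ∈ Q, c' v = β := by
    intro v hv
    have hvP : v ∉ P := fun h => Set.disjoint_left.1 hPQ h hv
    show (if v ∈ P then α else if v ∈ Q then β else c v) = β
    rw [if_neg hvP, if_pos hv]
  have hcN : ∀ v, v ∉ P → v ∉ Q → c' v = c v := by
    intro v h1 h2
    show (if v ∈ P then α else if v ∈ Q then β else c v) = c v
    rw [if_neg h1, if_neg h2]
  refine ⟨c', fun v => ?_⟩
  by_cases hvP : v ∈ P
  · refine le_trans (Set.ncard_le_ncard ?_ (Set.toFinite _)) (hP v hvP)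
    rintro u ⟨hadj, hu⟩
    refine ⟨?_, hadj⟩
    by_contra huP
    rw [hcP v hvP] at hu
    by_cases huQ : u ∈ Q
    · rw [hcQ u huQ] at hu
      exact hαβ hu.symm
    · rw [hcN u huP huQ] at hu
      exact (hc u huP huQ).1 ⟨v, hvP, hadj.symm⟩ hu
  · by_cases hvQ : v ∈ Q
    · refine le_trans (Set.ncard_le_ncard ?_ (Set.toFinite _)) (hQ v hvQ)
      rintro u ⟨hadj, hu⟩
      refine ⟨?_, hadj⟩
      by_contra huQ
      rw [hcQ v hvQ] at hu
      by_cases huP : u ∈ P
      · rw [hcP u huP] at hu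
        exact hαβ hu
      · rw [hcN u huP huQ] at hu
        exact (hc u huP huQ).2.1 ⟨v, hvQ, hadj.symm⟩ hu
    · refine le_trans (Set.ncard_le_ncard ?_ (Set.toFinite _)) (hc v hvP hvQ).2.2
      rintro u ⟨hadj, hu⟩
      rw [hcN v hvP hvQ] at hu
      have huP : u ∉ P := by
        intro h
        rw [hcP u h] at hu
        exact (hc v hvP hvQ).1 ⟨u, h, hadj⟩ hu.symm
      have huQ : u ∉ Q := by
        intro h
        rw [hcQ u h] at hu
        exact (hc v hvP hvQ).2.1 ⟨u, h, hadj⟩ hu.symm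
      rw [hcN u huP huQ] at hu
      exact ⟨huP, huQ, hadj, hu⟩

/-- Proof. If `P = univ` the constant colouring works. Otherwise pick `q ∉ P` and use `colour` for
`P`, `{q}`, `0`, `1` and `final`. -/
theorem finish_one (hG : Conn G Set.univ) {K1 K2 : Set V} (hN : NoK G K1 K2) {P : Set V}
    (hPn : P.Nonempty) (hcP : Conn G P) (hP : ∀ v ∈ P, {w | w ∈ P ∧ G.Adj v w}.ncard ≤ 2)
    (h1 : K1 ⊆ P) (h2 : K2 ⊆ P) : ∃ c' : V → Fin 3, Defective G 2 c' := by
  by_cases hPu : P = Set.univ
  · refine ⟨fun _ => 0, fun v => ?_⟩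
    have hv : v ∈ P := by
      rw [hPu]
      exact Set.mem_univ v
    refine le_trans (Set.ncard_le_ncard ?_ (Set.toFinite _)) (hP v hv)
    rintro u ⟨h, -⟩
    refine ⟨?_, h⟩
    rw [hPu]
    exact Set.mem_univ u
  · obtain ⟨q, hq⟩ := (Set.ne_univ_iff_exists_notMem P).1 hPu
    have hd : Disjoint P {q} := Set.disjoint_singleton_right.2 hq
    obtain ⟨c, hc⟩ := colour hG hN _ P {q} 0 1 (by decide) hPn ⟨q, rfl⟩ hd hcP
      (by rintro x rfl y rfl; exact Relation.ReflTransGen.refl) (Or.inl h1) (Or.inl h2) le_rfl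
    refine final hd hP ?_ (by decide) hc
    intro v hv
    have h0 : {w | w ∈ ({q} : Set V) ∧ G.Adj v w} = ∅ := by
      refine Set.eq_empty_of_forall_notMem ?_
      rintro w ⟨hw, hadj⟩
      have h3 : w = q := hw
      have h4 : v = q := hv
      rw [h3, h4] at hadj
      exact G.loopless.irrefl q hadj
    rw [h0, Set.ncard_empty]
    omega

end Pool.Agent.DC76
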