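import Pool.Agent.DC76.Defs

/-!
# Edge sets with prescribed boundary
-/

set_option autoImplicit false

open Finset

namespace Pool.Agent.DC76

variable {V : Type} [DecidableEq V]

/-- the edge `ab` -/
def ed (a b : V) : V → V → ZMod 2 :=
  fun u v => if (u = a ∧ v = b) ∨ (u = b ∧ v = a) then 1 else 0

theorem ed_symm (a b u v : V) : ed a b u v = ed a b v u := by
  unfold ed
  by_cases h : (u = a ∧ v = b) ∨ (u = b ∧ v = a)
  · rw [if_pos h, if_pos (by tauto)]
  · rw [if_neg h, if_neg (by tauto)]

theorem ed_eq {a b u v : V} (h : ed a b u v ≠ 0) : (u = a ∧ v = b) ∨ (u = b ∧ v = a) := by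
  by_contra hc
  exact h (by unfold ed; rw [if_neg hc])

theorem ed_left (a b : V) : ed a b a b = 1 := by
  unfold ed
  rw [if_pos (Or.inl ⟨rfl, rfl⟩)]

theorem ed_right (a b : V) : ed a b b a = 1 := by
  unfold ed
  rw [if_pos (Or.inr ⟨rfl, rfl⟩)]

variable [Fintype V]

/-- The boundary of an edge. Proof. `∑ w` has at most one nonzero term: `w = b` if `v = a`,
`w = a` if `v = b`. -/
theorem ed_bd {a b : V} (h : a ≠ b) (v : V) :
    ∑ w, ed a b v w = (if v = a then 1 else 0) + (if v = b then 1 else 0) := by
  unfold ed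
  by_cases ha : v = a
  · have hb : v ≠ b := fun h' => h (ha.symm.trans h')
    have h1 : ∀ w, ((v = a ∧ w = b) ∨ (v = b ∧ w = a)) ↔ w = b := by
      intro w
      constructor
      · rintro (h' | h')
        · exact h'.2
        · exact absurd h'.1 hb
      · intro h'
        exact Or.inl ⟨ha, h'⟩
    simp only [h1]
    rw [if_pos ha, if_neg hb]
    simp
  · by_cases hb : v = b
    · have h1 : ∀ w, ((v = a ∧ w = b) ∨ (v = b ∧ w = a)) ↔ w = a := by
        intro w
        constructor
        · rintro (h' | h')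
          · exact absurd h'.1 ha
          · exact h'.2
        · intro h'
          exact Or.inr ⟨hb, h'⟩
      simp only [h1]
      rw [if_neg ha, if_pos hb]
      simp
    · have h1 : ∀ w, ¬ ((v = a ∧ w = b) ∨ (v = b ∧ w = a)) := by
        rintro w (h' | h')
        · exact ha h'.1
        · exact hb h'.1
      rw [if_neg ha, if_neg hb]
      refine (sum_eq_zero fun w _ => if_neg (h1 w)).trans ?_
      simp

/-- A walk along edges of the symmetric relation `H` from `a` to `b` contains a set `J` of edges
with boundary `{a, b}`. Proof. Induction on the walk: `J = 0` for `a = b` (`1 + 1 = 0`); for a last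
step `b → b'` add `ed b b'` (`ed_bd`, `b ≠ b'` by `hi`). -/
theorem join_path {H : V → V → Prop} (hs : ∀ u v, H u v → H v u) (hi : ∀ u, ¬ H u u) {a b : V}
    (h : Relation.ReflTransGen H a b) :
    ∃ J : V → V → ZMod 2, (∀ u v, J u v = J v u) ∧ (∀ u v, J u v ≠ 0 → H u v) ∧
      ∀ v, ∑ w, J v w = (if v = a then 1 else 0) + (if v = b then 1 else 0) := by
  induction h with
  | refl =>
    refine ⟨fun _ _ => 0, fun _ _ => rfl, fun _ _ h => absurd rfl h, fun v => ?_⟩
    rw [CharTwo.add_self_eq_zero]
    simp
  | @tail b c _ hbc ih =>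
    obtain ⟨J, h1, h2, h3⟩ := ih
    have hne : b ≠ c := by
      rintro rfl
      exact hi b hbc
    refine ⟨fun u v => J u v + ed b c u v, fun u v => ?_, fun u v h => ?_, fun v => ?_⟩
    · show J u v + ed b c u v = J v u + ed b c v u
      rw [h1 u v, ed_symm b c u v]
    · by_cases hJ : J u v = 0
      · have h4 : ed b c u v ≠ 0 := by
          intro h5
          apply h
          show J u v + ed b c u v = 0
          rw [hJ, h5, add_zero]
        rcases ed_eq h4 with ⟨rfl, rfl⟩ | ⟨rfl, rfl⟩
        · exact hbc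
        · exact hs _ _ hbc
      · exact h2 u v hJ
    · show ∑ w, (J v w + ed b c v w) = _
      rw [sum_add_distrib, h3 v, ed_bd hne v]
      have h4 : ((if v = b then 1 else 0) : ZMod 2) + (if v = b then 1 else 0) = 0 :=
        CharTwo.add_self_eq_zero _
      calc ((if v = a then 1 else 0) : ZMod 2) + (if v = b then 1 else 0)
            + ((if v = b then 1 else 0) + (if v = c then 1 else 0))
          = (if v = a then 1 else 0) + (((if v = b then 1 else 0) + (if v = b then 1 else 0))
            + (if v = c then 1 else 0)) := by ring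
        _ = _ := by rw [h4, zero_add]

/-- `T`-joins in connected sets. Proof. If `S` is empty then `t = 0` and `J = 0`. Otherwise fix
`r ∈ S`; for `x ∈ S` let `J x` be the set of `join_path` for
`H u v = (G.Adj u v ∧ u ∈ S ∧ v ∈ S)` and the vertices `r`, `x` (every vertex reached from `r` with
the relation of `Conn` is in `S`). Put `J = ∑ x with t x ≠ 0, J x`. The boundary at `v` is
`∑ x, t x * ([v = r] + [v = x]) = [v = r] * ∑ x, t x + t v = t v`. -/
theorem join {G : SimpleGraph V} {S : Set V} (hS : Conn G S) (t : V → ZMod 2)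
    (ht : ∀ v, t v ≠ 0 → v ∈ S) (h0 : ∑ v, t v = 0) :
    ∃ J : V → V → ZMod 2, (∀ u v, J u v = J v u) ∧
      (∀ u v, J u v ≠ 0 → G.Adj u v ∧ u ∈ S ∧ v ∈ S) ∧ ∀ v, ∑ w, J v w = t v := by
  classical
  rcases S.eq_empty_or_nonempty with hS0 | ⟨r, hr⟩
  · have ht0 : ∀ v, t v = 0 := by
      intro v
      by_contra h
      have h1 := ht v h
      rw [hS0] at h1
      exact h1
    refine ⟨fun _ _ => 0, fun _ _ => rfl, fun _ _ h => absurd rfl h, fun v => ?_⟩
    rw [ht0 v]
    simp
  · have hH : ∀ x ∈ S, ∃ J : V → V → ZMod 2, (∀ u v, J u v = J v u) ∧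
        (∀ u v, J u v ≠ 0 → (G.Adj u v ∧ u ∈ S ∧ v ∈ S)) ∧
        ∀ v, ∑ w, J v w = (if v = r then 1 else 0) + (if v = x then 1 else 0) := by
      intro x hx
      have h1 : Relation.ReflTransGen (fun u v => G.Adj u v ∧ u ∈ S ∧ v ∈ S) r x := by
        have h2 := hS r hr x hx
        have h3 : ∀ y, Relation.ReflTransGen (fun a b => b ∈ S ∧ G.Adj a b) r y →
            y ∈ S ∧ Relation.ReflTransGen (fun u v => G.Adj u v ∧ u ∈ S ∧ v ∈ S) r y := by
          intro y hy
          induction hy with
          | refl => exact ⟨hr, Relation.ReflTransGen.refl⟩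
          | tail _ h5 ih => exact ⟨h5.1, ih.2.tail ⟨h5.2, ih.1, h5.1⟩⟩
        exact (h3 x h2).2
      exact join_path (fun u v h => ⟨h.1.symm, h.2.2, h.2.1⟩) (fun u h => G.loopless.irrefl u h.1) h1
    choose! J h1 h2 h3 using hH
    refine ⟨fun u v => ∑ x, t x * J x u v, fun u v => ?_, fun u v h => ?_, fun v => ?_⟩
    · show ∑ x, t x * J x u v = ∑ x, t x * J x v u
      refine sum_congr rfl fun x _ => ?_
      by_cases hx : t x = 0
      · rw [hx, zero_mul, zero_mul]
      · rw [h1 x (ht x hx) u v]
    · obtain ⟨x, -, hx⟩ := exists_ne_zero_of_sum_ne_zero h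
      have hx1 : t x ≠ 0 := fun h' => hx (by rw [h', zero_mul])
      have hx2 : J x u v ≠ 0 := fun h' => hx (by rw [h', mul_zero])
      exact h2 x (ht x hx1) u v hx2
    · show ∑ w, ∑ x, t x * J x v w = t v
      rw [sum_comm]
      have h4 : ∀ x, ∑ w, t x * J x v w =
          (if v = r then 1 else 0) * t x + (if v = x then t x else 0) := by
        intro x
        rw [← mul_sum]
        by_cases hx : t x = 0
        · rw [hx]
          simp
        · rw [h3 x (ht x hx) v, mul_add]
          congr 1
          · rw [mul_comm]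
          · split_ifs <;> simp
      rw [sum_congr rfl fun x _ => h4 x, sum_add_distrib, ← mul_sum, h0, mul_zero, zero_add]
      simp

end Pool.Agent.DC76
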