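import Pool.Agent.DC76.Defs

/-!
# Labels of the edges leaving a set
-/

set_option autoImplicit false

open Finset

namespace Pool.Agent.DC76

variable {V : Type} [Fintype V] [DecidableEq V]

/-- the sum of the labels of the edges of `z` which leave `K` -/
def lab (K : Finset V) (ψ z : V → V → ZMod 2) : ZMod 2 := ∑ u ∈ K, ∑ v ∈ Kᶜ, ψ u v * z u v

/-- Restriction to the edges from `K` to the complement of `K`. -/
def rhoLab (K : Finset V) : (V → V → ZMod 2) →ₗ[ZMod 2] (V → V → ZMod 2) where
  toFun z u v := if u ∈ K ∧ v ∉ K then z u v else 0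
  map_add' := by
    intro y z
    funext u v
    by_cases h : u ∈ K ∧ v ∉ K
    · simp [h]
    · simp only [Pi.add_apply, if_neg h, add_zero]
  map_smul' := by
    intro c z
    funext u v
    by_cases h : u ∈ K ∧ v ∉ K
    · simp [h]
    · simp only [Pi.smul_apply, if_neg h, smul_zero, RingHom.id_apply]

theorem rhoLab_apply (K : Finset V) (z : V → V → ZMod 2) (u v : V) :
    rhoLab K z u v = if u ∈ K ∧ v ∉ K then z u v else 0 := rfl

/-- Restriction to the edges inside a set of a cycle without edges leaving the set. -/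
theorem mem_Z_restr {G : SimpleGraph V} {z : V → V → ZMod 2} (hz : z ∈ Z G Set.univ) (S : Set V)
    [DecidablePred (· ∈ S)] (h : ∀ u ∈ S, ∀ v, v ∉ S → z u v = 0) :
    (fun u v => if u ∈ S ∧ v ∈ S then z u v else 0) ∈ Z G S := by
  obtain ⟨h1, h2, h3⟩ := hz
  refine ⟨fun u v => ?_, fun u v huv => ?_, fun v => ?_⟩
  · by_cases hu : u ∈ S <;> by_cases hv : v ∈ S <;> simp [hu, hv, h1 u v]
  · by_cases huS : u ∈ S ∧ v ∈ S
    · have : z u v ≠ 0 := by simpa [huS] using huv
      exact ⟨(h2 u v this).1, huS.1, huS.2⟩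
    · exact absurd (if_neg huS) huv
  · by_cases hv : v ∈ S
    · refine Eq.trans (Finset.sum_congr rfl fun w _ => ?_) (h3 v)
      by_cases hw : w ∈ S
      · simp [hv, hw]
      · simp [hw, h v hv w hw]
    · exact Finset.sum_eq_zero fun w _ => if_neg fun hh => hv hh.1

theorem lab_eq (K : Finset V) (g : (V → V → ZMod 2) →ₗ[ZMod 2] ZMod 2) (z : V → V → ZMod 2) :
    lab K (fun u v => g (Pi.single u (Pi.single v 1))) z = g (rhoLab K z) := by
  have h : rhoLab K z = ∑ u ∈ K, ∑ v ∈ Kᶜ, z u v • (Pi.single u (Pi.single v 1) : V → V → ZMod 2) := by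
    funext a b
    rw [rhoLab_apply]
    simp only [Finset.sum_apply, Pi.smul_apply]
    have h1 : ∀ u v : V, (Pi.single u (Pi.single v (1 : ZMod 2)) : V → V → ZMod 2) a b =
        if u = a ∧ v = b then 1 else 0 := by
      intro u v
      by_cases hu : u = a
      · subst hu
        rw [Pi.single_eq_same]
        by_cases hv : v = b
        · subst hv
          simp
        · rw [Pi.single_eq_of_ne (Ne.symm hv)]
          simp [hv]
      · rw [Pi.single_eq_of_ne (Ne.symm hu)]
        simp [hu]
    simp only [h1, smul_eq_mul, mul_ite, mul_one, mul_zero]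
    by_cases ha : a ∈ K
    · rw [Finset.sum_eq_single_of_mem a ha (fun u _ hu => Finset.sum_eq_zero fun v _ => if_neg fun hh => hu hh.1)]
      by_cases hb : b ∈ K
      · rw [if_neg (fun hh => hh.2 hb)]
        refine (Finset.sum_eq_zero fun v hv => if_neg fun hh => ?_).symm
        rw [hh.2] at hv
        exact (Finset.mem_compl.1 hv) hb
      · rw [if_pos ⟨ha, hb⟩, Finset.sum_eq_single_of_mem b (Finset.mem_compl.2 hb)
          (fun v _ hv => if_neg fun hh => hv hh.2)]
        simp
    · rw [if_neg (fun hh => ha hh.1)]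
      refine (Finset.sum_eq_zero fun u hu => Finset.sum_eq_zero fun v _ => if_neg fun hh => ?_).symm
      rw [hh.1] at hu
      exact ha hu
  rw [h, map_sum]
  unfold lab
  refine Finset.sum_congr rfl fun u _ => ?_
  rw [map_sum]
  refine Finset.sum_congr rfl fun v _ => ?_
  rw [map_smul, smul_eq_mul, mul_comm]

/-- A subspace of codimension one which contains the cycles inside `K` and outside `K` is given by
labels. -/
theorem label {G : SimpleGraph V} {K : Finset V} {L : Submodule (ZMod 2) (V → V → ZMod 2)}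
    (hL : L ≤ Z G Set.univ) (hK : Z G (K : Set V) ≤ L) (hKc : Z G (K : Set V)ᶜ ≤ L)
    (hne : ¬ Z G Set.univ ≤ L)
    (hfin : Module.finrank (ZMod 2) (Z G Set.univ) ≤ Module.finrank (ZMod 2) L + 1) :
    ∃ ψ : V → V → ZMod 2, (∃ z ∈ Z G Set.univ, lab K ψ z ≠ 0) ∧ (∀ z ∈ L, lab K ψ z = 0) ∧
      ∀ z ∈ Z G Set.univ, lab K ψ z = 0 → z ∈ L := by
  classical
  have hlt : L.submoduleOf (Z G Set.univ) < ⊤ := by
    rw [lt_top_iff_ne_top]
    intro h
    refine hne ?_
    rw [Submodule.submoduleOf_eq_top] at h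
    exact h
  obtain ⟨f, hf0, hf⟩ := Submodule.exists_le_ker_of_lt_top _ hlt
  have hfr : Module.finrank (ZMod 2) (L.submoduleOf (Z G Set.univ)) = Module.finrank (ZMod 2) L :=
    (Submodule.submoduleOfEquivOfLe hL).finrank_eq
  have hker : Module.finrank (ZMod 2) (LinearMap.ker f) + 1 = Module.finrank (ZMod 2) (Z G Set.univ) := by
    have h1 := LinearMap.finrank_range_add_finrank_ker f
    have h2 : LinearMap.range f = ⊤ := by
      rw [LinearMap.range_eq_top]
      exact LinearMap.surjective hf0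
    rw [h2, finrank_top, Module.finrank_self] at h1
    omega
  have heq : L.submoduleOf (Z G Set.univ) = LinearMap.ker f := by
    refine Submodule.eq_of_le_of_finrank_le hf ?_
    rw [hfr]
    omega
  set r : (Z G Set.univ) →ₗ[ZMod 2] (V → V → ZMod 2) := (rhoLab K).comp (Z G Set.univ).subtype with hr
  have hle : LinearMap.ker r ≤ LinearMap.ker f := by
    intro z hz
    rw [← heq]
    change (z : V → V → ZMod 2) ∈ L
    have hz0 : rhoLab K (z : V → V → ZMod 2) = 0 := hz
    have hzK : ∀ u ∈ K, ∀ v, v ∉ K → (z : V → V → ZMod 2) u v = 0 := by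
      intro u hu v hv
      have := congrFun (congrFun hz0 u) v
      rw [rhoLab_apply, if_pos ⟨hu, hv⟩] at this
      exact this
    have hsym := z.2.1
    have e1 := mem_Z_restr (G := G) z.2 (K : Set V) (fun u hu v hv => hzK u (Finset.mem_coe.1 hu) v
      (fun h => hv (Finset.mem_coe.2 h)))
    have e2 := mem_Z_restr (G := G) z.2 ((K : Set V)ᶜ) (fun u hu v hv => by
      rw [hsym u v]
      refine hzK v ?_ u (fun h => hu (Finset.mem_coe.2 h))
      by_contra h
      exact hv (fun h' => h (Finset.mem_coe.1 h')))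
    have e3 : (z : V → V → ZMod 2) = (fun u v => if u ∈ (K : Set V) ∧ v ∈ (K : Set V) then
        (z : V → V → ZMod 2) u v else 0) + (fun u v => if u ∈ (K : Set V)ᶜ ∧ v ∈ (K : Set V)ᶜ then
        (z : V → V → ZMod 2) u v else 0) := by
      funext u v
      simp only [Pi.add_apply, Finset.mem_coe, Set.mem_compl_iff]
      by_cases hu : u ∈ K <;> by_cases hv : v ∈ K
      · simp [hu, hv]
      · simp [hu, hv, hzK u hu v hv]
      · rw [hsym u v, hzK v hv u hu]
        simp
      · simp [hu, hv]
    rw [e3]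
    exact L.add_mem (hK e1) (hKc e2)
  have hmem : f ∈ LinearMap.range r.dualMap := by
    rw [LinearMap.range_dualMap_eq_dualAnnihilator_ker, Submodule.mem_dualAnnihilator]
    intro w hw
    exact hle hw
  obtain ⟨g, hg⟩ := hmem
  have hgr : ∀ z : Z G Set.univ, g (rhoLab K (z : V → V → ZMod 2)) = f z := by
    intro z
    rw [← hg]
    rfl
  refine ⟨fun u v => g (Pi.single u (Pi.single v 1)), ?_, ?_, ?_⟩
  · obtain ⟨z, hz⟩ : ∃ z, f z ≠ 0 := by
      by_contra h
      push Not at h
      exact hf0 (LinearMap.ext h)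
    refine ⟨z, z.2, ?_⟩
    rw [lab_eq, hgr]
    exact hz
  · intro z hz
    rw [lab_eq, hgr ⟨z, hL hz⟩]
    have : (⟨z, hL hz⟩ : Z G Set.univ) ∈ LinearMap.ker f := by
      rw [← heq]
      exact hz
    exact this
  · intro z hz h0
    rw [lab_eq, hgr ⟨z, hz⟩] at h0
    have : (⟨z, hz⟩ : Z G Set.univ) ∈ L.submoduleOf (Z G Set.univ) := by
      rw [heq]
      exact h0
    exact this

end Pool.Agent.DC76
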