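import Pool.Agent.DC76.Core
import Pool.Agent.DC76.FaceRank
import Pool.Agent.DC76.Euler

/-!
# Every graph on a surface of Euler characteristic at least `0` has a `(3, 2)`-colouring
-/

set_option autoImplicit false

open Finset

namespace Pool.Agent.DC76

theorem conn_univ {V : Type} [Fintype V] {G : SimpleGraph V} (hG : G.Connected) :
    Conn G Set.univ := by
  intro x _ y _
  obtain ⟨w⟩ := hG.preconnected x y
  induction w with
  | nil => exact Relation.ReflTransGen.refl
  | cons h _ ih => exact Relation.ReflTransGen.head ⟨trivial, h⟩ (ih trivial trivial)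

/-- Every graph on a closed surface of Euler characteristic at least `0` has a
`(3, 2)`-colouring. -/
theorem main {U : Type} (H : SimpleGraph U) (χ : ℤ) (hχ : 0 ≤ χ) (h : OnSurface χ H) :
    ∃ c : U → Fin 3, Defective H 2 c := by
  classical
  obtain ⟨V, F, _, _, _, G, f, hf, hHG, hG, ⟨M⟩, hM⟩ := h
  have hconn := conn_univ hG
  have h1 := face_rank M
  have h2 := finrank_Z hconn hG.nonempty
  obtain ⟨c, hc⟩ := core hconn (face_mem M) (face_cov M) (by omega)
  refine ⟨fun x => c (f x), fun x => ?_⟩
  refine le_trans ?_ (hc (f x))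
  refine Set.ncard_le_ncard_of_injOn f ?_ hf.injOn (Set.toFinite _)
  rintro y ⟨hy1, hy2⟩
  exact ⟨hHG x y hy1, hy2⟩

end Pool.Agent.DC76
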