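import Pool.Agent.DC76.Defs

/-!
# The `3 × 3` matrices over `ZMod 2` with zero row and column sums
-/

set_option autoImplicit false

open Finset

namespace Pool.Agent.DC76

/-- zero row sums and zero column sums -/
def Mz (M : Fin 3 → Fin 3 → ZMod 2) : Prop := (∀ i, ∑ j, M i j = 0) ∧ ∀ j, ∑ i, M i j = 0

private def m_Mat (a b c d : ZMod 2) : Fin 3 → Fin 3 → ZMod 2 :=
  ![![a, b, a + b], ![c, d, c + d], ![a + c, b + d, a + b + c + d]]

private theorem mz_Mat (a b c d : ZMod 2) : Mz (m_Mat a b c d) := by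
  have h : ∀ a b c d : ZMod 2, (∀ i : Fin 3, ∑ j, m_Mat a b c d i j = 0) ∧
      ∀ j : Fin 3, ∑ i, m_Mat a b c d i j = 0 := by
    unfold m_Mat
    decide
  exact h a b c d

private theorem inj_Mat {a b c d a' b' c' d' : ZMod 2}
    (h : m_Mat a b c d = m_Mat a' b' c' d') : a = a' ∧ b = b' ∧ c = c' ∧ d = d' :=
  ⟨congrFun (congrFun h 0) 0, congrFun (congrFun h 0) 1, congrFun (congrFun h 1) 0,
    congrFun (congrFun h 1) 1⟩

private theorem wt_Mat {M : Fin 3 → Fin 3 → ZMod 2} (hM : Mz M) (h0 : M ≠ 0) :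
    4 ≤ ∑ i : Fin 3, ∑ j : Fin 3, (if M i j ≠ 0 then 1 else 0) := by
  obtain ⟨hr, hc⟩ := hM
  have key : ∀ a b c : ZMod 2, a + b + c = 0 → c = a + b := by decide
  have r0 := hr 0
  have r1 := hr 1
  have r2 := hr 2
  have c0 := hc 0
  have c1 := hc 1
  rw [Fin.sum_univ_three] at r0 r1 r2 c0 c1
  have e02 := key _ _ _ r0
  have e12 := key _ _ _ r1
  have e22 := key _ _ _ r2
  have e20 := key _ _ _ c0
  have e21 := key _ _ _ c1
  have hne : ¬ (M 0 0 = 0 ∧ M 0 1 = 0 ∧ M 1 0 = 0 ∧ M 1 1 = 0) := by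
    rintro ⟨h00, h01, h10, h11⟩
    apply h0
    funext i j
    fin_cases i <;> fin_cases j <;> simp [e02, e12, e22, e20, e21, h00, h01, h10, h11]
  rw [e20, e21] at e22
  simp only [Fin.sum_univ_three, e02, e12, e22, e20, e21]
  generalize M 0 0 = a at hne ⊢
  generalize M 0 1 = b at hne ⊢
  generalize M 1 0 = c at hne ⊢
  generalize M 1 1 = d at hne ⊢
  revert a b c d
  decide

/-- A family of such matrices which covers every entry at most twice does not generate all of them.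

Proof. Suppose every `M` with `Mz M` is `∑ k ∈ T, β k` for some `T ⊆ U`. There are exactly 16
matrices with `Mz` (the four entries `M i j`, `i, j < 2`, are free), and each nonzero one has at
least 4 nonzero entries (`decide` over the four free entries). Let `U' = {k ∈ U | β k ≠ 0}`.
Double counting of the pairs (entry, `k ∈ U'`) gives `4 |U'| ≤ 2 * 9`, so `|U'| ≤ 4`. The subset
sums of `U'` are all the 16 matrices, so `2 ^ |U'| ≥ 16`, hence `|U'| = 4` and different subsets of
`U'` have different sums. So `σ = ∑ k ∈ U', β k ≠ 0`, and `Mz σ`. For every entry the number `n` of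
`k ∈ U'` with `β k i j ≠ 0` is at most `2` and `σ i j = n mod 2`, so
`n + (1 if σ i j ≠ 0 else 0) ≤ 2`. Summing over the 9 entries: `4 * 4 + 4 ≤ 18`, false. -/
theorem mat {κ : Type} (U : Finset κ) (β : κ → Fin 3 → Fin 3 → ZMod 2)
    (h0 : ∀ k ∈ U, Mz (β k)) (h2 : ∀ i j, {k | k ∈ U ∧ β k i j ≠ 0}.ncard ≤ 2) :
    ∃ M, Mz M ∧ ∀ T ⊆ U, ∃ i j, M i j ≠ ∑ k ∈ T, β k i j := by
  classical
  by_contra hcon
  push Not at hcon
  set U' := U.filter (fun k => β k ≠ 0) with hU'
  -- the number of members which are nonzero at an entry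
  set n : Fin 3 → Fin 3 → ℕ := fun i j => ∑ k ∈ U', (if β k i j ≠ 0 then 1 else 0) with hn
  have hn2 : ∀ i j, n i j ≤ 2 := by
    intro i j
    have h1 : n i j = (U'.filter fun k => β k i j ≠ 0).card := by
      rw [Finset.card_filter]
    rw [h1]
    refine le_trans ?_ (h2 i j)
    have h3 : {k | k ∈ U ∧ β k i j ≠ 0} = ((U.filter fun k => β k i j ≠ 0 : Finset κ) : Set κ) := by
      ext k
      simp
    rw [h3, Set.ncard_coe_finset]
    exact Finset.card_le_card (Finset.filter_subset_filter _ (Finset.filter_subset _ _))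
  have hsum : ∑ i : Fin 3, ∑ j : Fin 3, n i j =
      ∑ k ∈ U', ∑ i : Fin 3, ∑ j : Fin 3, (if β k i j ≠ 0 then 1 else 0) := by
    rw [Finset.sum_comm (s := U')]
    refine Finset.sum_congr rfl fun i _ => ?_
    rw [Finset.sum_comm (s := U')]
  have hcard : 4 * U'.card ≤ ∑ i : Fin 3, ∑ j : Fin 3, n i j := by
    rw [hsum, mul_comm, ← smul_eq_mul]
    refine Finset.card_nsmul_le_sum _ _ _ fun k hk => ?_
    obtain ⟨hk1, hk2⟩ := Finset.mem_filter.1 hk
    exact wt_Mat (h0 k hk1) hk2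
  have h18 : ∑ i : Fin 3, ∑ j : Fin 3, n i j ≤ 18 := by
    calc ∑ i : Fin 3, ∑ j : Fin 3, n i j ≤ ∑ i : Fin 3, ∑ j : Fin 3, 2 :=
        Finset.sum_le_sum fun i _ => Finset.sum_le_sum fun j _ => hn2 i j
      _ = 18 := by simp
  have hle : U'.card ≤ 4 := by omega
  -- all the matrices are subset sums of `U'`
  have hT : ∀ M, Mz M → ∃ T ⊆ U', ∀ i j, M i j = ∑ k ∈ T, β k i j := by
    intro M hM
    obtain ⟨T, hTU, hT⟩ := hcon M hM
    refine ⟨T.filter (fun k => β k ≠ 0), Finset.filter_subset_filter _ hTU, fun i j => ?_⟩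
    rw [hT i j]
    symm
    refine Finset.sum_filter_of_ne fun k _ hk h => hk ?_
    rw [h]
    rfl
  choose! T hTU hT using hT
  set g : ZMod 2 × ZMod 2 × ZMod 2 × ZMod 2 → Finset κ := fun q =>
    T (m_Mat q.1 q.2.1 q.2.2.1 q.2.2.2) with hg
  have hgm : ∀ q, m_Mat q.1 q.2.1 q.2.2.1 q.2.2.2 = fun i j => ∑ k ∈ g q, β k i j := by
    intro q
    funext i j
    exact hT _ (mz_Mat _ _ _ _) i j
  have hginj : Function.Injective g := by
    intro q q' h
    have h1 := hgm q
    rw [h, ← hgm q'] at h1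
    obtain ⟨e1, e2, e3, e4⟩ := inj_Mat h1
    exact Prod.ext e1 (Prod.ext e2 (Prod.ext e3 e4))
  have hgmem : ∀ q, g q ∈ U'.powerset := fun q =>
    Finset.mem_powerset.2 (hTU _ (mz_Mat _ _ _ _))
  have h16 : (Finset.univ.image g).card = 16 := by
    rw [Finset.card_image_of_injective _ hginj]
    rfl
  have hsub : Finset.univ.image g ⊆ U'.powerset := by
    intro x hx
    obtain ⟨q, -, rfl⟩ := Finset.mem_image.1 hx
    exact hgmem q
  have h16' := Finset.card_le_card hsub
  rw [h16, Finset.card_powerset] at h16'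
  have h4 : U'.card = 4 := by
    refine le_antisymm hle ?_
    by_contra hlt
    push Not at hlt
    have : 2 ^ U'.card ≤ 2 ^ 3 := Nat.pow_le_pow_right (by norm_num) (by omega)
    omega
  have heq : Finset.univ.image g = U'.powerset := by
    refine Finset.eq_of_subset_of_card_le hsub ?_
    rw [h16, Finset.card_powerset, h4]
    norm_num
  obtain ⟨q, -, hq⟩ := Finset.mem_image.1
    (show U' ∈ Finset.univ.image g by rw [heq]; exact Finset.mem_powerset_self _)
  obtain ⟨q', -, hq'⟩ := Finset.mem_image.1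
    (show ∅ ∈ Finset.univ.image g by rw [heq]; exact Finset.empty_mem_powerset _)
  set σ : Fin 3 → Fin 3 → ZMod 2 := fun i j => ∑ k ∈ U', β k i j with hσ
  have hσq : m_Mat q.1 q.2.1 q.2.2.1 q.2.2.2 = σ := by
    rw [hgm q, hq]
  have hσ0 : σ ≠ 0 := by
    intro h
    have h1 := hgm q'
    rw [hq'] at h1
    have h2 : m_Mat q.1 q.2.1 q.2.2.1 q.2.2.2 = m_Mat q'.1 q'.2.1 q'.2.2.1 q'.2.2.2 := by
      rw [h1, hσq, h]
      funext i j
      simp
    obtain ⟨e1, e2, e3, e4⟩ := inj_Mat h2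
    have h3 : q = q' := Prod.ext e1 (Prod.ext e2 (Prod.ext e3 e4))
    rw [h3, hq'] at hq
    rw [← hq] at h4
    simp at h4
  have hσwt : 4 ≤ ∑ i : Fin 3, ∑ j : Fin 3, (if σ i j ≠ 0 then 1 else 0) := by
    refine wt_Mat ?_ hσ0
    rw [← hσq]
    exact mz_Mat _ _ _ _
  have hcast : ∀ i j, σ i j = (n i j : ZMod 2) := by
    intro i j
    simp only [hσ, hn]
    push_cast
    refine Finset.sum_congr rfl fun k _ => ?_
    have h : ∀ x : ZMod 2, x = if x ≠ 0 then 1 else 0 := by decide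
    exact h _
  have hloc : ∀ i j, (if σ i j ≠ 0 then 1 else 0) + n i j ≤ 2 := by
    intro i j
    have h1 := hn2 i j
    have h2 := hcast i j
    split_ifs with h3
    · have h4 : n i j ≠ 2 := by
        intro h4
        rw [h4] at h2
        exact h3 (by rw [h2]; rfl)
      omega
    · omega
  have hfin : ∑ i : Fin 3, ∑ j : Fin 3, (if σ i j ≠ 0 then 1 else 0) +
      ∑ i : Fin 3, ∑ j : Fin 3, n i j ≤ 18 := by
    rw [← Finset.sum_add_distrib]
    simp only [← Finset.sum_add_distrib]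
    calc _ ≤ ∑ i : Fin 3, ∑ j : Fin 3, 2 :=
        Finset.sum_le_sum fun i _ => Finset.sum_le_sum fun j _ => hloc i j
      _ = 18 := by simp
  omega

end Pool.Agent.DC76
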