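import Pool.Agent.DC76.Defs

/-!
# Merging the members of a family which covers everything at most twice
-/

set_option autoImplicit false

open Finset

namespace Pool.Agent.DC76

private theorem merge_ne {a : ZMod 2} (h : a ≠ 0) : a = 1 := by
  revert a
  decide

/-- the sum over a set which contains all the indices with nonzero entry -/
private theorem merge_sum {ι E : Type} [Fintype ι] (b : ι → E → ZMod 2) (e : E) (r : Finset ι)
    (hr : ∀ j, b j e ≠ 0 → j ∈ r) : ∑ i ∈ r, b i e = ∑ i, b i e := by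
  refine sum_subset (subset_univ r) fun i _ hi => ?_
  by_contra h
  exact hi (hr i h)

/-- a good set which contains one of the two indices contains both -/
private theorem merge_closed {ι E : Type} [Fintype ι] [DecidableEq ι] (b : ι → E → ZMod 2)
    (e : E) (he : {i | b i e ≠ 0}.ncard ≤ 2) (s : Finset ι) (hs : ∑ i ∈ s, b i e = 0) {i : ι}
    (hi : i ∈ s) (hie : b i e ≠ 0) (j : ι) (hj : b j e ≠ 0) : j ∈ s := by
  classical
  by_contra hjs
  have h1 : ∑ k ∈ s.filter (fun k => b k e ≠ 0), b k e = 0 := by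
    rw [sum_filter_ne_zero]
    exact hs
  have h2 : ∀ k ∈ s.filter (fun k => b k e ≠ 0), b k e = 1 := fun k hk =>
    merge_ne (mem_filter.1 hk).2
  rw [sum_congr rfl h2, sum_const, nsmul_eq_mul, mul_one] at h1
  have h3 : {i | b i e ≠ 0} = ((univ.filter fun k => b k e ≠ 0 : Finset ι) : Set ι) := by
    ext k
    simp
  rw [h3, Set.ncard_coe_finset] at he
  have h4 : insert j (s.filter fun k => b k e ≠ 0) ⊆ univ.filter fun k => b k e ≠ 0 := by
    intro k hk
    rw [mem_insert] at hk
    rw [mem_filter]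
    rcases hk with rfl | hk
    · exact ⟨mem_univ _, hj⟩
    · exact ⟨mem_univ _, (mem_filter.1 hk).2⟩
  have h5 := card_le_card h4
  rw [card_insert_of_notMem fun h => hjs (mem_filter.1 h).1] at h5
  have h6 : 0 < (s.filter fun k => b k e ≠ 0).card :=
    card_pos.2 ⟨i, mem_filter.2 ⟨hi, hie⟩⟩
  have h7 : (s.filter fun k => b k e ≠ 0).card = 1 := by omega
  rw [h7] at h1
  exact absurd h1 (by decide)

/-- Atoms. Proof. Call `s : Finset ι` good if `∑ i ∈ s, b i e = 0` for all `e ∈ D`. For `e ∈ D` let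
`I e = {i | b i e ≠ 0}`, at most two elements. In `ZMod 2` the sum is the parity of `|s ∩ I e|`, so
`s` is good iff `|s ∩ I e|` is `0` or `2` for all `e ∈ D`; hence for good `s`, `t` the sets `s ∩ t`
and `s \ t` are good (`|s ∩ I e| = 2` means `I e ⊆ s`). Let `U` be the set of the minimal nonempty
good sets. Two different members are disjoint, as their intersection is good. Every good `s` is the
disjoint union of a subset `T` of `U` all of whose members are contained in `s`: strong induction
on `|s|`; `s = ∅`: `T = ∅`; otherwise take a minimal nonempty good `t ⊆ s`, and `T = T' ∪ {t}` with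
`T'` for the good set `s \ t` (`t ∉ T'`, as `t` is nonempty and not contained in `s \ t`). -/
theorem merge {ι E : Type} [Fintype ι] [DecidableEq ι] (b : ι → E → ZMod 2) (D : Set E)
    (hD : ∀ e ∈ D, {i | b i e ≠ 0}.ncard ≤ 2) :
    ∃ U : Finset (Finset ι), (∀ s ∈ U, ∀ t ∈ U, s ≠ t → Disjoint s t) ∧
      (∀ s ∈ U, ∀ e ∈ D, ∑ i ∈ s, b i e = 0) ∧
      ∀ s : Finset ι, (∀ e ∈ D, ∑ i ∈ s, b i e = 0) →
        ∃ T ⊆ U, ∀ e, ∑ i ∈ s, b i e = ∑ t ∈ T, ∑ i ∈ t, b i e := by
  classical
  obtain ⟨good, hgood⟩ : ∃ good : Finset ι → Prop,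
      ∀ s, good s ↔ ∀ e ∈ D, ∑ i ∈ s, b i e = 0 := ⟨_, fun _ => Iff.rfl⟩
  have hcl : ∀ s, good s → ∀ e ∈ D, ∀ i ∈ s, b i e ≠ 0 → ∀ j, b j e ≠ 0 → j ∈ s := by
    intro s hs e he i hi hie j hj
    exact merge_closed b e (hD e he) s ((hgood s).1 hs e he) hi hie j hj
  have hz : ∀ s, good s → ∀ e ∈ D, ∀ i ∈ s, b i e ≠ 0 → ∑ i, b i e = 0 := by
    intro s hs e he i hi hie
    rw [← merge_sum b e s (hcl s hs e he i hi hie)]
    exact (hgood s).1 hs e he
  have hinter : ∀ s t, good s → good t → good (s ∩ t) := by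
    intro s t hs ht
    rw [hgood]
    intro e he
    by_cases h : ∃ i ∈ s ∩ t, b i e ≠ 0
    · obtain ⟨i, hi, hie⟩ := h
      rw [mem_inter] at hi
      rw [merge_sum b e (s ∩ t) fun j hj => mem_inter.2
        ⟨hcl s hs e he i hi.1 hie j hj, hcl t ht e he i hi.2 hie j hj⟩]
      exact hz s hs e he i hi.1 hie
    · push Not at h
      exact sum_eq_zero h
  have hdiff : ∀ s t, good s → good t → good (s \ t) := by
    intro s t hs ht
    rw [hgood]
    intro e he
    by_cases h : ∃ i ∈ s \ t, b i e ≠ 0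
    · obtain ⟨i, hi, hie⟩ := h
      rw [mem_sdiff] at hi
      rw [merge_sum b e (s \ t) fun j hj => mem_sdiff.2
        ⟨hcl s hs e he i hi.1 hie j hj, fun hjt => hi.2 (hcl t ht e he j hjt hj i hie)⟩]
      exact hz s hs e he i hi.1 hie
    · push Not at h
      exact sum_eq_zero h
  obtain ⟨U, hU⟩ : ∃ U : Finset (Finset ι), ∀ s, s ∈ U ↔ good s ∧ s.Nonempty ∧
      ∀ t, good t → t.Nonempty → t ⊆ s → t = s :=
    ⟨univ.filter fun s => good s ∧ s.Nonempty ∧
      ∀ t, good t → t.Nonempty → t ⊆ s → t = s, fun s => by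
        rw [mem_filter]
        exact ⟨fun h => h.2, fun h => ⟨mem_univ _, h⟩⟩⟩
  have key : ∀ n : ℕ, ∀ s : Finset ι, s.card ≤ n → good s → ∃ T ⊆ U, (∀ t ∈ T, t ⊆ s) ∧
      ∀ e, ∑ i ∈ s, b i e = ∑ t ∈ T, ∑ i ∈ t, b i e := by
    intro n
    induction n with
    | zero =>
      intro s hs _
      have h1 : s = ∅ := card_eq_zero.1 (Nat.le_zero.1 hs)
      refine ⟨∅, empty_subset _, fun t ht => absurd ht (notMem_empty t), fun e => ?_⟩
      rw [h1, sum_empty, sum_empty]
    | succ n ih =>
      intro s hs hsg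
      rcases s.eq_empty_or_nonempty with h1 | h1
      · refine ⟨∅, empty_subset _, fun t ht => absurd ht (notMem_empty t), fun e => ?_⟩
        rw [h1, sum_empty, sum_empty]
      · obtain ⟨t, ht, hmin⟩ := exists_min_image
          (univ.filter fun t : Finset ι => good t ∧ t.Nonempty ∧ t ⊆ s) card
          ⟨s, mem_filter.2 ⟨mem_univ _, hsg, h1, subset_rfl⟩⟩
        obtain ⟨-, htg, htn, hts⟩ := mem_filter.1 ht
        have htU : t ∈ U := by
          rw [hU]
          refine ⟨htg, htn, fun t' ht' htn' htt => ?_⟩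
          exact eq_of_subset_of_card_le htt
            (hmin t' (mem_filter.2 ⟨mem_univ _, ht', htn', htt.trans hts⟩))
        have hlt : (s \ t).card ≤ n := by
          have h2 := card_sdiff_add_card_eq_card hts
          have h3 := card_pos.2 htn
          omega
        obtain ⟨T', hT'U, hT's, hT'⟩ := ih (s \ t) hlt (hdiff s t hsg htg)
        have htT : t ∉ T' := by
          intro h
          obtain ⟨i, hi⟩ := htn
          exact (mem_sdiff.1 (hT's t h hi)).2 hi
        refine ⟨insert t T', ?_, ?_, fun e => ?_⟩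
        · intro r hr
          rcases mem_insert.1 hr with rfl | hr
          · exact htU
          · exact hT'U hr
        · intro r hr
          rcases mem_insert.1 hr with rfl | hr
          · exact hts
          · exact (hT's r hr).trans sdiff_subset
        · rw [sum_insert htT, ← hT' e, add_comm]
          exact (sum_sdiff hts).symm
  refine ⟨U, ?_, ?_, ?_⟩
  · intro s hs t ht hst
    by_contra hcon
    rw [hU] at hs ht
    have h1 : (s ∩ t).Nonempty := by
      rw [← not_disjoint_iff_nonempty_inter]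
      exact hcon
    have h2 := hinter s t hs.1 ht.1
    have h3 := hs.2.2 (s ∩ t) h2 h1 inter_subset_left
    have h4 := ht.2.2 (s ∩ t) h2 h1 inter_subset_right
    exact hst (h3.symm.trans h4)
  · intro s hs
    rw [hU] at hs
    exact (hgood s).1 hs.1
  · intro s hs
    obtain ⟨T, hTU, _, hT⟩ := key s.card s le_rfl ((hgood s).2 hs)
    exact ⟨T, hTU, hT⟩

/-- The merged family covers `e` at most twice. Proof. For `s ∈ U` with `∑ i ∈ s, b i e ≠ 0` choose
`i ∈ s` with `b i e ≠ 0`; this is injective in `s` as the members of `U` are disjoint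
(`Set.ncard_le_ncard_of_injOn`). -/
theorem merge_cov {ι E : Type} [Fintype ι] [DecidableEq ι] (b : ι → E → ZMod 2)
    (U : Finset (Finset ι)) (hU : ∀ s ∈ U, ∀ t ∈ U, s ≠ t → Disjoint s t) (e : E)
    (he : {i | b i e ≠ 0}.ncard ≤ 2) : {s | s ∈ U ∧ ∑ i ∈ s, b i e ≠ 0}.ncard ≤ 2 := by
  rcases isEmpty_or_nonempty ι with hι | hι
  · have h1 : {s : Finset ι | s ∈ U ∧ ∑ i ∈ s, b i e ≠ 0} = ∅ := by
      ext s
      simp only [Set.mem_ofPred_eq, Set.mem_empty_iff_false, iff_false, not_and, not_not]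
      intro _
      exact sum_eq_zero fun i _ => (IsEmpty.false i).elim
    rw [h1, Set.ncard_empty]
    exact Nat.zero_le _
  · have h1 : ∀ s : Finset ι, (s ∈ U ∧ ∑ i ∈ s, b i e ≠ 0) → ∃ i, i ∈ s ∧ b i e ≠ 0 := by
      rintro s ⟨_, hs⟩
      obtain ⟨i, hi, hie⟩ := exists_ne_zero_of_sum_ne_zero hs
      exact ⟨i, hi, hie⟩
    choose! f hf using h1
    refine le_trans (Set.ncard_le_ncard_of_injOn f (fun s hs => (hf s hs).2) ?_
      (Set.toFinite _)) he
    intro s hs t ht hst
    by_contra hne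
    have h2 := hU s hs.1 t ht.1 hne
    have h3 : f s ∈ t := by
      rw [hst]
      exact (hf t ht).1
    exact disjoint_left.1 h2 (hf s hs).1 h3

end Pool.Agent.DC76
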