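import Pool.Agent.DC76.MinDefs

/-!
# Cycles with minimal support, part 1
-/

set_option autoImplicit false

open Finset

namespace Pool.Agent.DC76

variable {V : Type} [Fintype V]

private theorem mem_supp_m1 {z : V → V → ZMod 2} {e : V × V} : e ∈ supp z ↔ z e.1 e.2 ≠ 0 := by
  unfold supp
  rw [mem_filter]
  exact ⟨fun h => h.2, fun h => ⟨mem_univ _, h⟩⟩

private theorem zmod_m1 : ∀ a b : ZMod 2, (a ≠ 0 ↔ b ≠ 0) → a = b := by
  decide

/-- Proof. The set of the cardinalities is nonempty; take the least one. -/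
theorem exists_isMin {G : SimpleGraph V} {L : Submodule (ZMod 2) (V → V → ZMod 2)} {X : Set V}
    (h : ∃ z ∈ Z G Xᶜ, z ∉ L) : ∃ z, IsMin G L X z := by
  obtain ⟨z0, hz0, hz0'⟩ := h
  obtain ⟨z, hz, hmin⟩ := Set.exists_min_image {z | z ∈ Z G Xᶜ ∧ z ∉ L}
    (fun z => (supp z).card) (Set.toFinite _) ⟨z0, hz0, hz0'⟩
  exact ⟨z, hz.1, hz.2, fun y hy hy' => hmin y ⟨hy, hy'⟩⟩

private theorem IsMin.eq_m1 {G : SimpleGraph V} {L : Submodule (ZMod 2) (V → V → ZMod 2)}
    {X : Set V} {z : V → V → ZMod 2} (hz : IsMin G L X z) {y : V → V → ZMod 2}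
    (hy : y ∈ Z G Xᶜ) (hyL : y ∉ L) (hs : ∀ u v, y u v ≠ 0 → z u v ≠ 0) : y = z := by
  have h1 : supp y ⊆ supp z := fun e he => mem_supp_m1.mpr (hs _ _ (mem_supp_m1.mp he))
  have h2 : supp y = supp z := eq_of_subset_of_card_le h1 (hz.2.2 y hy hyL)
  funext u v
  refine zmod_m1 _ _ ⟨hs u v, fun h => ?_⟩
  have h3 : (u, v) ∈ supp z := mem_supp_m1.mpr h
  rw [← h2] at h3
  exact mem_supp_m1.mp h3

/-- Proof. If `y ∉ L` then `|supp z| ≤ |supp y|` and `supp y ⊆ supp z`, so the supports are equal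
and `y = z` (nonzero elements of `ZMod 2` are `1`). If `y ∈ L` then `z + y ∉ L` is a cycle with
`supp (z + y) ⊆ supp z`, so `z + y = z` in the same way and `y = 0`. -/
theorem IsMin.sub {G : SimpleGraph V} {L : Submodule (ZMod 2) (V → V → ZMod 2)} {X : Set V}
    {z : V → V → ZMod 2} (hz : IsMin G L X z) {y : V → V → ZMod 2} (hy : y ∈ Z G Xᶜ)
    (hs : ∀ u v, y u v ≠ 0 → z u v ≠ 0) : y = 0 ∨ y = z := by
  by_cases hyL : y ∈ L
  · left
    have h1 : z + y ∉ L := by
      intro h
      exact hz.2.1 ((Submodule.add_mem_iff_left L hyL).mp h)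
    have h2 := hz.eq_m1 (Submodule.add_mem _ hz.1 hy) h1 (by
      intro u v h
      by_contra h3
      have h4 : y u v = 0 := by
        by_contra h5
        exact hs u v h5 h3
      exact h (by rw [Pi.add_apply, Pi.add_apply, h3, h4, add_zero]))
    exact left_eq_add.mp h2.symm
  · right
    exact hz.eq_m1 hy hyL hs

private theorem other_m1 {G : SimpleGraph V} {y : V → V → ZMod 2} (hy : y ∈ Z G Set.univ)
    {u v : V} (h : y u v ≠ 0) : ∃ w, w ≠ v ∧ y u w ≠ 0 := by
  by_contra hcon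
  push Not at hcon
  have h1 := hy.2.2 u
  rw [sum_eq_single v (fun w _ hw => hcon w hw) (fun h2 => absurd (mem_univ v) h2)] at h1
  exact h h1

/-- A nonzero cycle has at least three edges. Proof. `u ≠ v` (edge of `G`). The sum of `y u w` over
`w` is `0`, so there is `u' ≠ v` with `y u u' ≠ 0`, and in the same way `v' ≠ u` with
`y v v' ≠ 0`. The pairs `(u, v), (v, u), (u, u'), (u', u), (v, v')` are different. -/
theorem five_le {G : SimpleGraph V} {y : V → V → ZMod 2} (hy : y ∈ Z G Set.univ) {u v : V}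
    (h : y u v ≠ 0) : 5 ≤ (supp y).card := by
  classical
  have hsym : ∀ {a b : V}, y a b ≠ 0 → y b a ≠ 0 := by
    intro a b hab
    rw [hy.1 b a]
    exact hab
  have huv : u ≠ v := (hy.2.1 u v h).1.ne
  obtain ⟨u', hu'v, hu'⟩ := other_m1 hy h
  obtain ⟨v', hv'u, hv'⟩ := other_m1 hy (hsym h)
  have huu' : u ≠ u' := (hy.2.1 u u' hu').1.ne
  have hvv' : v ≠ v' := (hy.2.1 v v' hv').1.ne
  have h1 : ({(u, v), (v, u), (u, u'), (u', u), (v, v')} : Finset (V × V)) ⊆ supp y := by
    intro e he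
    simp only [mem_insert, mem_singleton] at he
    rw [mem_supp_m1]
    rcases he with rfl | rfl | rfl | rfl | rfl
    · exact h
    · exact hsym h
    · exact hu'
    · exact hsym hu'
    · exact hv'
  refine le_trans (le_of_eq ?_) (card_le_card h1)
  rw [card_insert_of_notMem, card_insert_of_notMem, card_insert_of_notMem, card_pair]
  · intro h2
    rw [Prod.mk.injEq] at h2
    exact hv'u h2.2.symm
  · simp only [mem_insert, mem_singleton, Prod.mk.injEq, not_or, not_and]
    exact ⟨fun h2 => absurd h2 huu', fun h2 => absurd h2 huv⟩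
  · simp only [mem_insert, mem_singleton, Prod.mk.injEq, not_or, not_and]
    exact ⟨fun h2 => absurd h2.symm huv, fun h2 => absurd h2.symm hu'v, fun _ h2 => hv'u h2.symm⟩
  · simp only [mem_insert, mem_singleton, Prod.mk.injEq, not_or, not_and]
    exact ⟨fun h2 => absurd h2 huv, fun _ h2 => hu'v h2.symm, fun h2 => absurd h2 huu',
      fun h2 => absurd h2 huv⟩

end Pool.Agent.DC76
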