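import Pool.Agent.DC76.Min1

/-!
# Cycles with minimal support, part 2: connectivity
-/

set_option autoImplicit false

open Finset

namespace Pool.Agent.DC76

variable {V : Type} [Fintype V]

open Classical in
/-- The restriction of a symmetric function to a set `C` closed under its edges has the same
boundary on `C` and boundary `0` outside. Proof. For `u ∈ C`, `z u w ≠ 0` implies `w ∈ C`. -/
theorem bd_restrict {z : V → V → ZMod 2} {C : Set V} (hC : ∀ u ∈ C, ∀ v, z u v ≠ 0 → v ∈ C)
    (v : V) : ∑ w, (if v ∈ C ∧ w ∈ C then z v w else 0) = if v ∈ C then ∑ w, z v w else 0 := by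
  by_cases hv : v ∈ C
  · rw [if_pos hv]
    refine sum_congr rfl fun w _ => ?_
    by_cases hw : w ∈ C
    · rw [if_pos ⟨hv, hw⟩]
    · rw [if_neg fun h => hw h.2]
      by_contra h
      exact hw (hC v hv w fun h' => h h'.symm)
  · rw [if_neg hv]
    exact sum_eq_zero fun w _ => if_neg fun h => hv h.1

/-- The support of a minimal cycle is connected.

Proof. `C = {v | ReflTransGen (z-edges) x v}`, `y u v = z u v` if `u, v ∈ C` and `0` otherwise. `C`
is closed under the edges of `z` (and `z` is symmetric), so `y ∈ Z G Xᶜ` (`bd_restrict`), and `y`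
is nonzero at the edge of `z` at `x`. By `IsMin.sub` `y = z`, so the vertex `y₀`, which is on an
edge of `z = y`, is in `C`. -/
theorem IsMin.conn {G : SimpleGraph V} {L : Submodule (ZMod 2) (V → V → ZMod 2)} {X : Set V}
    {z : V → V → ZMod 2} (hz : IsMin G L X z) {x y₀ : V} (hx : ∃ w, z x w ≠ 0)
    (hy : ∃ w, z y₀ w ≠ 0) : Relation.ReflTransGen (fun u v => z u v ≠ 0) x y₀ := by
  classical
  obtain ⟨w, hw⟩ := hx
  obtain ⟨w', hw'⟩ := hy
  obtain ⟨hz1, hz2, hz3⟩ := hz.1
  set C : Set V := {v | Relation.ReflTransGen (fun u v => z u v ≠ 0) x v} with hCd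
  have hC : ∀ u ∈ C, ∀ v, z u v ≠ 0 → v ∈ C := fun u hu v hv => hu.tail hv
  have hxC : x ∈ C := Relation.ReflTransGen.refl
  have hy : (fun u v => if u ∈ C ∧ v ∈ C then z u v else 0) ∈ Z G Xᶜ := by
    refine ⟨fun u v => ?_, fun u v h => ?_, fun v => ?_⟩
    · show (if u ∈ C ∧ v ∈ C then z u v else 0) = if v ∈ C ∧ u ∈ C then z v u else 0
      rw [hz1 u v]
      simp only [and_comm]
    · have h' : (if u ∈ C ∧ v ∈ C then z u v else 0) ≠ 0 := h
      by_cases huv : u ∈ C ∧ v ∈ C
      · rw [if_pos huv] at h'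
        exact hz2 u v h'
      · rw [if_neg huv] at h'
        exact absurd rfl h'
    · show ∑ w, (if v ∈ C ∧ w ∈ C then z v w else 0) = 0
      rw [bd_restrict hC v, hz3 v, ite_self]
  rcases hz.sub hy (fun u v h => by
    have h' : (if u ∈ C ∧ v ∈ C then z u v else 0) ≠ 0 := h
    by_cases huv : u ∈ C ∧ v ∈ C
    · rwa [if_pos huv] at h'
    · rw [if_neg huv] at h'
      exact absurd rfl h') with h | h
  · have h1 := congrFun (congrFun h x) w
    have h2 : (if x ∈ C ∧ w ∈ C then z x w else 0) = 0 := h1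
    rw [if_pos ⟨hxC, hC x hxC w hw⟩] at h2
    exact absurd h2 hw
  · have h1 := congrFun (congrFun h y₀) w'
    have h2 : (if y₀ ∈ C ∧ w' ∈ C then z y₀ w' else 0) = z y₀ w' := h1
    by_cases hc : y₀ ∈ C ∧ w' ∈ C
    · exact hc.1
    · rw [if_neg hc] at h2
      exact absurd h2.symm hw'

end Pool.Agent.DC76
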