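import Pool.Agent.DC76.Min2

/-!
# Cycles with minimal support, part 3: no chords
-/

set_option autoImplicit false

open Finset

namespace Pool.Agent.DC76

variable {V : Type} [Fintype V] [DecidableEq V]

/-- A minimal cycle has no chord.

Proof. Suppose `z u v = 0`. By `IsMin.conn` and `join_path` (with `H a b = (z a b ≠ 0)`, symmetric,
irreflexive since `G` has no loops) there is `J` with `J a b ≠ 0 → z a b ≠ 0` and boundary
`{u, v}`. Let `e = ed u v`, `y1 = J + e`, `y2 = z + J + e`. Both are in `Z G Xᶜ` (`u, v ∈ Xᶜ`, as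
they are on edges of `z`), and `z = y2 - y1 ∉ L`, so `y1 ∉ L` or `y2 ∉ L`. The supports:
`|supp y1| = |supp J| + 2`, `|supp y2| = |supp z| - |supp J| + 2` (`supp J ⊆ supp z`, and the two
pairs of `e` are not in `supp z`). Both contain the pair `(u, v)`, so both are at least `5`
(`five_le`; `Z G Xᶜ ≤ Z G univ`). If `y1 ∉ L` then `|supp z| ≤ |supp J| + 2`, so
`|supp y2| ≤ 4`, contradiction. If `y2 ∉ L` then `|supp J| ≤ 2`, so `|supp y1| ≤ 4`,
contradiction. -/
theorem IsMin.chord {G : SimpleGraph V} {L : Submodule (ZMod 2) (V → V → ZMod 2)} {X : Set V}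
    {z : V → V → ZMod 2} (hz : IsMin G L X z) {u v : V} (hu : ∃ w, z u w ≠ 0)
    (hv : ∃ w, z v w ≠ 0) (huv : G.Adj u v) : z u v ≠ 0 := by
  intro h0
  have hne : u ≠ v := huv.ne
  have hone : ∀ a : ZMod 2, a ≠ 0 → a = 1 := by decide
  have htwo : ∀ a : ZMod 2, a + a = 0 := by decide
  obtain ⟨hzZ, hzL, hmin⟩ := hz
  obtain ⟨hs, hE, hb⟩ := hzZ
  obtain ⟨J, hJ1, hJ2, hJ3⟩ := join_path (H := fun a b => z a b ≠ 0)
    (fun a b h => by rw [← hs a b]; exact h) (fun a h => (hE a a h).1.ne rfl)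
    (IsMin.conn ⟨⟨hs, hE, hb⟩, hzL, hmin⟩ hu hv)
  have h0' : z v u = 0 := by rw [hs v u, h0]
  have hJ0 : J u v = 0 := by
    by_contra h
    exact hJ2 u v h h0
  have huX : u ∈ Xᶜ := by
    obtain ⟨w, hw⟩ := hu
    exact (hE u w hw).2.1
  have hvX : v ∈ Xᶜ := by
    obtain ⟨w, hw⟩ := hv
    exact (hE v w hw).2.1
  obtain ⟨y1, hy1⟩ : ∃ y1, y1 = J + ed u v := ⟨_, rfl⟩
  have hy1Z : y1 ∈ Z G Xᶜ := by
    refine ⟨fun a b => ?_, fun a b h => ?_, fun a => ?_⟩
    · rw [hy1, Pi.add_apply, Pi.add_apply, Pi.add_apply, Pi.add_apply, hJ1, ed_symm]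
    · by_cases hJab : J a b = 0
      · have h1 : ed u v a b ≠ 0 := by
          intro h1
          apply h
          rw [hy1, Pi.add_apply, Pi.add_apply, hJab, h1, add_zero]
        rcases ed_eq h1 with ⟨rfl, rfl⟩ | ⟨rfl, rfl⟩
        · exact ⟨huv, huX, hvX⟩
        · exact ⟨huv.symm, hvX, huX⟩
      · exact hE a b (hJ2 a b hJab)
    · rw [hy1]
      simp only [Pi.add_apply]
      rw [sum_add_distrib, hJ3, ed_bd hne, htwo]
  obtain ⟨y2, hy2⟩ : ∃ y2, y2 = z + y1 := ⟨_, rfl⟩
  have hy2Z : y2 ∈ Z G Xᶜ := by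
    rw [hy2]
    exact Submodule.add_mem _ ⟨hs, hE, hb⟩ hy1Z
  have huniv : ∀ y ∈ Z G Xᶜ, y ∈ Z G Set.univ := by
    rintro y ⟨h1, h2, h3⟩
    exact ⟨h1, fun a b h => ⟨(h2 a b h).1, Set.mem_univ _, Set.mem_univ _⟩, h3⟩
  have hy1uv : y1 u v ≠ 0 := by
    rw [hy1, Pi.add_apply, Pi.add_apply, hJ0, ed_left, zero_add]
    exact one_ne_zero
  have hy2uv : y2 u v ≠ 0 := by
    rw [hy2, Pi.add_apply, Pi.add_apply, h0, zero_add]
    exact hy1uv
  have h51 := five_le (huniv y1 hy1Z) hy1uv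
  have h52 := five_le (huniv y2 hy2Z) hy2uv
  have hP : ({(u, v), (v, u)} : Finset (V × V)).card ≤ 2 := card_le_two
  have hedP : ∀ p : V × V, p ∉ ({(u, v), (v, u)} : Finset (V × V)) → ed u v p.1 p.2 = 0 := by
    intro p hp
    by_contra h
    apply hp
    rw [mem_insert, mem_singleton]
    rcases ed_eq h with ⟨h1, h2⟩ | ⟨h1, h2⟩
    · exact Or.inl (Prod.ext h1 h2)
    · exact Or.inr (Prod.ext h1 h2)
  have hsJ : supp J ⊆ supp z := by
    intro p hp
    unfold supp at hp ⊢
    rw [mem_filter] at hp ⊢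
    exact ⟨mem_univ _, hJ2 _ _ hp.2⟩
  have hc1 : (supp y1).card ≤ (supp J).card + 2 := by
    have hsub : supp y1 ⊆ supp J ∪ {(u, v), (v, u)} := by
      intro p hp
      rw [mem_union]
      by_contra hcon
      rw [not_or] at hcon
      unfold supp at hp hcon
      rw [mem_filter] at hp hcon
      have h1 : J p.1 p.2 = 0 := by
        by_contra h
        exact hcon.1 ⟨mem_univ _, h⟩
      apply hp.2
      rw [hy1, Pi.add_apply, Pi.add_apply, h1, hedP p hcon.2, add_zero]
    exact (card_le_card hsub).trans ((card_union_le _ _).trans (Nat.add_le_add_left hP _))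
  have hc2 : (supp y2).card ≤ (supp z \ supp J).card + 2 := by
    have hsub : supp y2 ⊆ (supp z \ supp J) ∪ {(u, v), (v, u)} := by
      intro p hp
      rw [mem_union, mem_sdiff]
      by_contra hcon
      rw [not_or] at hcon
      unfold supp at hp hcon
      rw [mem_filter] at hp
      apply hp.2
      rw [hy2, hy1, Pi.add_apply, Pi.add_apply, Pi.add_apply, Pi.add_apply, hedP p hcon.2,
        add_zero]
      by_cases h1 : z p.1 p.2 = 0
      · have h2 : J p.1 p.2 = 0 := by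
          by_contra h
          exact hJ2 _ _ h h1
        rw [h1, h2, add_zero]
      · by_cases h2 : J p.1 p.2 = 0
        · exact absurd ⟨mem_filter.2 ⟨mem_univ _, h1⟩, fun h => (mem_filter.1 h).2 h2⟩ hcon.1
        · rw [hone _ h1, hone _ h2]
          exact htwo 1
    exact (card_le_card hsub).trans ((card_union_le _ _).trans (Nat.add_le_add_left hP _))
  have hc3 := card_sdiff_add_card_eq_card hsJ
  by_cases hL1 : y1 ∈ L
  · by_cases hL2 : y2 ∈ L
    · apply hzL
      have h1 : z = y2 - y1 := by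
        rw [hy2, add_sub_cancel_right]
      rw [h1]
      exact Submodule.sub_mem _ hL2 hL1
    · have h1 := hmin y2 hy2Z hL2
      omega
  · have h1 := hmin y1 hy1Z hL1
    omega

end Pool.Agent.DC76
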