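import Pool.Agent.DC76.Join

/-!
# Cycles with minimal support: definitions
-/

set_option autoImplicit false

open Finset

namespace Pool.Agent.DC76

variable {V : Type} [Fintype V]

/-- the support of `z` (ordered pairs) -/
def supp (z : V → V → ZMod 2) : Finset (V × V) := univ.filter fun e => z e.1 e.2 ≠ 0

/-- `z` has minimal support among the cycles outside `X` which are not in `L` -/
def IsMin (G : SimpleGraph V) (L : Submodule (ZMod 2) (V → V → ZMod 2)) (X : Set V)
    (z : V → V → ZMod 2) : Prop :=
  z ∈ Z G Xᶜ ∧ z ∉ L ∧ ∀ y ∈ Z G Xᶜ, y ∉ L → (supp z).card ≤ (supp y).card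

end Pool.Agent.DC76
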