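import Pool.Agent.DC76.Join
import Pool.Agent.DC76.Mat

/-!
# Models of `K_{3,3}`: definitions
-/

set_option autoImplicit false

open Finset

namespace Pool.Agent.DC76

variable {V : Type}

/-- A model of `K_{3,3}` with the branch sets `A, B, {x}` and `{a 0}, {a 1}, {a 2}`: the vertex
`c i j` is a neighbour of `a j` in `A` for `i = 0`, in `B` for `i = 1`, and equal to `x` for
`i = 2`. -/
structure Model (G : SimpleGraph V) (A B : Set V) (x : V) (a : Fin 3 → V)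
    (c : Fin 3 → Fin 3 → V) : Prop where
  disj : Disjoint A B
  inj : Function.Injective a
  xA : x ∉ A
  xB : x ∉ B
  aA : ∀ j, a j ∉ A
  aB : ∀ j, a j ∉ B
  cA : ∀ j, c 0 j ∈ A
  cB : ∀ j, c 1 j ∈ B
  cx : ∀ j, c 2 j = x
  adj : ∀ i j, G.Adj (c i j) (a j)

/-- the pairs which are not inside `A`, not inside `B` and not one of the nine edges -/
def Off (A B : Set V) (a : Fin 3 → V) (c : Fin 3 → Fin 3 → V) : Set (V × V) :=
  {e | ¬ (e.1 ∈ A ∧ e.2 ∈ A) ∧ ¬ (e.1 ∈ B ∧ e.2 ∈ B) ∧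
    ∀ i j, e ≠ (c i j, a j) ∧ e ≠ (a j, c i j)}

end Pool.Agent.DC76
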