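import Pool.Agent.DC76.SepDefs

/-!
# Separations: existence
-/

set_option autoImplicit false

open Finset

namespace Pool.Agent.DC76

variable {V : Type} [Fintype V]

section sepWalks

variable {W : Type}

private def sepR (G : SimpleGraph W) (P Q S : Set W) (a b : W) : Prop :=
  b ∉ S ∧ G.Adj a b ∧ ¬ (a ∈ P ∧ b ∈ Q) ∧ ¬ (a ∈ Q ∧ b ∈ P)

private def sepA (G : SimpleGraph W) (P Q S : Set W) : Set W :=
  {v | ∃ p ∈ P, Relation.ReflTransGen (sepR G P Q S) p v}

private theorem sepR_comm (G : SimpleGraph W) (P Q S : Set W) : sepR G P Q S = sepR G Q P S := by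
  funext a b
  apply propext
  unfold sepR
  tauto

private theorem sep_sub {G : SimpleGraph W} {P Q S : Set W} : P ⊆ sepA G P Q S :=
  fun p hp => ⟨p, hp, Relation.ReflTransGen.refl⟩

private theorem sep_step {G : SimpleGraph W} {P Q S : Set W} {a b : W} (ha : a ∈ sepA G P Q S)
    (h : sepR G P Q S a b) : b ∈ sepA G P Q S := by
  obtain ⟨p, hp, hpa⟩ := ha
  exact ⟨p, hp, hpa.tail h⟩

private theorem sep_end {G : SimpleGraph W} {P Q S : Set W} {a b : W} (ha : a ∉ S)
    (h : Relation.ReflTransGen (sepR G P Q S) a b) : b ∉ S := by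
  cases h with
  | refl => exact ha
  | tail _ h2 => exact h2.1

private theorem sep_disj {G : SimpleGraph W} {P Q S : Set W} (hS : Disjoint P S) :
    Disjoint (sepA G P Q S) S := by
  rw [Set.disjoint_left]
  rintro v ⟨p, hp, hpv⟩
  exact sep_end (Set.disjoint_left.mp hS hp) hpv

private theorem sepR_symm {G : SimpleGraph W} {P Q S : Set W} {a b : W} (ha : a ∉ S)
    (h : sepR G P Q S a b) : sepR G P Q S b a := by
  obtain ⟨_, h2, h3, h4⟩ := h
  exact ⟨ha, h2.symm, fun h => h4 ⟨h.2, h.1⟩, fun h => h3 ⟨h.2, h.1⟩⟩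

private theorem sep_rev {G : SimpleGraph W} {P Q S : Set W} {a b : W} (ha : a ∉ S)
    (h : Relation.ReflTransGen (sepR G P Q S) a b) :
    Relation.ReflTransGen (sepR G P Q S) b a := by
  induction h with
  | refl => exact Relation.ReflTransGen.refl
  | tail h1 h2 ih => exact Relation.ReflTransGen.head (sepR_symm (sep_end ha h1) h2) ih

private theorem sep_walk {G : SimpleGraph W} {P Q S : Set W} {a b : W} (ha : a ∈ sepA G P Q S)
    (h : Relation.ReflTransGen (sepR G P Q S) a b) : b ∈ sepA G P Q S ∧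
      Relation.ReflTransGen (fun x y => y ∈ sepA G P Q S ∧ G.Adj x y) a b := by
  induction h with
  | refl => exact ⟨ha, Relation.ReflTransGen.refl⟩
  | tail _ h2 ih =>
    have h3 := sep_step ih.1 h2
    exact ⟨h3, ih.2.tail ⟨h3, h2.2.1⟩⟩

private theorem sep_conn {G : SimpleGraph W} {P Q S : Set W} (hP : Conn G P)
    (hS : Disjoint P S) : Conn G (sepA G P Q S) := by
  intro x hx y hy
  have hxA := hx
  obtain ⟨p, hp, hpx⟩ := hx
  obtain ⟨q, hq, hqy⟩ := hy
  have h1 := (sep_walk hxA (sep_rev (Set.disjoint_left.mp hS hp) hpx)).2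
  have h2 : Relation.ReflTransGen (fun x y => y ∈ sepA G P Q S ∧ G.Adj x y) p q :=
    Relation.ReflTransGen.mono (fun a b (h : b ∈ P ∧ G.Adj a b) =>
      (⟨sep_sub h.1, h.2⟩ : b ∈ sepA G P Q S ∧ G.Adj a b)) _ _ (hP p hp q hq)
  have h3 := (sep_walk (sep_sub hq) hqy).2
  exact (h1.trans h2).trans h3

private theorem sep_out {G : SimpleGraph W} {P Q S : Set W} {a r : W} (ha : a ∈ sepA G P Q S)
    (hr : r ∉ sepA G P Q S) (hrS : r ∉ S) (h : G.Adj a r) : a ∈ P ∧ r ∈ Q := by
  by_contra h1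
  refine hr (sep_step ha ⟨hrS, h, h1, fun h2 => hr (sep_sub h2.2)⟩)

private theorem sep_base {G : SimpleGraph W} {P Q : Set W} : sepA G P Q (P ∪ Q)ᶜ ⊆ P := by
  rintro v ⟨p, hp, hpv⟩
  induction hpv with
  | refl => exact hp
  | tail _ h2 ih =>
    obtain ⟨h3, _, h5, _⟩ := h2
    rcases not_not.mp h3 with h6 | h6
    · exact h6
    · exact absurd ⟨ih, h6⟩ h5

private theorem sep_less {G : SimpleGraph W} {P Q S : Set W} {s : W}
    (hs : ∀ a ∈ sepA G P Q S, ¬ G.Adj s a) : sepA G P Q (S \ {s}) ⊆ sepA G P Q S := by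
  rintro v ⟨p, hp, hpv⟩
  induction hpv with
  | refl => exact sep_sub hp
  | tail _ h2 ih =>
    obtain ⟨h3, h4, h5, h6⟩ := h2
    refine sep_step ih ⟨fun h7 => ?_, h4, h5, h6⟩
    rename_i b c _
    by_cases h8 : c = s
    · subst h8
      exact hs _ ih h4.symm
    · exact h3 ⟨h7, h8⟩

private theorem sep_nbr {G : SimpleGraph W} {P Q S : Set W} (hQS : Disjoint Q S)
    (hAB : Disjoint (sepA G P Q S) (sepA G Q P S)) {s : W}
    (hmin : ¬ Disjoint (sepA G P Q (S \ {s})) (sepA G Q P (S \ {s}))) :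
    ∃ a ∈ sepA G P Q S, G.Adj s a := by
  by_contra hno
  push Not at hno
  have hsub := sep_less hno
  rw [Set.not_disjoint_iff] at hmin
  obtain ⟨v, hvA, q, hq, hqv⟩ := hmin
  rw [sepR_comm] at hqv
  have hqS : q ∉ S \ {s} := fun h => Set.disjoint_left.mp hQS hq h.1
  have h1 : q ∈ sepA G P Q (S \ {s}) := (sep_walk hvA (sep_rev hqS hqv)).1
  exact Set.disjoint_left.mp hAB (hsub h1) (sep_sub hq)

end sepWalks

/-- Existence of a separation.

Proof. For `S` let `R S a b` be: `b ∉ S`, `G.Adj a b`, not (`a ∈ P` and `b ∈ Q`), not (`a ∈ Q` and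
`b ∈ P`). `A S = {v | ∃ p ∈ P, ReflTransGen (R S) p v}`, `B S` the same from `Q`. Call `S`
separating if it is disjoint from `P ∪ Q` and `A S`, `B S` are disjoint. `(P ∪ Q)ᶜ` is separating
(`A S = P`, `B S = Q`). Take a separating `S` with the least number of elements, `A = A S`,
`B = B S`. `AS`, `BS`: `P`, `Q` are disjoint from `S` and each step ends outside `S`. `cA`: `P` is
connected and a walk of `R S` from `p ∈ P` stays in `A` (note `P ⊆ A`; reverse the walk for the
other direction). `outA`: if `a ∈ A`, `r ∉ A`, `r ∉ S`, `G.Adj a r`, then `R S a r` fails, so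
`a ∈ P ∧ r ∈ Q` or `a ∈ Q ∧ r ∈ P`; the latter is impossible as `P ⊆ A`. `sA`: suppose `s ∈ S` has
no neighbour in `A`; `S' = S \ {s}` is not separating, so there is `v ∈ A S' ∩ B S'`. By induction
on the walk every vertex of `A S'` is in `A S` (a step from `A S` cannot end in `s`). The walk of
`R S'` from `q ∈ Q` to `v` can be reversed (its inner vertices and `q` are not in `S'`), so
`q ∈ A S' = A S`, and `q ∈ B S`: contradiction. `sB` is symmetric. -/
theorem exists_sepn {G : SimpleGraph V} {P Q : Set V} (hP : Conn G P) (hQ : Conn G Q)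
    (hPn : P.Nonempty) (hQn : Q.Nonempty) (hPQ : Disjoint P Q) : ∃ S A B, Sepn G P Q S A B := by
  have hbase : ({S : Set V | Disjoint P S ∧ Disjoint Q S ∧
      Disjoint (sepA G P Q S) (sepA G Q P S)}).Nonempty := by
    refine ⟨(P ∪ Q)ᶜ, ?_, ?_, ?_⟩
    · rw [Set.disjoint_left]
      intro x hx h
      exact h (Or.inl hx)
    · rw [Set.disjoint_left]
      intro x hx h
      exact h (Or.inr hx)
    · rw [Set.disjoint_left]
      intro x hx hx'
      have h1 := sep_base hx
      rw [Set.union_comm] at hx'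
      exact Set.disjoint_left.mp hPQ h1 (sep_base hx')
  obtain ⟨S, ⟨hPS, hQS, hAB⟩, hmin⟩ :=
    WellFounded.has_min (InvImage.wf Set.ncard Nat.lt_wfRel.wf) _ hbase
  have hmin' : ∀ s ∈ S, ¬ Disjoint (sepA G P Q (S \ {s})) (sepA G Q P (S \ {s})) := by
    intro s hs hd
    have h1 : (S \ {s}).ncard < S.ncard := Set.ncard_sdiff_singleton_lt_of_mem hs (Set.toFinite S)
    exact hmin (S \ {s}) ⟨hPS.mono_right Set.sdiff_subset, hQS.mono_right Set.sdiff_subset, hd⟩ h1
  refine ⟨S, sepA G P Q S, sepA G Q P S, sep_sub, sep_sub, hAB, sep_disj hPS, sep_disj hQS,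
    sep_conn hP hPS, sep_conn hQ hQS, ?_, ?_, ?_, ?_⟩
  · intro s hs
    exact sep_nbr hQS hAB (hmin' s hs)
  · intro s hs
    refine sep_nbr hPS hAB.symm (fun h => hmin' s hs h.symm)
  · intro a ha r hr hrS h
    exact sep_out ha hr hrS h
  · intro b hb r hr hrS h
    exact sep_out hb hr hrS h

end Pool.Agent.DC76
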