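import Pool.Agent.DC76.Defs

/-!
# Separations: definition
-/

set_option autoImplicit false

open Finset

namespace Pool.Agent.DC76

variable {V : Type} [Fintype V]

/-- `S` separates `P ⊆ A` from `Q ⊆ B` up to direct edges between `P` and `Q`; `A` and `B` are
connected and every vertex of `S` has neighbours in both. -/
structure Sepn (G : SimpleGraph V) (P Q S A B : Set V) : Prop where
  PA : P ⊆ A
  QB : Q ⊆ B
  AB : Disjoint A B
  AS : Disjoint A S
  BS : Disjoint B S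
  cA : Conn G A
  cB : Conn G B
  sA : ∀ s ∈ S, ∃ a ∈ A, G.Adj s a
  sB : ∀ s ∈ S, ∃ b ∈ B, G.Adj s b
  outA : ∀ a ∈ A, ∀ r, r ∉ A → r ∉ S → G.Adj a r → a ∈ P ∧ r ∈ Q
  outB : ∀ b ∈ B, ∀ r, r ∉ B → r ∉ S → G.Adj b r → b ∈ Q ∧ r ∈ P

end Pool.Agent.DC76
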