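import Pool.Agent.DC76.SplitDefs

/-!
# The split graph: connectivity
-/

set_option autoImplicit false

open Finset

namespace Pool.Agent.DC76

variable {V : Type} [Fintype V] [DecidableEq V] {G : SimpleGraph V} {K : Finset V}
  {ψ : V → V → ZMod 2}

/-- Proof. `inl` maps the edges inside `K` to edges. -/
theorem conn_cop1 (hK : Conn G (K : Set V)) : Conn (Gs G K ψ) (cop1 K) := by
  rintro _ ⟨u, hu, rfl⟩ _ ⟨v, hv, rfl⟩
  have h := hK u hu v hv
  have key : ∀ w, Relation.ReflTransGen (fun a b => b ∈ (K : Set V) ∧ G.Adj a b) u w →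
      w ∈ (K : Set V) ∧ Relation.ReflTransGen (fun a b => b ∈ cop1 K ∧ (Gs G K ψ).Adj a b)
        (Sum.inl u : V ⊕ K) (Sum.inl w) := by
    intro w hw
    induction hw with
    | refl => exact ⟨hu, Relation.ReflTransGen.refl⟩
    | tail _ hbc ih =>
      obtain ⟨hb, hr⟩ := ih
      refine ⟨hbc.1, hr.tail ⟨⟨_, hbc.1, rfl⟩, hbc.2, fun _ h => ?_, fun _ h => ?_⟩⟩
      · exact absurd hbc.1 h
      · exact absurd hb h
  exact (key v h).2

/-- Proof. `inr` maps the edges inside `K` to edges. -/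
theorem conn_cop2 (hK : Conn G (K : Set V)) : Conn (Gs G K ψ) (cop2 K) := by
  rintro _ ⟨⟨u, hu⟩, rfl⟩ _ ⟨⟨v, hv⟩, rfl⟩
  have h := hK u hu v hv
  have key : ∀ w, Relation.ReflTransGen (fun a b => b ∈ (K : Set V) ∧ G.Adj a b) u w →
      ∃ hw : w ∈ K, Relation.ReflTransGen (fun a b => b ∈ cop2 K ∧ (Gs G K ψ).Adj a b)
        (Sum.inr ⟨u, hu⟩ : V ⊕ K) (Sum.inr ⟨w, hw⟩) := by
    intro w hw
    induction hw with
    | refl => exact ⟨hu, Relation.ReflTransGen.refl⟩
    | tail _ hbc ih =>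
      obtain ⟨hb, hr⟩ := ih
      exact ⟨hbc.1, hr.tail ⟨⟨_, rfl⟩, hbc.2⟩⟩
  exact (key v h).2

theorem cop_disj : Disjoint (cop1 K) (cop2 K) := by
  rw [Set.disjoint_left]
  rintro _ ⟨u, _, rfl⟩ ⟨v, hv⟩
  cases hv

/-- Proof. `inl u` with `u ∈ K` is not adjacent to any `inr v`. -/
theorem cop_no : ∀ p ∈ cop1 K, ∀ q ∈ cop2 K, ¬ (Gs G K ψ).Adj p q := by
  rintro _ ⟨u, hu, rfl⟩ _ ⟨v, rfl⟩ h
  exact h.2.1 hu

/-- A symmetric function with zero diagonal and values in `ZMod 2` has sum `0` on a square. -/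
private theorem sum_sq {C : Finset V} {z : V → V → ZMod 2} (hs : ∀ u v, z u v = z v u)
    (hd : ∀ v, z v v = 0) : ∑ v ∈ C, ∑ u ∈ C, z v u = 0 := by
  rw [← sum_product']
  refine sum_involution (fun p _ => (p.2, p.1)) ?_ ?_ ?_ ?_
  · rintro ⟨a, b⟩ _
    simp only
    rw [hs b a]
    exact CharTwo.add_self_eq_zero _
  · rintro ⟨a, b⟩ _ hne h
    simp only [Prod.mk.injEq] at h
    obtain ⟨h1, _⟩ := h
    subst h1
    exact hne (hd _)
  · rintro ⟨a, b⟩ h
    simp only [mem_product] at h ⊢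
    exact ⟨h.2, h.1⟩
  · rintro ⟨a, b⟩ _
    rfl

/-- The split graph is connected.

Proof. Every vertex `inl v` with `v ∉ K` is joined in the split graph to a vertex of `cop1 K` or of
`cop2 K` (walk in `G` from `v` to `K`, first vertex in `K`: the part outside `K` lifts, and the last
edge lifts to an edge to `inl u` or to `inr u` by its label). As both copies are connected it
suffices that some vertex of `cop1 K` is joined to some vertex of `cop2 K`. Suppose not. Let `C` be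
the set of the `v ∉ K` such that `inl v` is joined to `cop2 K`. Then: an edge of `G` between
`u ∈ K` and `v ∈ C` has label `ψ u v ≠ 0` (otherwise `inl v` is joined to both copies), an edge
between `u ∈ K` and `v ∉ K`, `v ∉ C` has label `0`, and there is no edge between `C` and
`(K ∪ C)ᶜ`. So for the cycle `z` of `hex`:
`lab K ψ z = ∑ u ∈ K, ∑ v ∈ C, z u v = ∑ v ∈ C, ∑ u ∉ C, z v u`
`= ∑ v ∈ C, ∑ u, z v u - ∑ v ∈ C, ∑ u ∈ C, z v u = 0 - 0` (symmetry and zero diagonal; values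
in `ZMod 2`), contradiction. -/
theorem conn_split (hG : Conn G Set.univ) (hK : Conn G (K : Set V)) (hKn : K.Nonempty)
    (hex : ∃ z ∈ Z G Set.univ, lab K ψ z ≠ 0) : Conn (Gs G K ψ) Set.univ := by
  classical
  obtain ⟨u0, hu0⟩ := hKn
  set J : V ⊕ K → V ⊕ K → Prop :=
    Relation.ReflTransGen (fun a b => b ∈ (Set.univ : Set (V ⊕ K)) ∧ (Gs G K ψ).Adj a b) with hJ
  have hsymm : ∀ x y, J x y → J y x := by
    intro x y h
    induction h with
    | refl => exact Relation.ReflTransGen.refl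
    | tail _ hbc ih => exact ih.head ⟨Set.mem_univ _, (Gs G K ψ).adj_symm hbc.2⟩
  have htrans : ∀ x y w, J x y → J y w → J x w := fun x y w h1 h2 => h1.trans h2
  have hadj : ∀ x y, (Gs G K ψ).Adj x y → J x y := fun x y h =>
    Relation.ReflTransGen.single ⟨Set.mem_univ _, h⟩
  have hll : ∀ u v : V, G.Adj u v → (u ∈ K → v ∉ K → ψ u v = 0) → (v ∈ K → u ∉ K → ψ v u = 0) →
      J (Sum.inl u) (Sum.inl v) := fun u v a b c => hadj _ _ ⟨a, b, c⟩
  have hlr : ∀ (v : V) (u : K), G.Adj v u → v ∉ K → ψ u v ≠ 0 → J (Sum.inl v) (Sum.inr u) :=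
    fun v u a b c => hadj _ _ ⟨a, b, c⟩
  have hmono : ∀ S : Set (V ⊕ K), Conn (Gs G K ψ) S → ∀ x ∈ S, ∀ y ∈ S, J x y := by
    intro S hS x hx y hy
    have h := hS x hx y hy
    clear hy
    induction h with
    | refl => exact Relation.ReflTransGen.refl
    | tail _ hbc ih => exact ih.tail ⟨Set.mem_univ _, hbc.2⟩
  have h1 := hmono _ (conn_cop1 (ψ := ψ) hK)
  have h2 := hmono _ (conn_cop2 (ψ := ψ) hK)
  have hc1 : ∀ u ∈ K, (Sum.inl u : V ⊕ K) ∈ cop1 K := fun u hu => ⟨u, hu, rfl⟩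
  have hc2 : ∀ u : K, (Sum.inr u : V ⊕ K) ∈ cop2 K := fun u => ⟨u, rfl⟩
  -- every vertex is joined to one of the copies
  have hreach : ∀ v : V, ∃ k, (k ∈ cop1 K ∨ k ∈ cop2 K) ∧ J (Sum.inl v) k := by
    intro v
    have hw := hG v (Set.mem_univ _) u0 (Set.mem_univ _)
    induction hw using Relation.ReflTransGen.head_induction_on with
    | refl => exact ⟨Sum.inl u0, Or.inl (hc1 _ hu0), Relation.ReflTransGen.refl⟩
    | @head a b hab _ ih =>
      obtain ⟨k, hk, hbk⟩ := ih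
      by_cases ha : a ∈ K
      · exact ⟨Sum.inl a, Or.inl (hc1 _ ha), Relation.ReflTransGen.refl⟩
      · by_cases hb : b ∈ K
        · by_cases hψ : ψ b a = 0
          · exact ⟨Sum.inl b, Or.inl (hc1 _ hb),
              hll a b hab.2 (fun h => absurd h ha) fun _ _ => hψ⟩
          · exact ⟨Sum.inr ⟨b, hb⟩, Or.inr (hc2 _), hlr a ⟨b, hb⟩ hab.2 ha hψ⟩
        · exact ⟨k, hk, htrans _ _ _
            (hll a b hab.2 (fun h => absurd h ha) fun h => absurd h hb) hbk⟩
  by_cases hjoin : ∃ p ∈ cop1 K, ∃ q ∈ cop2 K, J p q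
  · obtain ⟨p, hp, q, hq, hpq⟩ := hjoin
    have hall : ∀ x : V ⊕ K, J x p := by
      rintro (v | v)
      · obtain ⟨k, hk | hk, hvk⟩ := hreach v
        · exact htrans _ _ _ hvk (h1 _ hk _ hp)
        · exact htrans _ _ _ hvk (htrans _ _ _ (h2 _ hk _ hq) (hsymm _ _ hpq))
      · exact htrans _ _ _ (h2 _ (hc2 v) _ hq) (hsymm _ _ hpq)
    intro x _ y _
    exact htrans _ _ _ (hall x) (hsymm _ _ (hall y))
  · exfalso
    obtain ⟨z, ⟨hz1, hz2, hz3⟩, hz⟩ := hex
    apply hz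
    set C : Finset V := univ.filter fun v => v ∉ K ∧ ∃ q ∈ cop2 K, J (Sum.inl v) q with hC
    have hCK : ∀ v ∈ C, v ∉ K := fun v hv => (mem_filter.1 hv).2.1
    have ha : ∀ u ∈ K, ∀ v ∈ C, G.Adj u v → ψ u v ≠ 0 := by
      intro u hu v hv huv hψ
      obtain ⟨_, hvK, q, hq, hvq⟩ := mem_filter.1 hv
      exact hjoin ⟨Sum.inl u, hc1 _ hu, q, hq, htrans _ _ _
        (hll u v huv (fun _ _ => hψ) fun h => absurd h hvK) hvq⟩
    have hb : ∀ u ∈ K, ∀ v, v ∉ K → v ∉ C → G.Adj u v → ψ u v = 0 := by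
      intro u hu v hv hvC huv
      by_contra hψ
      apply hvC
      exact mem_filter.2 ⟨mem_univ _, hv, Sum.inr ⟨u, hu⟩, hc2 _, hlr v ⟨u, hu⟩ huv.symm hv hψ⟩
    have hc : ∀ v ∈ C, ∀ w, w ∉ K → w ∉ C → ¬ G.Adj v w := by
      intro v hv w hw hwC hvw
      obtain ⟨_, hvK, q, hq, hvq⟩ := mem_filter.1 hv
      apply hwC
      exact mem_filter.2 ⟨mem_univ _, hw, q, hq, htrans _ _ _
        (hll w v hvw.symm (fun h => absurd h hw) fun h => absurd h hvK) hvq⟩
    have hd : ∀ v, z v v = 0 := by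
      intro v
      by_contra h
      exact G.loopless.irrefl v (hz2 v v h).1
    have hone : ∀ a : ZMod 2, a ≠ 0 → a = 1 := by decide
    have e1 : lab K ψ z = ∑ u ∈ K, ∑ v ∈ C, z u v := by
      unfold lab
      refine sum_congr rfl fun u hu => ?_
      rw [← sum_subset (s₁ := C) (s₂ := Kᶜ)]
      · refine sum_congr rfl fun v hv => ?_
        by_cases h : z u v = 0
        · rw [h, mul_zero]
        · rw [hone _ (ha u hu v hv (hz2 u v h).1), one_mul]
      · intro v hv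
        exact mem_compl.2 (hCK v hv)
      · intro v hv hvC
        by_cases h : z u v = 0
        · rw [h, mul_zero]
        · rw [hb u hu v (mem_compl.1 hv) hvC (hz2 u v h).1, zero_mul]
    have e2 : ∑ u ∈ K, ∑ v ∈ C, z u v = ∑ v ∈ C, ∑ u ∈ K, z v u := by
      rw [sum_comm]
      exact sum_congr rfl fun v _ => sum_congr rfl fun u _ => hz1 u v
    have e3 : ∀ v ∈ C, ∑ u ∈ K, z v u + ∑ u ∈ C, z v u = 0 := by
      intro v hv
      rw [← sum_union (disjoint_left.2 fun x hx hxC => hCK x hxC hx), ← hz3 v]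
      refine sum_subset (subset_univ _) fun w _ hw => ?_
      rw [mem_union, not_or] at hw
      by_contra h
      exact hc v hv w hw.1 hw.2 (hz2 v w h).1
    have e4 : ∑ v ∈ C, ∑ u ∈ K, z v u + ∑ v ∈ C, ∑ u ∈ C, z v u = 0 := by
      rw [← sum_add_distrib]
      exact sum_eq_zero e3
    rw [sum_sq hz1 hd, add_zero] at e4
    rw [e1, e2, e4]

end Pool.Agent.DC76
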