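import Pool.Agent.DC76.Label

/-!
# The split graph: definitions
-/

set_option autoImplicit false

open Finset

namespace Pool.Agent.DC76

variable {V : Type} [Fintype V] [DecidableEq V]

/-- The split graph: `K` is replaced by two copies, `inl` and `inr`. An edge between `u ∈ K` and
`v ∉ K` is attached to the copy `inl u` if its label `ψ u v` is `0` and to the copy `inr u`
otherwise. -/
def Gs (G : SimpleGraph V) (K : Finset V) (ψ : V → V → ZMod 2) : SimpleGraph (V ⊕ K) where
  Adj x y := match x, y with
    | .inl u, .inl v => G.Adj u v ∧ (u ∈ K → v ∉ K → ψ u v = 0) ∧ (v ∈ K → u ∉ K → ψ v u = 0)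
    | .inl v, .inr u => G.Adj v u ∧ v ∉ K ∧ ψ u v ≠ 0
    | .inr u, .inl v => G.Adj v u ∧ v ∉ K ∧ ψ u v ≠ 0
    | .inr u, .inr v => G.Adj (u : V) v
  symm := by
    constructor
    rintro (u | u) (v | v) h
    · exact ⟨h.1.symm, h.2.2, h.2.1⟩
    · exact h
    · exact h
    · exact G.adj_symm h
  loopless := by
    constructor
    rintro (u | u) h
    · exact G.loopless.irrefl u h.1
    · exact G.loopless.irrefl (u : V) h

/-- the projection -/
def pr {K : Finset V} : V ⊕ K → V := Sum.elim id fun u => (u : V)

/-- the first copy of `K` -/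
def cop1 (K : Finset V) : Set (V ⊕ K) := Sum.inl '' (K : Set V)

/-- the second copy of `K` -/
def cop2 (K : Finset V) : Set (V ⊕ K) := Set.range Sum.inr

/-- the image of an edge set under the projection -/
def push {K : Finset V} (z : V ⊕ K → V ⊕ K → ZMod 2) : V → V → ZMod 2 :=
  fun u v => ∑ x, ∑ y, if pr x = u ∧ pr y = v then z x y else 0

end Pool.Agent.DC76
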