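import Pool.Agent.DC76.SplitDefs

/-!
# The split graph: projecting cycles
-/

set_option autoImplicit false

open Finset

namespace Pool.Agent.DC76

variable {V : Type} [Fintype V] [DecidableEq V] {G : SimpleGraph V} {K : Finset V}
  {ψ : V → V → ZMod 2}

/-- the sum of a function over the fibre of the projection -/
def fib {K : Finset V} (f : V ⊕ K → ZMod 2) (u : V) : ZMod 2 :=
  f (.inl u) + if h : u ∈ K then f (.inr ⟨u, h⟩) else 0

theorem sum_fib (f : V ⊕ K → ZMod 2) (u : V) :
    ∑ x, (if pr x = u then f x else 0) = fib f u := by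
  rw [Fintype.sum_sum_type]
  unfold fib
  congr 1
  · rw [sum_eq_single u]
    · simp [pr]
    · intro b _ hb
      simp [pr, hb]
    · intro h
      exact absurd (mem_univ u) h
  · by_cases h : u ∈ K
    · rw [dif_pos h, sum_eq_single ⟨u, h⟩]
      · simp [pr]
      · intro b _ hb
        have : (b : V) ≠ u := fun h' => hb (Subtype.ext h')
        simp [pr, this]
      · intro h
        exact absurd (mem_univ _) h
    · rw [dif_neg h]
      refine sum_eq_zero fun b _ => ?_
      have : (b : V) ≠ u := fun h' => h (h' ▸ b.2)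
      simp [pr, this]

theorem push_apply (z : V ⊕ K → V ⊕ K → ZMod 2) (u v : V) :
    push z u v = fib (fun x => fib (z x) v) u := by
  rw [← sum_fib]
  unfold push
  refine sum_congr rfl fun x _ => ?_
  by_cases h : pr x = u
  · rw [if_pos h, ← sum_fib]
    refine sum_congr rfl fun y _ => ?_
    simp [h]
  · rw [if_neg h]
    refine sum_eq_zero fun y _ => ?_
    simp [h]

omit [Fintype V] [DecidableEq V] in
theorem adj_pr {x y : V ⊕ K} (h : (Gs G K ψ).Adj x y) : G.Adj (pr x) (pr y) := by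
  rcases x with u | u <;> rcases y with v | v
  · exact h.1
  · exact h.1
  · exact h.1.symm
  · exact h

omit [Fintype V] [DecidableEq V] in
theorem sum_symm_zero {α : Type} [Fintype α] [DecidableEq α] {f : α → α → ZMod 2}
    (h1 : ∀ u v, f u v = f v u) (h2 : ∀ u, f u u = 0) : ∑ u, ∑ v, f u v = 0 := by
  rw [← Fintype.sum_prod_type']
  refine sum_involution (fun p _ => p.swap) ?_ ?_ (fun _ _ => mem_univ _) (fun _ _ => rfl)
  · rintro ⟨u, v⟩ _
    change f u v + f v u = 0
    rw [h1 v u]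
    exact CharTwo.add_self_eq_zero _
  · rintro ⟨u, v⟩ _ h h'
    apply h
    have : v = u := congrArg Prod.fst h'
    change f u v = 0
    rw [this]
    exact h2 u

/-- The projection of a cycle is a cycle. Proof. Symmetry: `Finset.sum_comm`. Support: `pr` maps
edges to edges. Boundary: `∑ v, push z u v = ∑ x with pr x = u, ∑ y, z x y = 0`. -/
theorem push_mem {z : V ⊕ K → V ⊕ K → ZMod 2} (hz : z ∈ Z (Gs G K ψ) Set.univ) :
    push z ∈ Z G Set.univ := by
  obtain ⟨hz1, hz2, hz3⟩ := hz
  refine ⟨fun u v => ?_, fun u v h => ?_, fun u => ?_⟩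
  · unfold push
    rw [sum_comm]
    refine sum_congr rfl fun y _ => sum_congr rfl fun x _ => ?_
    rw [hz1 x y]
    simp only [and_comm]
  · obtain ⟨x, -, hx⟩ := exists_ne_zero_of_sum_ne_zero h
    obtain ⟨y, -, hy⟩ := exists_ne_zero_of_sum_ne_zero hx
    have h1 : pr x = u ∧ pr y = v := by
      by_contra h1
      exact hy (if_neg h1)
    rw [if_pos h1] at hy
    refine ⟨?_, trivial, trivial⟩
    rw [← h1.1, ← h1.2]
    exact adj_pr (hz2 x y hy).1
  · unfold push
    rw [sum_comm]
    refine sum_eq_zero fun x _ => ?_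
    rw [sum_comm]
    by_cases h : pr x = u
    · refine (sum_congr rfl fun y _ => ?_).trans (hz3 x)
      rw [sum_eq_single (pr y)]
      · simp [h]
      · intro v _ hv
        exact if_neg fun h' => hv h'.2.symm
      · intro h
        exact absurd (mem_univ _) h
    · exact sum_eq_zero fun y _ => sum_eq_zero fun v _ => if_neg fun h' => h h'.1

/-- The projection of a cycle has label `0`. Proof. For `u ∈ K`, `v ∉ K`:
`push z u v = z (inl u) (inl v) + z (inr u) (inl v)`; the first term is nonzero only if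
`ψ u v = 0`, the second only if `ψ u v ≠ 0` (so `= 1`). So `lab K ψ (push z)` is the sum over `u : K`
and `v ∉ K` of `z (inr u) (inl v)`, which is
`∑ u, (∑ y, z (inr u) y) - ∑ u, ∑ u', z (inr u) (inr u') = 0 - 0` (`z (inr u) (inl v) = 0` for
`v ∈ K`; the double sum is `0` in `ZMod 2` by symmetry and zero diagonal). -/
theorem lab_push {z : V ⊕ K → V ⊕ K → ZMod 2} (hz : z ∈ Z (Gs G K ψ) Set.univ) :
    lab K ψ (push z) = 0 := by
  have h1 : ∀ u : K, ∑ v ∈ Kᶜ, ψ u v * push z u v = ∑ u', z (.inr u) (.inr u') := by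
    intro u
    have h2 : ∑ v ∈ Kᶜ, ψ u v * push z u v = ∑ v ∈ Kᶜ, z (.inr u) (.inl v) := by
      refine sum_congr rfl fun v hv => ?_
      rw [mem_compl] at hv
      have e1 : push z u v = z (.inl (u : V)) (.inl v) + z (.inr u) (.inl v) := by
        rw [push_apply]
        unfold fib
        simp [hv]
      rw [e1, mul_add]
      have e2 : ψ u v * z (.inl (u : V)) (.inl v) = 0 := by
        by_cases h : z (.inl (u : V)) (.inl v) = 0
        · rw [h, mul_zero]
        · rw [(hz.2.1 _ _ h).1.2.1 u.2 hv, zero_mul]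
      have e3 : ψ u v * z (.inr u) (.inl v) = z (.inr u) (.inl v) := by
        by_cases h : z (.inr u) (.inl v) = 0
        · rw [h, mul_zero]
        · have h3 : ψ u v ≠ 0 := (hz.2.1 _ _ h).1.2.2
          have h4 : ∀ a : ZMod 2, a ≠ 0 → a = 1 := by decide
          rw [h4 _ h3, one_mul]
      rw [e2, e3, zero_add]
    have h3 : ∑ v ∈ K, z (.inr u) (.inl v) = 0 := by
      refine sum_eq_zero fun v hv => ?_
      by_contra h
      exact (hz.2.1 _ _ h).1.2.1 hv
    have h4 := hz.2.2 (.inr u)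
    rw [Fintype.sum_sum_type, ← sum_add_sum_compl K, h3, zero_add] at h4
    rw [h2]
    exact CharTwo.add_eq_zero.1 h4
  unfold lab
  rw [← sum_coe_sort K (fun u => ∑ v ∈ Kᶜ, ψ u v * push z u v)]
  rw [sum_congr rfl fun u _ => h1 u]
  refine sum_symm_zero (fun u v => hz.1 _ _) fun u => ?_
  by_contra h
  exact (Gs G K ψ).loopless.irrefl _ (hz.2.1 _ _ h).1

/-- Outside the copies the projection is injective on edges. Proof. `x = inl u`, `y = inl v`, not
both `u, v ∈ K`: if `u, v ∉ K` the only pair over `(u, v)` is `(x, y)`; if `u ∈ K`, `v ∉ K` the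
other pair is `(inr u, inl v)`, where `z` is `0` since `ψ u v = 0`; the same for `v ∈ K`. Case
`x = inl v`, `v ∉ K`, `y = inr u`, `ψ u v ≠ 0`: the other pair is `(inl v, inl u)`, not adjacent.
The case `x = inr u` is symmetric. -/
theorem push_eq {z : V ⊕ K → V ⊕ K → ZMod 2} (hz : z ∈ Z (Gs G K ψ) Set.univ) {x y : V ⊕ K}
    (hxy : (Gs G K ψ).Adj x y) (h1 : ¬ (x ∈ cop1 K ∧ y ∈ cop1 K))
    (h2 : ¬ (x ∈ cop2 K ∧ y ∈ cop2 K)) : push z (pr x) (pr y) = z x y := by
  rw [push_apply]
  have h0 : ∀ {x y : V ⊕ K}, ¬ (Gs G K ψ).Adj x y → z x y = 0 := by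
    intro x y h
    by_contra h'
    exact h (hz.2.1 _ _ h').1
  rcases x with u | u <;> rcases y with v | v
  · have h3 : ¬ (u ∈ K ∧ v ∈ K) := fun h => h1 ⟨⟨u, h.1, rfl⟩, ⟨v, h.2, rfl⟩⟩
    change fib (fun x => fib (z x) v) u = _
    unfold fib
    by_cases hu : u ∈ K
    · have hv : v ∉ K := fun hv => h3 ⟨hu, hv⟩
      have e1 : z (.inr ⟨u, hu⟩) (.inl v) = 0 := h0 fun h => h.2.2 (hxy.2.1 hu hv)
      simp [hu, hv, e1]
    · by_cases hv : v ∈ K
      · have e1 : z (.inl u) (.inr ⟨v, hv⟩) = 0 := h0 fun h => h.2.2 (hxy.2.2 hv hu)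
        simp [hu, hv, e1]
      · simp [hu, hv]
  · have e1 : z (.inl u) (.inl (v : V)) = 0 := h0 fun h => hxy.2.2 (h.2.2 v.2 hxy.2.1)
    have hu : u ∉ K := hxy.2.1
    change fib (fun x => fib (z x) (v : V)) u = _
    unfold fib
    simp [hu, e1]
  · have hv : v ∉ K := hxy.2.1
    have e1 : z (.inl (u : V)) (.inl v) = 0 := h0 fun h => hxy.2.2 (h.2.1 u.2 hv)
    change fib (fun x => fib (z x) v) (u : V) = _
    unfold fib
    simp [hv, e1]
  · exact absurd ⟨⟨u, rfl⟩, ⟨v, rfl⟩⟩ h2

end Pool.Agent.DC76
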