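import Pool.Agent.DC76.SplitLift
import Pool.Agent.DC76.SplitPush

/-!
# The split graph has a frame
-/

set_option autoImplicit false

open Finset

namespace Pool.Agent.DC76

variable {V : Type} [Fintype V] [DecidableEq V] {G : SimpleGraph V} {K : Finset V}
  {ψ : V → V → ZMod 2}

open Classical in
omit [DecidableEq V] in
/-- The restriction of a cycle to a set which it does not leave. -/
theorem restrict_mem {S : Set V} {y : V → V → ZMod 2} (hy : y ∈ Z G Set.univ)
    (h : ∀ x ∈ S, ∀ x' ∉ S, y x x' = 0) :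
    (fun x x' => if x ∈ S ∧ x' ∈ S then y x x' else 0) ∈ Z G S := by
  refine ⟨fun u v => ?_, fun u v h' => ?_, fun u => ?_⟩
  · simp only [and_comm, hy.1 u v]
  · have h1 : u ∈ S ∧ v ∈ S := by
      by_contra h1
      exact h' (if_neg h1)
    simp only [if_pos h1] at h'
    exact ⟨(hy.2.1 u v h').1, h1.1, h1.2⟩
  · by_cases hu : u ∈ S
    · refine (sum_congr rfl fun v _ => ?_).trans (hy.2.2 u)
      change (if u ∈ S ∧ v ∈ S then y u v else 0) = y u v
      by_cases hv : v ∈ S
      · rw [if_pos ⟨hu, hv⟩]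
      · rw [if_neg fun h1 => hv h1.2, h u hu v hv]
    · exact sum_eq_zero fun v _ => if_neg fun h1 => hu h1.1

/-- The frame of the split graph.

Proof. `b' i` is the lift of `b i` (`split_lift`). `cov`: if `x`, `y` are not adjacent, all
`b' i x y = 0`; otherwise `b' i x y = b i (pr x) (pr y)`. `gen`: let `z ∈ Z (Gs G K ψ) univ`. By
`push_mem`, `lab_push` and `hgen` `push z = ∑ i ∈ s, b i + p`, `p ∈ Z G K`. Let
`y = z - ∑ i ∈ s, b' i`. If `x`, `x'` are adjacent in the split graph, not both in `cop1 K` and not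
both in `cop2 K`, then `z x x' = push z (pr x) (pr x')` (`push_eq`), and `p (pr x) (pr x') = 0`,
because not both of `pr x`, `pr x'` are in `K` (one in each copy is impossible: not adjacent). So
`y x x' = 0`. Hence `y` is the sum of its restrictions to `cop1 K × cop1 K` and
`cop2 K × cop2 K`, which are cycles (a vertex of `cop1 K` keeps all its edges of `y`). -/
theorem split_frame (hK : Conn G (K : Set V)) {ι : Type} [Fintype ι] {b : ι → V → V → ZMod 2}
    (hcyc : ∀ i, b i ∈ Z G Set.univ) (hcov : ∀ u v, {i | b i u v ≠ 0}.ncard ≤ 2)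
    (hlab : ∀ i, lab K ψ (b i) = 0)
    (hgen : ∀ z ∈ Z G Set.univ, lab K ψ z = 0 →
      ∃ s : Finset ι, ∃ p ∈ Z G (K : Set V), z = ∑ i ∈ s, b i + p) :
    ∃ b' : ι → V ⊕ K → V ⊕ K → ZMod 2, Frame (Gs G K ψ) (cop1 K) (cop2 K) b' := by
  classical
  choose b' hb1 hb2 using fun i => split_lift hK (hcyc i) (hlab i)
  refine ⟨b', hb1, fun x y h1 h2 => ?_, fun z hz => ?_⟩
  · by_cases hxy : (Gs G K ψ).Adj x y
    · have : {i | b' i x y ≠ 0} = {i | b i (pr x) (pr y) ≠ 0} := by
        ext i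
        simp only [Set.mem_ofPred_eq]
        rw [hb2 i x y hxy h1 h2]
      rw [this]
      exact hcov _ _
    · have : {i | b' i x y ≠ 0} = ∅ := by
        ext i
        simp only [Set.mem_ofPred_eq, Set.mem_empty_iff_false, iff_false, not_not]
        by_contra h
        exact hxy ((hb1 i).2.1 x y h).1
      rw [this]
      simp
  · obtain ⟨s, p, hp, hs⟩ := hgen (push z) (push_mem hz) (lab_push hz)
    set y : V ⊕ K → V ⊕ K → ZMod 2 := z - ∑ i ∈ s, b' i with hy
    have hyZ : y ∈ Z (Gs G K ψ) Set.univ :=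
      Submodule.sub_mem _ hz (Submodule.sum_mem _ fun i _ => hb1 i)
    have hno : ∀ x ∈ cop1 K, ∀ x' ∈ cop2 K, ¬ (Gs G K ψ).Adj x x' := by
      rintro _ ⟨u, hu, rfl⟩ _ ⟨v, rfl⟩ h
      exact h.2.1 hu
    have hprK : ∀ x, pr x ∈ K → x ∈ cop1 K ∨ x ∈ cop2 K := by
      rintro (u | u) h
      · exact Or.inl ⟨u, h, rfl⟩
      · exact Or.inr ⟨u, rfl⟩
    have hy0 : ∀ x x', ¬ (x ∈ cop1 K ∧ x' ∈ cop1 K) → ¬ (x ∈ cop2 K ∧ x' ∈ cop2 K) →
        y x x' = 0 := by
      intro x x' h1 h2
      by_cases hxy : (Gs G K ψ).Adj x x'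
      · have h3 := push_eq hz hxy h1 h2
        have h4 : p (pr x) (pr x') = 0 := by
          by_contra h4
          obtain ⟨-, h5, h6⟩ := hp.2.1 _ _ h4
          rcases hprK x h5 with h7 | h7 <;> rcases hprK x' h6 with h8 | h8
          · exact h1 ⟨h7, h8⟩
          · exact hno x h7 x' h8 hxy
          · exact hno x' h8 x h7 hxy.symm
          · exact h2 ⟨h7, h8⟩
        have h5 := congrFun (congrFun hs (pr x)) (pr x')
        simp only [Pi.add_apply, Finset.sum_apply] at h5
        rw [h3, h4, add_zero] at h5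
        have h6 : y x x' = z x x' - ∑ i ∈ s, b' i x x' := by
          rw [hy]
          simp only [Pi.sub_apply, Finset.sum_apply]
        rw [h6, h5, sub_eq_zero]
        exact sum_congr rfl fun i _ => (hb2 i x x' hxy h1 h2).symm
      · by_contra h
        exact hxy (hyZ.2.1 _ _ h).1
    have hdis : ∀ x, x ∈ cop1 K → x ∉ cop2 K := by
      rintro _ ⟨u, hu, rfl⟩ ⟨v, hv⟩
      cases hv
    refine ⟨s, _, restrict_mem (S := cop1 K) hyZ fun x hx x' hx' => hy0 x x' (fun h => hx' h.2)
      (fun h => hdis x hx h.1), _, restrict_mem (S := cop2 K) hyZ fun x hx x' hx' =>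
      hy0 x x' (fun h => hdis x h.1 hx) (fun h => hx' h.2), ?_⟩
    have h9 : z = ∑ i ∈ s, b' i + y := by
      rw [hy]
      abel
    rw [add_assoc]
    refine h9.trans (congrArg _ ?_)
    funext x x'
    simp only [Pi.add_apply]
    by_cases h1 : x ∈ cop1 K ∧ x' ∈ cop1 K
    · rw [if_pos h1, if_neg fun h2 => hdis x h1.1 h2.1, add_zero]
    · by_cases h2 : x ∈ cop2 K ∧ x' ∈ cop2 K
      · rw [if_neg h1, if_pos h2, zero_add]
      · rw [if_neg h1, if_neg h2, add_zero, hy0 x x' h1 h2]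

end Pool.Agent.DC76
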