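import Pool.Agent.DC76.SplitDefs
import Pool.Agent.DC76.Join
import Pool.Agent.DC76.SplitConn

/-!
# The split graph: lifting cycles
-/

set_option autoImplicit false

open Finset

namespace Pool.Agent.DC76

variable {V : Type} [Fintype V] [DecidableEq V] {G : SimpleGraph V} {K : Finset V}
  {ψ : V → V → ZMod 2}

private theorem sl_sum {X : Type} [Fintype X] (f : X → X → ZMod 2) (hs : ∀ x y, f x y = f y x)
    (hd : ∀ x, f x x = 0) : ∑ x, ∑ y, f x y = 0 := by
  classical
  rw [← Fintype.sum_prod_type']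
  refine Finset.sum_involution (fun p _ => (p.2, p.1)) ?_ ?_ ?_ ?_
  · intro p _
    rw [hs p.2 p.1]
    exact CharTwo.add_self_eq_zero _
  · intro p _ hp he
    apply hp
    have h1 : p.1 = p.2 := (congrArg Prod.snd he)
    rw [h1]
    exact hd _
  · intro p _
    exact Finset.mem_univ _
  · intro p _
    rfl

private theorem sl_z2 (a b : ZMod 2) : a * b = if a ≠ 0 then b else 0 := by
  revert a b
  decide

omit [Fintype V] [DecidableEq V] in
private theorem sl_cop1 {K : Finset V} (v : V) : (Sum.inl v : V ⊕ K) ∈ cop1 K ↔ v ∈ K := by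
  unfold cop1
  rw [Sum.inl_injective.mem_set_image]
  exact Finset.mem_coe

omit [Fintype V] [DecidableEq V] in
private theorem sl_cop1r {K : Finset V} (v : K) : (Sum.inr v : V ⊕ K) ∉ cop1 K := by
  rintro ⟨u, _, hu⟩
  exact Sum.inl_ne_inr hu

omit [Fintype V] [DecidableEq V] in
private theorem sl_cop2 {K : Finset V} (v : V) : (Sum.inl v : V ⊕ K) ∉ cop2 K := by
  rintro ⟨u, hu⟩
  exact Sum.inr_ne_inl hu

omit [Fintype V] [DecidableEq V] in
private theorem sl_cop2r {K : Finset V} (v : K) : (Sum.inr v : V ⊕ K) ∈ cop2 K := ⟨v, rfl⟩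

open Classical in
/-- Lifting a cycle of label `0`.

Proof. Let `z0 x y = z (pr x) (pr y)` if `(Gs G K ψ).Adj x y` and not (`x, y ∈ cop2 K`), and `0`
otherwise; symmetric. Its boundary at `inl v` with `v ∉ K` is `∑ w, z v w = 0`: for each `w` with
`z v w ≠ 0` exactly one of `inl w`, `inr w` is adjacent to `inl v` (`inr w` makes sense only for
`w ∈ K`). Its boundary at `inr u` is `t u = ∑ v ∈ Kᶜ with ψ u v ≠ 0, z u v = ∑ v ∈ Kᶜ, ψ u v * z u v`,
and `∑ u ∈ K, t u = lab K ψ z = 0`. The sum of the boundary over all vertices is `0` (symmetric,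
zero diagonal), so its sum over `cop1 K` is `0` as well. `join` for the connected sets `cop1 K`
and `cop2 K` gives `J1`, `J2` with these boundaries, and `z' = z0 + J1 + J2`. -/
theorem split_lift (hK : Conn G (K : Set V)) {z : V → V → ZMod 2} (hz : z ∈ Z G Set.univ)
    (h0 : lab K ψ z = 0) :
    ∃ z' ∈ Z (Gs G K ψ) Set.univ, ∀ x y, (Gs G K ψ).Adj x y → ¬ (x ∈ cop1 K ∧ y ∈ cop1 K) →
      ¬ (x ∈ cop2 K ∧ y ∈ cop2 K) → z' x y = z (pr x) (pr y) := by
  classical
  obtain ⟨hz1, hz2, hz3⟩ := hz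
  have hza : ∀ u v, z u v ≠ 0 → G.Adj u v := fun u v h => (hz2 u v h).1
  set z0 : V ⊕ K → V ⊕ K → ZMod 2 := fun x y =>
    if (Gs G K ψ).Adj x y ∧ ¬ (x ∈ cop2 K ∧ y ∈ cop2 K) then z (pr x) (pr y) else 0 with hz0
  have z0s : ∀ x y, z0 x y = z0 y x := by
    intro x y
    simp only [hz0]
    rw [hz1 (pr x) (pr y)]
    refine if_congr ?_ rfl rfl
    rw [(Gs G K ψ).adj_comm x y, and_comm (a := x ∈ cop2 K)]
  have z0d : ∀ x, z0 x x = 0 := by
    intro x
    simp only [hz0]
    rw [if_neg]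
    intro h
    exact (Gs G K ψ).loopless.irrefl x h.1
  have z0a : ∀ x y, z0 x y ≠ 0 → (Gs G K ψ).Adj x y := by
    intro x y h
    by_contra hn
    apply h
    simp only [hz0]
    rw [if_neg]
    exact fun h' => hn h'.1
  have hll : ∀ v w : V, v ∉ K → z0 (Sum.inl v) (Sum.inl w) =
      if w ∈ K ∧ ψ w v ≠ 0 then 0 else z v w := by
    intro v w hv
    simp only [hz0]
    by_cases h1 : w ∈ K ∧ ψ w v ≠ 0
    · rw [if_pos h1, if_neg]
      rintro ⟨⟨_, _, h3⟩, _⟩
      exact h1.2 (h3 h1.1 hv)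
    · rw [if_neg h1]
      by_cases h2 : G.Adj v w
      · rw [if_pos]
        · rfl
        · refine ⟨⟨h2, fun h => absurd h hv, fun h _ => ?_⟩, fun h => sl_cop2 v h.1⟩
          by_contra hn
          exact h1 ⟨h, hn⟩
      · rw [if_neg (fun h => h2 h.1.1)]
        by_contra hn
        exact h2 (hza v w (fun h => hn h.symm))
  have hlr : ∀ (v : V) (w : K), v ∉ K → z0 (Sum.inl v) (Sum.inr w) =
      if ψ w v ≠ 0 then z v w else 0 := by
    intro v w hv
    simp only [hz0]
    by_cases h1 : ψ w v ≠ 0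
    · rw [if_pos h1]
      by_cases h2 : G.Adj v w
      · rw [if_pos]
        · rfl
        · exact ⟨⟨h2, hv, h1⟩, fun h => sl_cop2 v h.1⟩
      · rw [if_neg (fun h => h2 h.1.1)]
        by_contra hn
        exact h2 (hza v w (fun h => hn h.symm))
    · rw [if_neg h1, if_neg]
      rintro ⟨⟨_, _, h3⟩, _⟩
      exact h1 h3
  have hlr0 : ∀ (v : V) (w : K), v ∈ K → z0 (Sum.inl v) (Sum.inr w) = 0 := by
    intro v w hv
    simp only [hz0]
    rw [if_neg]
    rintro ⟨⟨_, h2, _⟩, _⟩
    exact h2 hv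
  have hrr : ∀ (v w : K), z0 (Sum.inr v) (Sum.inr w) = 0 := by
    intro v w
    simp only [hz0]
    rw [if_neg]
    exact fun h => h.2 ⟨sl_cop2r v, sl_cop2r w⟩
  set t : V ⊕ K → ZMod 2 := fun x => ∑ y, z0 x y with ht
  have htot : ∑ x, t x = 0 := sl_sum z0 z0s z0d
  have hout : ∀ v : V, v ∉ K → t (Sum.inl v) = 0 := by
    intro v hv
    simp only [ht]
    rw [Fintype.sum_sum_type, ← hz3 v]
    have e1 : ∑ w : V, z0 (Sum.inl v) (Sum.inl w) =
        ∑ w : V, if w ∈ K ∧ ψ w v ≠ 0 then 0 else z v w :=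
      Finset.sum_congr rfl fun w _ => hll v w hv
    have e2 : ∑ w : K, z0 (Sum.inl v) (Sum.inr w) =
        ∑ w : V, if w ∈ K ∧ ψ w v ≠ 0 then z v w else 0 := by
      rw [Finset.sum_congr rfl fun (w : K) _ => hlr v w hv]
      rw [Finset.sum_coe_sort K (fun w => if ψ w v ≠ 0 then z v w else 0)]
      rw [← Finset.sum_filter, ← Finset.sum_filter]
      apply Finset.sum_congr _ (fun _ _ => rfl)
      ext w
      simp only [Finset.mem_filter, Finset.mem_univ, true_and]
    rw [e1, e2, ← Finset.sum_add_distrib]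
    apply Finset.sum_congr rfl
    intro w _
    split_ifs
    · exact zero_add _
    · exact add_zero _
  have hin2 : ∑ u : K, t (Sum.inr u) = 0 := by
    rw [← h0]
    unfold lab
    rw [← Finset.sum_coe_sort K (fun u => ∑ v ∈ Kᶜ, ψ u v * z u v)]
    apply Finset.sum_congr rfl
    intro u _
    simp only [ht]
    rw [Fintype.sum_sum_type]
    have e3 : ∑ w : K, z0 (Sum.inr u) (Sum.inr w) = 0 :=
      Finset.sum_eq_zero fun w _ => hrr u w
    rw [e3, add_zero]
    rw [← Finset.sum_add_sum_compl K (fun v => z0 (Sum.inr u) (Sum.inl v))]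
    have e4 : ∑ v ∈ K, z0 (Sum.inr u) (Sum.inl v) = 0 :=
      Finset.sum_eq_zero fun v hv => by rw [z0s, hlr0 v u hv]
    rw [e4, zero_add]
    apply Finset.sum_congr rfl
    intro v hv
    rw [Finset.mem_compl] at hv
    rw [z0s, hlr v u hv, sl_z2, hz1 v u]
  have hin1 : ∑ v : V, t (Sum.inl v) = 0 := by
    rw [Fintype.sum_sum_type, hin2, add_zero] at htot
    exact htot
  obtain ⟨J1, j11, j12, j13⟩ := join (conn_cop1 (ψ := ψ) hK)
    (fun x => if x ∈ cop1 K then t x else 0)
    (fun x hx => by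
      by_contra hn
      exact hx (if_neg hn))
    (by
      rw [Fintype.sum_sum_type]
      have e5 : ∑ u : K, (if (Sum.inr u : V ⊕ K) ∈ cop1 K then t (Sum.inr u) else 0) = 0 :=
        Finset.sum_eq_zero fun u _ => if_neg (sl_cop1r u)
      rw [e5, add_zero]
      refine Eq.trans ?_ hin1
      apply Finset.sum_congr rfl
      intro v _
      by_cases hv : v ∈ K
      · rw [if_pos ((sl_cop1 v).2 hv)]
      · rw [if_neg (fun h => hv ((sl_cop1 v).1 h)), hout v hv])
  obtain ⟨J2, j21, j22, j23⟩ := join (conn_cop2 (ψ := ψ) hK)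
    (fun x => if x ∈ cop2 K then t x else 0)
    (fun x hx => by
      by_contra hn
      exact hx (if_neg hn))
    (by
      rw [Fintype.sum_sum_type]
      have e5 : ∑ v : V, (if (Sum.inl v : V ⊕ K) ∈ cop2 K then t (Sum.inl v) else 0) = 0 :=
        Finset.sum_eq_zero fun v _ => if_neg (sl_cop2 v)
      rw [e5, zero_add]
      refine Eq.trans ?_ hin2
      exact Finset.sum_congr rfl fun u _ => if_pos (sl_cop2r u))
  refine ⟨fun x y => z0 x y + J1 x y + J2 x y, ⟨?_, ?_, ?_⟩, ?_⟩
  · intro x y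
    dsimp only
    rw [z0s, j11, j21]
  · intro x y h
    refine ⟨?_, Set.mem_univ _, Set.mem_univ _⟩
    by_contra hn
    apply h
    dsimp only
    have a0 : z0 x y = 0 := by
      by_contra h'
      exact hn (z0a x y h')
    have a1 : J1 x y = 0 := by
      by_contra h'
      exact hn (j12 x y h').1
    have a2 : J2 x y = 0 := by
      by_contra h'
      exact hn (j22 x y h').1
    rw [a0, a1, a2, add_zero, add_zero]
  · intro x
    dsimp only
    rw [Finset.sum_add_distrib, Finset.sum_add_distrib, j13, j23]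
    change t x + _ + _ = 0
    rcases x with v | u
    · rw [if_neg (sl_cop2 v), add_zero]
      by_cases hv : v ∈ K
      · rw [if_pos ((sl_cop1 v).2 hv)]
        exact CharTwo.add_self_eq_zero _
      · rw [if_neg (fun h => hv ((sl_cop1 v).1 h)), hout v hv, add_zero]
    · rw [if_pos (sl_cop2r u), if_neg (sl_cop1r u), add_zero]
      exact CharTwo.add_self_eq_zero _
  · intro x y hxy h1 h2
    dsimp only
    have a1 : J1 x y = 0 := by
      by_contra h'
      exact h1 (j12 x y h').2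
    have a2 : J2 x y = 0 := by
      by_contra h'
      exact h2 (j22 x y h').2
    rw [a1, a2, add_zero, add_zero]
    simp only [hz0]
    rw [if_pos ⟨hxy, h2⟩]

end Pool.Agent.DC76
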