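import Pool.Agent.DC76.Defs

/-!
# The cycles of the faces
-/

set_option autoImplicit false

open Finset

namespace Pool.Agent.DC76

variable {V : Type} [Fintype V] [DecidableEq V] {G : SimpleGraph V} {F : Type} [Fintype F]

/-- the boundary of the face `f` modulo `2` -/
def face (M : FacialWalks G F) (f : F) : V → V → ZMod 2 :=
  fun u v => (trav (M.len f) (M.walk f) u v : ZMod 2)

/-- Proof. Symmetry and support: definition of `trav` (a step `t < len f` with
`{w t, w (t + 1)} = {u, v}` gives `G.Adj u v` by `M.adj`). Boundary: let `w = M.walk f`,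
`n = M.len f`. As `w t ≠ w (t + 1)` for `t < n`, `trav n w u v` is
`∑ t < n, ([w t = u ∧ w (t+1) = v] + [w t = v ∧ w (t+1) = u])`; its sum over `v` is
`∑ t < n, ([w t = u] + [w (t+1) = u])`, and `∑ t < n, [w (t+1) = u] = ∑ t < n, [w t = u]` since
`w n = w 0` (`Finset.sum_range_succ`, `Finset.sum_range_succ'`); so it is even. -/
theorem face_mem (M : FacialWalks G F) (f : F) : face M f ∈ Z G Set.univ := by
  have key : ∀ (n : ℕ) (w : ℕ → V), w n = w 0 → (∀ t, t < n → w t ≠ w (t + 1)) →
      ∀ v, ∑ x, (trav n w v x : ZMod 2) = 0 := by
    intro n w hn hw v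
    have h1 : ∀ x, (trav n w v x : ZMod 2) = ∑ t ∈ range n,
        ((if w t = v then (if w (t + 1) = x then (1 : ZMod 2) else 0) else 0) +
          (if w (t + 1) = v then (if w t = x then (1 : ZMod 2) else 0) else 0)) := by
      intro x
      unfold trav
      rw [card_filter, Nat.cast_sum]
      refine sum_congr rfl fun t ht => ?_
      have hne := hw t (mem_range.1 ht)
      by_cases ha : w t = v
      · have hb : w (t + 1) ≠ v := fun h => hne (ha.trans h.symm)
        rw [if_pos ha, if_neg hb, add_zero]
        by_cases hc : w (t + 1) = x
        · rw [if_pos hc, if_pos (Or.inl ⟨ha, hc⟩), Nat.cast_one]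
        · rw [if_neg hc, if_neg, Nat.cast_zero]
          rintro (h | h)
          · exact hc h.2
          · exact hb h.2
      · rw [if_neg ha, zero_add]
        by_cases hb : w (t + 1) = v
        · rw [if_pos hb]
          by_cases hc : w t = x
          · rw [if_pos hc, if_pos (Or.inr ⟨hc, hb⟩), Nat.cast_one]
          · rw [if_neg hc, if_neg, Nat.cast_zero]
            rintro (h | h)
            · exact ha h.1
            · exact hc h.1
        · rw [if_neg hb, if_neg, Nat.cast_zero]
          rintro (h | h)
          · exact ha h.1
          · exact hb h.2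
    have h2 : ∀ a b : V, ∑ x, (if a = b then (if a = x then (1 : ZMod 2) else 0) else 0) =
        if a = b then 1 else 0 := by
      intro a b
      by_cases h : a = b
      · simp only [if_pos h, sum_ite_eq, mem_univ, if_true]
      · simp only [if_neg h, sum_const_zero]
    have h3 : ∀ t, ∑ x, ((if w t = v then (if w (t + 1) = x then (1 : ZMod 2) else 0) else 0) +
          (if w (t + 1) = v then (if w t = x then (1 : ZMod 2) else 0) else 0)) =
        (if w t = v then 1 else 0) + (if w (t + 1) = v then 1 else 0) := by
      intro t
      rw [sum_add_distrib]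
      congr 1
      · by_cases h : w t = v
        · simp only [if_pos h, sum_ite_eq, mem_univ, if_true]
        · simp only [if_neg h, sum_const_zero]
      · by_cases h : w (t + 1) = v
        · simp only [if_pos h, sum_ite_eq, mem_univ, if_true]
        · simp only [if_neg h, sum_const_zero]
    have h4 : ∑ t ∈ range n, (if w (t + 1) = v then (1 : ZMod 2) else 0) =
        ∑ t ∈ range n, (if w t = v then (1 : ZMod 2) else 0) := by
      have e1 := sum_range_succ (fun t => if w t = v then (1 : ZMod 2) else 0) n
      have e2 := sum_range_succ' (fun t => if w t = v then (1 : ZMod 2) else 0) n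
      rw [e1] at e2
      simp only [hn] at e2
      exact (add_right_cancel e2).symm
    calc ∑ x, (trav n w v x : ZMod 2)
        = ∑ x, ∑ t ∈ range n,
          ((if w t = v then (if w (t + 1) = x then (1 : ZMod 2) else 0) else 0) +
            (if w (t + 1) = v then (if w t = x then (1 : ZMod 2) else 0) else 0)) :=
          sum_congr rfl fun x _ => h1 x
      _ = ∑ t ∈ range n, ((if w t = v then 1 else 0) + (if w (t + 1) = v then 1 else 0)) := by
          rw [sum_comm]
          exact sum_congr rfl fun t _ => h3 t
      _ = 0 := by
          rw [sum_add_distrib, h4]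
          exact CharTwo.add_self_eq_zero _
  refine ⟨fun u v => ?_, fun u v h => ?_, fun v => ?_⟩
  · unfold face trav
    congr 2
    ext t
    simp only [mem_filter]
    exact and_congr Iff.rfl or_comm
  · refine ⟨?_, Set.mem_univ _, Set.mem_univ _⟩
    have h1 : trav (M.len f) (M.walk f) u v ≠ 0 := by
      intro h0
      apply h
      unfold face
      rw [h0, Nat.cast_zero]
    unfold trav at h1
    obtain ⟨t, ht⟩ := card_ne_zero.1 h1
    rw [mem_filter, mem_range] at ht
    have hadj := M.adj f t ht.1
    rcases ht.2 with ⟨ha, hb⟩ | ⟨ha, hb⟩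
    · rw [ha, hb] at hadj
      exact hadj
    · rw [ha, hb] at hadj
      exact hadj.symm
  · exact key (M.len f) (M.walk f) (M.closed f) (fun t ht => (M.adj f t ht).ne) v

/-- Proof. If `G.Adj u v` then `∑ f, trav .. = 2`, so at most two summands are nonzero; otherwise
all `face M f u v` are `0` (`face_mem`). -/
theorem face_cov (M : FacialWalks G F) (u v : V) : {f | face M f u v ≠ 0}.ncard ≤ 2 := by
  classical
  by_cases hadj : G.Adj u v
  · have h1 : {f | face M f u v ≠ 0} =
        ((univ.filter fun f => face M f u v ≠ 0 : Finset F) : Set F) := by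
      ext f
      simp only [Set.mem_ofPred_eq, coe_filter, mem_univ, true_and]
    have h2 := M.twice u v hadj
    rw [h1, Set.ncard_coe_finset, card_eq_sum_ones]
    refine le_trans ?_ h2.le
    calc ∑ f ∈ univ.filter fun f => face M f u v ≠ 0, 1
        ≤ ∑ f ∈ univ.filter fun f => face M f u v ≠ 0, trav (M.len f) (M.walk f) u v := by
          refine sum_le_sum fun f hf => ?_
          rw [mem_filter] at hf
          by_contra hlt
          apply hf.2
          have h0 : trav (M.len f) (M.walk f) u v = 0 := by omega
          unfold face
          rw [h0, Nat.cast_zero]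
      _ ≤ ∑ f, trav (M.len f) (M.walk f) u v :=
          sum_le_sum_of_subset (filter_subset _ _)
  · have h1 : {f | face M f u v ≠ 0} = ∅ := by
      ext f
      simp only [Set.mem_ofPred_eq, Set.mem_empty_iff_false, iff_false, not_not]
      by_contra h
      exact hadj ((face_mem M f).2.1 u v h).1
    rw [h1, Set.ncard_empty]
    exact Nat.zero_le _

end Pool.Agent.DC76
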